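import Mathlib

/-!
# Gadgets: ensembles of quadratic forms together with a degree-4 pseudo-moment functional

A quadratic form is given as a sum of squares of linear forms (`qf`).  A pseudo-moment functional
is given as a signed quadrature `q ↦ ∑ c k * q (x k)` whose values on squares of quadratic forms
are sums of squares.
-/

namespace Pool.Agent.Lib.MP_06963d_lc

open Finset

/-- The quadratic form `v ↦ ∑ r, ⟨b r, v⟩ ^ 2`. -/
def qf {R ι : Type} [Fintype R] [Fintype ι] (b : R → ι → ℝ) (v : ι → ℝ) : ℝ :=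
  ∑ r, (∑ i, b r i * v i) ^ 2

/-- The squared Euclidean norm. -/
def nsq {ι : Type} [Fintype ι] (v : ι → ℝ) : ℝ := ∑ i, v i ^ 2

lemma qf_nonneg {R ι : Type} [Fintype R] [Fintype ι] (b : R → ι → ℝ) (v : ι → ℝ) :
    0 ≤ qf b v := Finset.sum_nonneg fun _ _ => sq_nonneg _

lemma nsq_nonneg {ι : Type} [Fintype ι] (v : ι → ℝ) : 0 ≤ nsq v :=
  Finset.sum_nonneg fun _ _ => sq_nonneg _

lemma nsq_eq_zero {ι : Type} [Fintype ι] {v : ι → ℝ} (h : nsq v = 0) : v = 0 := by
  funext i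
  have := (Finset.sum_eq_zero_iff_of_nonneg (fun i _ => sq_nonneg (v i))).mp h i (mem_univ i)
  simpa using this

lemma qf_zero {R ι : Type} [Fintype R] [Fintype ι] (b : R → ι → ℝ) : qf b 0 = 0 := by
  simp [qf]

/-- Gadget on the index type `ι`: exponents in `E` are controlled by `1`, the pseudo-value is
`κ`, the pointwise bound is `W`. -/
def Good (ι : Type) [Fintype ι] (E : Set ℕ) (κ W : ℝ) : Prop :=
  ∃ (K A Ω R : Type) (_ : Fintype K) (_ : Fintype A) (_ : Fintype Ω) (_ : Fintype R)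
    (c : K → ℝ) (x : K → ι → ℝ) (M : A → ι → ι → ℝ) (p : Ω → ℝ) (b : Ω → R → ι → ℝ),
    (∀ Q : ι → ι → ℝ, ∑ k, c k * (∑ i, ∑ j, Q i j * x k i * x k j) ^ 2
        = ∑ a, (∑ i, ∑ j, M a i j * Q i j) ^ 2) ∧
    (∑ k, c k * nsq (x k) ^ 2 = 1) ∧
    (∀ ω, 0 ≤ p ω) ∧ (∑ ω, p ω = 1) ∧
    (∀ ω v, qf (b ω) v ≤ W * nsq v) ∧
    (∀ m ∈ E, ∀ v, ∑ ω, p ω * qf (b ω) v ^ m ≤ nsq v ^ m) ∧
    (∑ ω, p ω * ∑ k, c k * qf (b ω) (x k) ^ 2 = κ)

/-- The key convexity lemma: a moment bound extends to sums over families of vectors. -/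
lemma family_bound {ι Ω R F : Type} [Fintype ι] [Fintype Ω] [Fintype R] [Fintype F]
    (p : Ω → ℝ) (hp : ∀ ω, 0 ≤ p ω) (b : Ω → R → ι → ℝ) (m : ℕ)
    (h : ∀ v, ∑ ω, p ω * qf (b ω) v ^ m ≤ nsq v ^ m) (u : F → ι → ℝ) :
    ∑ ω, p ω * (∑ f, qf (b ω) (u f)) ^ m ≤ (∑ f, nsq (u f)) ^ m := by
  classical
  set N := ∑ f, nsq (u f) with hN
  have hN0 : 0 ≤ N := Finset.sum_nonneg fun f _ => nsq_nonneg _
  by_cases hNz : N = 0
  · have hu : ∀ f, u f = 0 := fun f => nsq_eq_zero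
      ((Finset.sum_eq_zero_iff_of_nonneg (fun f _ => nsq_nonneg (u f))).mp hNz f (mem_univ f))
    have := h 0
    simp only [qf_zero] at this
    simp only [hu, qf_zero, Finset.sum_const_zero, hNz]
    have h0 : nsq (0 : ι → ℝ) = 0 := by simp [nsq]
    rwa [h0] at this
  have hNp : 0 < N := lt_of_le_of_ne hN0 (Ne.symm hNz)
  have key : ∀ ω, (∑ f, qf (b ω) (u f)) ^ m
      ≤ N ^ m * ∑ f, (nsq (u f) / N) * (qf (b ω) (u f) / nsq (u f)) ^ m := by
    intro ω
    have h1 : ∑ f, qf (b ω) (u f) = N * ∑ f, (nsq (u f) / N) * (qf (b ω) (u f) / nsq (u f)) := by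
      rw [Finset.mul_sum]
      refine Finset.sum_congr rfl fun f _ => ?_
      by_cases hf : nsq (u f) = 0
      · rw [nsq_eq_zero hf, qf_zero]; simp [nsq]
      · field_simp
    rw [h1, mul_pow]
    refine mul_le_mul_of_nonneg_left ?_ (pow_nonneg hN0 m)
    refine Real.pow_arith_mean_le_arith_mean_pow _ _ _ (fun f _ => ?_) ?_ (fun f _ => ?_) m
    · exact div_nonneg (nsq_nonneg _) hN0
    · rw [← Finset.sum_div, ← hN, div_self hNz]
    · exact div_nonneg (qf_nonneg _ _) (nsq_nonneg _)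
  have key2 : ∀ f, ∑ ω, p ω * (qf (b ω) (u f) / nsq (u f)) ^ m ≤ 1 ∨ nsq (u f) = 0 := by
    intro f
    by_cases hf : nsq (u f) = 0
    · exact Or.inr hf
    · left
      have hf' : 0 < nsq (u f) := lt_of_le_of_ne (nsq_nonneg _) (Ne.symm hf)
      have := h (u f)
      have e : ∑ ω, p ω * (qf (b ω) (u f) / nsq (u f)) ^ m
          = (∑ ω, p ω * qf (b ω) (u f) ^ m) / nsq (u f) ^ m := by
        rw [Finset.sum_div]
        refine Finset.sum_congr rfl fun ω _ => ?_
        rw [div_pow]; ring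
      rw [e, div_le_one (pow_pos hf' m)]
      exact this
  calc ∑ ω, p ω * (∑ f, qf (b ω) (u f)) ^ m
      ≤ ∑ ω, p ω * (N ^ m * ∑ f, (nsq (u f) / N) * (qf (b ω) (u f) / nsq (u f)) ^ m) :=
        Finset.sum_le_sum fun ω _ => mul_le_mul_of_nonneg_left (key ω) (hp ω)
    _ = N ^ m * ∑ f, (nsq (u f) / N) * ∑ ω, p ω * (qf (b ω) (u f) / nsq (u f)) ^ m := by
        simp only [Finset.mul_sum]
        rw [Finset.sum_comm]
        refine Finset.sum_congr rfl fun f _ => Finset.sum_congr rfl fun ω _ => ?_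
        ring
    _ ≤ N ^ m * ∑ f, (nsq (u f) / N) * 1 := by
        refine mul_le_mul_of_nonneg_left ?_ (pow_nonneg hN0 m)
        refine Finset.sum_le_sum fun f _ => ?_
        rcases key2 f with h' | h'
        · exact mul_le_mul_of_nonneg_left h' (div_nonneg (nsq_nonneg _) hN0)
        · rw [h']; simp
    _ = N ^ m := by
        simp only [mul_one]
        rw [← Finset.sum_div, ← hN, div_self hNz, mul_one]

/-- contraction of a vector on a product index against a vector of the first factor -/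
def contr {ι ι' : Type} [Fintype ι] (β : ι → ℝ) (v : ι × ι' → ℝ) : ι' → ℝ :=
  fun i' => ∑ i, β i * v (i, i')

/-- slice of a vector on a product index -/
def slice {ι ι' : Type} (v : ι × ι' → ℝ) (i' : ι') : ι → ℝ := fun i => v (i, i')

lemma sum_nsq_contr {ι ι' R : Type} [Fintype ι] [Fintype ι'] [Fintype R]
    (β : R → ι → ℝ) (v : ι × ι' → ℝ) :
    ∑ r, nsq (contr (β r) v) = ∑ i', qf β (slice v i') := by
  simp only [nsq, contr, qf, slice]
  rw [Finset.sum_comm]

lemma sum_nsq_slice {ι ι' : Type} [Fintype ι] [Fintype ι'] (v : ι × ι' → ℝ) :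
    ∑ i', nsq (slice v i') = nsq v := by
  simp only [nsq, slice]
  rw [Fintype.sum_prod_type_right]

/-- tensor product of two families of vectors -/
def tens {R R' ι ι' : Type} (β : R → ι → ℝ) (β' : R' → ι' → ℝ) : R × R' → ι × ι' → ℝ :=
  fun r i => β r.1 i.1 * β' r.2 i.2

lemma qf_tens {R R' ι ι' : Type} [Fintype R] [Fintype R'] [Fintype ι] [Fintype ι']
    (β : R → ι → ℝ) (β' : R' → ι' → ℝ) (v : ι × ι' → ℝ) :
    qf (tens β β') v = ∑ r, qf β' (contr (β r) v) := by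
  simp only [qf, tens, contr]
  rw [Fintype.sum_prod_type]
  refine Finset.sum_congr rfl fun r _ => Finset.sum_congr rfl fun r' _ => ?_
  congr 1
  rw [Fintype.sum_prod_type_right]
  refine Finset.sum_congr rfl fun i' _ => ?_
  rw [Finset.mul_sum]
  refine Finset.sum_congr rfl fun i _ => ?_
  ring

lemma qf_tens_point {R R' ι ι' : Type} [Fintype R] [Fintype R'] [Fintype ι] [Fintype ι']
    (β : R → ι → ℝ) (β' : R' → ι' → ℝ) (x : ι → ℝ) (x' : ι' → ℝ) :
    qf (tens β β') (fun i => x i.1 * x' i.2) = qf β x * qf β' x' := by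
  simp only [qf, tens]
  rw [Fintype.sum_prod_type, Finset.sum_mul]
  refine Finset.sum_congr rfl fun r _ => ?_
  rw [Finset.mul_sum]
  refine Finset.sum_congr rfl fun r' _ => ?_
  rw [← mul_pow]
  congr 1
  rw [Fintype.sum_prod_type, Finset.sum_mul]
  refine Finset.sum_congr rfl fun i _ => ?_
  rw [Finset.mul_sum]
  refine Finset.sum_congr rfl fun i' _ => ?_
  ring

lemma nsq_point {ι ι' : Type} [Fintype ι] [Fintype ι'] (x : ι → ℝ) (x' : ι' → ℝ) :
    nsq (fun i : ι × ι' => x i.1 * x' i.2) = nsq x * nsq x' := by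
  simp only [nsq]
  rw [Fintype.sum_prod_type, Finset.sum_mul]
  refine Finset.sum_congr rfl fun r _ => ?_
  rw [Finset.mul_sum]
  refine Finset.sum_congr rfl fun r' _ => ?_
  rw [← mul_pow]

end Pool.Agent.Lib.MP_06963d_lc
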