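import Mathlib
import Pool.Agent.Lib.MP_06963d_lc.Core

/-!
# Tensor products of gadgets
-/

namespace Pool.Agent.Lib.MP_06963d_lc

open Finset

/-- bound for all exponents simultaneously, in the tensor product -/
lemma moment_tens {ι ι' Ω Ω' R R' : Type} [Fintype ι] [Fintype ι'] [Fintype Ω] [Fintype Ω']
    [Fintype R] [Fintype R'] (p : Ω → ℝ) (hp : ∀ ω, 0 ≤ p ω) (b : Ω → R → ι → ℝ)
    (p' : Ω' → ℝ) (hp' : ∀ ω, 0 ≤ p' ω) (b' : Ω' → R' → ι' → ℝ) (m : ℕ)
    (h : ∀ v, ∑ ω, p ω * qf (b ω) v ^ m ≤ nsq v ^ m)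
    (h' : ∀ v, ∑ ω, p' ω * qf (b' ω) v ^ m ≤ nsq v ^ m) (v : ι × ι' → ℝ) :
    ∑ ω : Ω × Ω', (p ω.1 * p' ω.2) * qf (tens (b ω.1) (b' ω.2)) v ^ m ≤ nsq v ^ m := by
  rw [Fintype.sum_prod_type]
  calc ∑ ω, ∑ ω', (p ω * p' ω') * qf (tens (b ω) (b' ω')) v ^ m
      = ∑ ω, p ω * ∑ ω', p' ω' * (∑ r, qf (b' ω') (contr (b ω r) v)) ^ m := by
        refine Finset.sum_congr rfl fun ω _ => ?_
        rw [Finset.mul_sum]
        refine Finset.sum_congr rfl fun ω' _ => ?_
        rw [qf_tens]; ring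
    _ ≤ ∑ ω, p ω * (∑ r, nsq (contr (b ω r) v)) ^ m :=
        Finset.sum_le_sum fun ω _ => mul_le_mul_of_nonneg_left
          (family_bound p' hp' b' m h' fun r => contr (b ω r) v) (hp ω)
    _ = ∑ ω, p ω * (∑ i', qf (b ω) (slice v i')) ^ m := by
        refine Finset.sum_congr rfl fun ω _ => ?_
        rw [sum_nsq_contr]
    _ ≤ (∑ i', nsq (slice v i')) ^ m := family_bound p hp b m h fun i' => slice v i'
    _ = nsq v ^ m := by rw [sum_nsq_slice]

lemma pointwise_tens {ι ι' R R' : Type} [Fintype ι] [Fintype ι']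
    [Fintype R] [Fintype R'] (β : R → ι → ℝ) (β' : R' → ι' → ℝ) {W W' : ℝ}
    (hW' : 0 ≤ W')
    (h : ∀ v, qf β v ≤ W * nsq v) (h' : ∀ v, qf β' v ≤ W' * nsq v) (v : ι × ι' → ℝ) :
    qf (tens β β') v ≤ W * W' * nsq v := by
  calc qf (tens β β') v = ∑ r, qf β' (contr (β r) v) := qf_tens _ _ _
    _ ≤ ∑ r, W' * nsq (contr (β r) v) := Finset.sum_le_sum fun r _ => h' _
    _ = W' * ∑ i', qf β (slice v i') := by rw [← Finset.mul_sum, sum_nsq_contr]
    _ ≤ W' * ∑ i', W * nsq (slice v i') :=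
        mul_le_mul_of_nonneg_left (Finset.sum_le_sum fun r _ => h _) hW'
    _ = W * W' * nsq v := by rw [← Finset.mul_sum, sum_nsq_slice]; ring

/-- positivity of the tensor product functional, with explicit Gram data -/
lemma psd_tens {ι ι' K K' A A' : Type} [Fintype ι] [Fintype ι'] [Fintype K] [Fintype K']
    [Fintype A] [Fintype A'] (c : K → ℝ) (x : K → ι → ℝ) (M : A → ι → ι → ℝ)
    (c' : K' → ℝ) (x' : K' → ι' → ℝ) (M' : A' → ι' → ι' → ℝ)
    (h : ∀ Q : ι → ι → ℝ, ∑ k, c k * (∑ i, ∑ j, Q i j * x k i * x k j) ^ 2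
        = ∑ a, (∑ i, ∑ j, M a i j * Q i j) ^ 2)
    (h' : ∀ Q : ι' → ι' → ℝ, ∑ k, c' k * (∑ i, ∑ j, Q i j * x' k i * x' k j) ^ 2
        = ∑ a, (∑ i, ∑ j, M' a i j * Q i j) ^ 2)
    (Q : ι × ι' → ι × ι' → ℝ) :
    ∑ k : K × K', (c k.1 * c' k.2) * (∑ i : ι × ι', ∑ j : ι × ι',
        Q i j * (x k.1 i.1 * x' k.2 i.2) * (x k.1 j.1 * x' k.2 j.2)) ^ 2
      = ∑ a : A × A', (∑ i : ι × ι', ∑ j : ι × ι',
          (M a.1 i.1 j.1 * M' a.2 i.2 j.2) * Q i j) ^ 2 := by
  -- reorganise the fourfold sums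
  have e1 : ∀ k k', (∑ i : ι × ι', ∑ j : ι × ι',
        Q i j * (x k i.1 * x' k' i.2) * (x k j.1 * x' k' j.2))
      = ∑ i, ∑ j, (∑ i', ∑ j', Q (i, i') (j, j') * x' k' i' * x' k' j') * x k i * x k j := by
    intro k k'
    rw [Fintype.sum_prod_type]
    refine Finset.sum_congr rfl fun i _ => ?_
    simp only [Fintype.sum_prod_type]
    rw [Finset.sum_comm]
    refine Finset.sum_congr rfl fun j _ => ?_
    simp only [Finset.sum_mul]
    refine Finset.sum_congr rfl fun i' _ => Finset.sum_congr rfl fun j' _ => ?_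
    ring
  have e2 : ∀ a k', (∑ i, ∑ j, M a i j * ∑ i', ∑ j', Q (i, i') (j, j') * x' k' i' * x' k' j')
      = ∑ i', ∑ j', (∑ i, ∑ j, M a i j * Q (i, i') (j, j')) * x' k' i' * x' k' j' := by
    intro a k'
    simp only [Finset.mul_sum, Finset.sum_mul]
    calc ∑ i, ∑ j, ∑ i', ∑ j', M a i j * (Q (i, i') (j, j') * x' k' i' * x' k' j')
        = ∑ i, ∑ i', ∑ j, ∑ j', M a i j * (Q (i, i') (j, j') * x' k' i' * x' k' j') :=
          Finset.sum_congr rfl fun i _ => Finset.sum_comm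
      _ = ∑ i', ∑ i, ∑ j, ∑ j', M a i j * (Q (i, i') (j, j') * x' k' i' * x' k' j') :=
          Finset.sum_comm
      _ = ∑ i', ∑ i, ∑ j', ∑ j, M a i j * (Q (i, i') (j, j') * x' k' i' * x' k' j') :=
          Finset.sum_congr rfl fun i' _ => Finset.sum_congr rfl fun i _ => Finset.sum_comm
      _ = ∑ i', ∑ j', ∑ i, ∑ j, M a i j * (Q (i, i') (j, j') * x' k' i' * x' k' j') :=
          Finset.sum_congr rfl fun i' _ => Finset.sum_comm
      _ = _ := by
          refine Finset.sum_congr rfl fun i' _ => Finset.sum_congr rfl fun j' _ =>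
            Finset.sum_congr rfl fun i _ => Finset.sum_congr rfl fun j _ => ?_
          ring
  have e3 : ∀ a a', (∑ i : ι × ι', ∑ j : ι × ι', (M a i.1 j.1 * M' a' i.2 j.2) * Q i j)
      = ∑ i', ∑ j', M' a' i' j' * ∑ i, ∑ j, M a i j * Q (i, i') (j, j') := by
    intro a a'
    simp only [Finset.mul_sum, Fintype.sum_prod_type]
    calc ∑ i, ∑ i', ∑ j, ∑ j', M a i j * M' a' i' j' * Q (i, i') (j, j')
        = ∑ i', ∑ i, ∑ j, ∑ j', M a i j * M' a' i' j' * Q (i, i') (j, j') := Finset.sum_comm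
      _ = ∑ i', ∑ i, ∑ j', ∑ j, M a i j * M' a' i' j' * Q (i, i') (j, j') :=
          Finset.sum_congr rfl fun i' _ => Finset.sum_congr rfl fun i _ => Finset.sum_comm
      _ = ∑ i', ∑ j', ∑ i, ∑ j, M a i j * M' a' i' j' * Q (i, i') (j, j') :=
          Finset.sum_congr rfl fun i' _ => Finset.sum_comm
      _ = _ := by
          refine Finset.sum_congr rfl fun i' _ => Finset.sum_congr rfl fun j' _ =>
            Finset.sum_congr rfl fun i _ => Finset.sum_congr rfl fun j _ => ?_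
          ring
  calc ∑ k : K × K', (c k.1 * c' k.2) * (∑ i : ι × ι', ∑ j : ι × ι',
        Q i j * (x k.1 i.1 * x' k.2 i.2) * (x k.1 j.1 * x' k.2 j.2)) ^ 2
      = ∑ k', c' k' * ∑ k, c k *
          (∑ i, ∑ j, (∑ i', ∑ j', Q (i, i') (j, j') * x' k' i' * x' k' j') * x k i * x k j) ^ 2
        := by
        rw [Fintype.sum_prod_type_right]
        refine Finset.sum_congr rfl fun k' _ => ?_
        rw [Finset.mul_sum]
        refine Finset.sum_congr rfl fun k _ => ?_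
        rw [e1]; ring
    _ = ∑ k', c' k' * ∑ a, (∑ i', ∑ j', (∑ i, ∑ j, M a i j * Q (i, i') (j, j'))
          * x' k' i' * x' k' j') ^ 2 := by
        refine Finset.sum_congr rfl fun k' _ => ?_
        rw [h fun i j => ∑ i', ∑ j', Q (i, i') (j, j') * x' k' i' * x' k' j']
        congr 1
        refine Finset.sum_congr rfl fun a _ => ?_
        rw [e2]
    _ = ∑ a, ∑ k', c' k' * (∑ i', ∑ j', (∑ i, ∑ j, M a i j * Q (i, i') (j, j'))
          * x' k' i' * x' k' j') ^ 2 := by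
        simp only [Finset.mul_sum]
        rw [Finset.sum_comm]
    _ = ∑ a, ∑ a', (∑ i', ∑ j', M' a' i' j' * ∑ i, ∑ j, M a i j * Q (i, i') (j, j')) ^ 2 := by
        refine Finset.sum_congr rfl fun a _ => ?_
        rw [h' fun i' j' => ∑ i, ∑ j, M a i j * Q (i, i') (j, j')]
    _ = _ := by
        rw [Fintype.sum_prod_type]
        refine Finset.sum_congr rfl fun a _ => Finset.sum_congr rfl fun a' _ => ?_
        rw [e3]

theorem Good.prod {ι ι' : Type} [Fintype ι] [Fintype ι'] {E : Set ℕ} {κ W κ' W' : ℝ}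
    (hW' : 0 ≤ W') (h : Good ι E κ W) (h' : Good ι' E κ' W') :
    Good (ι × ι') E (κ * κ') (W * W') := by
  obtain ⟨K, A, Ω, R, _, _, _, _, c, x, M, p, b, h1, h2, h3, h4, h5, h6, h7⟩ := h
  obtain ⟨K', A', Ω', R', _, _, _, _, c', x', M', p', b', h1', h2', h3', h4', h5', h6', h7'⟩ := h'
  refine ⟨K × K', A × A', Ω × Ω', R × R', inferInstance, inferInstance, inferInstance,
    inferInstance, fun k => c k.1 * c' k.2, fun k i => x k.1 i.1 * x' k.2 i.2,
    fun a i j => M a.1 i.1 j.1 * M' a.2 i.2 j.2, fun ω => p ω.1 * p' ω.2,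
    fun ω => tens (b ω.1) (b' ω.2), ?_, ?_, ?_, ?_, ?_, ?_, ?_⟩
  · exact psd_tens c x M c' x' M' h1 h1'
  · have : ∑ k : K × K', c k.1 * c' k.2 * nsq (fun i : ι × ι' => x k.1 i.1 * x' k.2 i.2) ^ 2
        = (∑ k, c k * nsq (x k) ^ 2) * ∑ k', c' k' * nsq (x' k') ^ 2 := by
      rw [Fintype.sum_prod_type, Finset.sum_mul]
      refine Finset.sum_congr rfl fun k _ => ?_
      rw [Finset.mul_sum]
      refine Finset.sum_congr rfl fun k' _ => ?_
      rw [nsq_point]; ring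
    rw [this, h2, h2', mul_one]
  · exact fun ω => mul_nonneg (h3 _) (h3' _)
  · rw [Fintype.sum_prod_type]
    simp only [← Finset.mul_sum, h4', mul_one, h4]
  · exact fun ω v => pointwise_tens _ _ hW' (h5 ω.1) (h5' ω.2) v
  · exact fun m hm v => moment_tens p h3 b p' h3' b' m (h6 m hm) (h6' m hm) v
  · rw [← h7, ← h7', Fintype.sum_prod_type, Finset.sum_mul]
    refine Finset.sum_congr rfl fun ω _ => ?_
    rw [mul_assoc, Finset.mul_sum, Finset.mul_sum]
    refine Finset.sum_congr rfl fun ω' _ => ?_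
    have : ∑ k : K × K', c k.1 * c' k.2 *
        qf (tens (b ω) (b' ω')) (fun i : ι × ι' => x k.1 i.1 * x' k.2 i.2) ^ 2
        = (∑ k, c k * qf (b ω) (x k) ^ 2) * ∑ k', c' k' * qf (b' ω') (x' k') ^ 2 := by
      rw [Fintype.sum_prod_type, Finset.sum_mul]
      refine Finset.sum_congr rfl fun k _ => ?_
      rw [Finset.mul_sum]
      refine Finset.sum_congr rfl fun k' _ => ?_
      rw [qf_tens_point]; ring
    rw [this]; ring

/-- The trivial gadget. -/
theorem good_unit (E : Set ℕ) : Good Unit E 1 1 := by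
  refine ⟨Unit, Unit, Unit, Unit, inferInstance, inferInstance, inferInstance, inferInstance,
    fun _ => 1, fun _ _ => 1, fun _ _ _ => 1, fun _ => 1, fun _ _ _ => 1, ?_, ?_, ?_, ?_, ?_, ?_, ?_⟩
  · intro Q; simp
  · simp [nsq]
  · intro _; norm_num
  · simp
  · intro _ v; simp [qf, nsq]
  · intro m _ v; simp [qf, nsq]
  · simp [qf]

/-- Tensor powers. -/
theorem Good.pow {ι : Type} [Fintype ι] {E : Set ℕ} {κ W : ℝ} (hW : 0 ≤ W)
    (h : Good ι E κ W) (t : ℕ) :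
    ∃ (J : Type) (_ : Fintype J), Fintype.card J = Fintype.card ι ^ t ∧
      Good J E (κ ^ t) (W ^ t) := by
  induction t with
  | zero => exact ⟨Unit, inferInstance, by simp, by simpa using good_unit E⟩
  | succ t ih =>
    obtain ⟨J, _, hJ, hG⟩ := ih
    refine ⟨J × ι, inferInstance, by rw [Fintype.card_prod, hJ, pow_succ], ?_⟩
    rw [pow_succ, pow_succ]
    exact hG.prod hW h

end Pool.Agent.Lib.MP_06963d_lc
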