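import Mathlib
import Pool.Agent.Lib.MP_06963d_lc.Prod

/-!
# The base gadget in dimension four

It is built from the Choi-Lam form `w^4 + x^2 y^2 + y^2 z^2 + z^2 x^2 - 4 x y z w`.
-/

namespace Pool.Agent.Lib.MP_06963d_lc

open Finset

/-- nonnegativity of the Choi-Lam form -/
lemma choiLam_nonneg (w x y z : ℝ) :
    0 ≤ w ^ 4 + x ^ 2 * y ^ 2 + y ^ 2 * z ^ 2 + z ^ 2 * x ^ 2 - 4 * x * y * z * w := by
  have h1 : 0 ≤ (w ^ 2 - |x| * |y|) ^ 2 := sq_nonneg _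
  have h2 : 0 ≤ z ^ 2 * (|x| - |y|) ^ 2 := by positivity
  have h3 : 0 ≤ 2 * (|x| * |y|) * (|w| - |z|) ^ 2 := by positivity
  have hx : |x| ^ 2 = x ^ 2 := sq_abs x
  have hy : |y| ^ 2 = y ^ 2 := sq_abs y
  have hz : |z| ^ 2 = z ^ 2 := sq_abs z
  have hw : |w| ^ 2 = w ^ 2 := sq_abs w
  have h4 : x * y * z * w ≤ |x| * |y| * |z| * |w| := by
    rw [← abs_mul, ← abs_mul, ← abs_mul]; exact le_abs_self _
  have e1 : (w ^ 2 - |x| * |y|) ^ 2 = w ^ 4 - 2 * w ^ 2 * (|x| * |y|) + x ^ 2 * y ^ 2 := by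
    rw [← hx, ← hy]; ring
  have e2 : z ^ 2 * (|x| - |y|) ^ 2 = z ^ 2 * x ^ 2 + y ^ 2 * z ^ 2 - 2 * z ^ 2 * (|x| * |y|) := by
    rw [← hx, ← hy]; ring
  have e3 : 2 * (|x| * |y|) * (|w| - |z|) ^ 2
      = 2 * (|x| * |y|) * w ^ 2 + 2 * (|x| * |y|) * z ^ 2 - 4 * (|x| * |y| * |z| * |w|) := by
    rw [← hw, ← hz]; ring
  nlinarith

/-- weights of the atoms -/
noncomputable def bp : Fin 18 → ℝ :=
  ![1/24, 1/24, 1/24, 1/24, 1/48, 1/48, 1/48, 1/48, 1/24, 1/24, 1/24, 1/24, 1/24, 1/24,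
    1/24, 1/24, 1/24, 3/8]

/-- the atoms -/
def bb : Fin 18 → Fin 4 → ℝ :=
  ![![1, 1, 1, 1], ![1, 1, -1, -1], ![1, -1, 1, -1], ![1, -1, -1, 1],
    ![-1, 1, 1, 1], ![1, -1, 1, 1], ![1, 1, -1, 1], ![1, 1, 1, -1],
    ![1, 1, 0, 0], ![1, -1, 0, 0], ![1, 0, 1, 0], ![1, 0, -1, 0], ![1, 0, 0, 1], ![1, 0, 0, -1],
    ![0, 2, 0, 0], ![0, 0, 2, 0], ![0, 0, 0, 2], ![0, 0, 0, 0]]

/-- weights of the quadrature -/
noncomputable def bc : Fin 8 → ℝ :=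
  ![1/98, 1/98, 1/98, 1/98, -1/49, 6/49, 6/49, 6/49]

/-- points of the quadrature -/
def bx : Fin 8 → Fin 4 → ℝ :=
  ![![1, 1, 1, 1], ![1, 1, -1, -1], ![1, -1, 1, -1], ![1, -1, -1, 1],
    ![1, 0, 0, 0], ![0, 1, 0, 0], ![0, 0, 1, 0], ![0, 0, 0, 1]]

/-- Gram data of the quadrature -/
noncomputable def bM : Fin 13 → Fin 4 → Fin 4 → ℝ :=
  ![![![1/7, 0, 0, 0], ![0, 2/7, 0, 0], ![0, 0, 2/7, 0], ![0, 0, 0, 2/7]],
    ![![0, 0, 0, 0], ![0, 1/7, 0, 0], ![0, 0, -1/7, 0], ![0, 0, 0, 0]],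
    ![![0, 0, 0, 0], ![0, 1/7, 0, 0], ![0, 0, -1/7, 0], ![0, 0, 0, 0]],
    ![![0, 0, 0, 0], ![0, 0, 0, 0], ![0, 0, 1/7, 0], ![0, 0, 0, -1/7]],
    ![![0, 0, 0, 0], ![0, 0, 0, 0], ![0, 0, 1/7, 0], ![0, 0, 0, -1/7]],
    ![![0, 0, 0, 0], ![0, 1/7, 0, 0], ![0, 0, 0, 0], ![0, 0, 0, -1/7]],
    ![![0, 0, 0, 0], ![0, 1/7, 0, 0], ![0, 0, 0, 0], ![0, 0, 0, -1/7]],
    ![![0, 1/7, 0, 0], ![1/7, 0, 0, 0], ![0, 0, 0, 1/7], ![0, 0, 1/7, 0]],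
    ![![0, 1/7, 0, 0], ![1/7, 0, 0, 0], ![0, 0, 0, 1/7], ![0, 0, 1/7, 0]],
    ![![0, 0, 1/7, 0], ![0, 0, 0, 1/7], ![1/7, 0, 0, 0], ![0, 1/7, 0, 0]],
    ![![0, 0, 1/7, 0], ![0, 0, 0, 1/7], ![1/7, 0, 0, 0], ![0, 1/7, 0, 0]],
    ![![0, 0, 0, 1/7], ![0, 0, 1/7, 0], ![0, 1/7, 0, 0], ![1/7, 0, 0, 0]],
    ![![0, 0, 0, 1/7], ![0, 0, 1/7, 0], ![0, 1/7, 0, 0], ![1/7, 0, 0, 0]]]

lemma base_psd (Q : Fin 4 → Fin 4 → ℝ) :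
    ∑ k, bc k * (∑ i, ∑ j, Q i j * bx k i * bx k j) ^ 2
      = ∑ a, (∑ i, ∑ j, bM a i j * Q i j) ^ 2 := by
  simp only [Fin.sum_univ_succ, Fin.sum_univ_zero, bc, bx, bM, Matrix.cons_val_zero,
    Matrix.cons_val_succ, Fin.succ_zero_eq_one, Fin.succ_one_eq_two]
  simp
  ring

lemma base_norm : ∑ k, bc k * nsq (bx k) ^ 2 = 1 := by
  simp [Fin.sum_univ_succ, bc, bx, nsq]
  norm_num

lemma base_p_nonneg (ω : Fin 18) : 0 ≤ bp ω := by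
  fin_cases ω <;> norm_num [bp]

lemma base_p_sum : ∑ ω, bp ω = 1 := by
  simp [Fin.sum_univ_succ, bp]
  norm_num

lemma base_identity (v : Fin 4 → ℝ) :
    ∑ ω, bp ω * qf (fun _ : Unit => bb ω) v ^ 2
      = nsq v ^ 2 - (v 0 ^ 4 + v 1 ^ 2 * v 2 ^ 2 + v 2 ^ 2 * v 3 ^ 2 + v 3 ^ 2 * v 1 ^ 2
          - 4 * v 1 * v 2 * v 3 * v 0) / 2 := by
  simp [Fin.sum_univ_succ, bp, bb, qf, nsq]
  ring

lemma base_le (ω : Fin 18) : nsq (bb ω) ≤ 4 := by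
  fin_cases ω <;> norm_num [bb, nsq, Fin.sum_univ_succ]

theorem good_base : Good (Fin 4) {2} (99 / 98) 4 := by
  refine ⟨Fin 8, Fin 13, Fin 18, Unit, inferInstance, inferInstance, inferInstance, inferInstance,
    bc, bx, bM, bp, fun ω _ => bb ω, base_psd, base_norm, base_p_nonneg, base_p_sum, ?_, ?_, ?_⟩
  · intro ω v
    have h1 : qf (fun _ : Unit => bb ω) v = (∑ i, bb ω i * v i) ^ 2 := by simp [qf]
    rw [h1]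
    refine (Finset.sum_mul_sq_le_sq_mul_sq univ (bb ω) v).trans ?_
    exact mul_le_mul_of_nonneg_right (base_le ω) (nsq_nonneg v)
  · intro m hm v
    rw [Set.mem_singleton_iff] at hm
    subst hm
    rw [base_identity]
    have := choiLam_nonneg (v 0) (v 1) (v 2) (v 3)
    nlinarith
  · simp only [Finset.mul_sum]
    rw [Finset.sum_comm]
    have : ∀ k : Fin 8, ∑ ω, bp ω * (bc k * qf (fun _ : Unit => bb ω) (bx k) ^ 2)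
        = bc k * (∑ ω, bp ω * qf (fun _ : Unit => bb ω) (bx k) ^ 2) := by
      intro k
      rw [Finset.mul_sum]
      exact Finset.sum_congr rfl fun ω _ => by ring
    simp only [this, base_identity]
    simp [Fin.sum_univ_succ, bc, bx, nsq]
    norm_num

end Pool.Agent.Lib.MP_06963d_lc
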