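import Mathlib
import Pool.Agent.Lib.MP_06963d_lc.Prod

/-!
# The slot construction

From a gadget whose second moment is controlled and whose pseudo-value is large we build, by
`1 ± η w`, a gadget all of whose moments up to order `m` are controlled and whose pseudo-value is
strictly larger than one.
-/

namespace Pool.Agent.Lib.MP_06963d_lc

open Finset

open scoped MatrixOrder ComplexOrder

/-- A nonnegative quadratic form is a sum of squares of linear forms. -/
lemma exists_gram {ι : Type} [Fintype ι] (S : ι → ι → ℝ) (hS : ∀ i j, S i j = S j i)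
    (h : ∀ v : ι → ℝ, 0 ≤ ∑ i, ∑ j, S i j * v i * v j) :
    ∃ β : ι → ι → ℝ, ∀ v, qf β v = ∑ i, ∑ j, S i j * v i * v j := by
  classical
  let M : Matrix ι ι ℝ := Matrix.of S
  have hq : ∀ v : ι → ℝ, dotProduct v (M.mulVec v) = ∑ i, ∑ j, S i j * v i * v j := by
    intro v
    simp only [dotProduct, Matrix.mulVec, M, Matrix.of_apply, Finset.mul_sum]
    refine Finset.sum_congr rfl fun i _ => Finset.sum_congr rfl fun j _ => ?_
    ring
  have hM : M.PosSemidef := by
    rw [Matrix.posSemidef_iff_dotProduct_mulVec]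
    refine ⟨?_, ?_⟩
    · ext i j
      simp [M, Matrix.conjTranspose_apply, hS i j]
    · intro v
      have : star v = v := by ext i; simp
      rw [this, hq]
      exact h v
  obtain ⟨B, hB⟩ := CStarAlgebra.nonneg_iff_eq_star_mul_self.mp hM.nonneg
  refine ⟨fun r i => B r i, fun v => ?_⟩
  rw [← hq, hB, ← Matrix.mulVec_mulVec, Matrix.star_eq_conjTranspose,
    Matrix.dotProduct_mulVec]
  have : Matrix.vecMul v B.conjTranspose = B.mulVec v := by
    ext r
    simp [Matrix.vecMul, Matrix.mulVec, dotProduct, Matrix.conjTranspose_apply, mul_comm]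
  rw [this]
  simp only [qf, dotProduct, Matrix.mulVec]
  refine Finset.sum_congr rfl fun r _ => ?_
  rw [sq]

/-- `qf` as a bilinear sum -/
lemma qf_expand {R ι : Type} [Fintype R] [Fintype ι] (b : R → ι → ℝ) (v : ι → ℝ) :
    qf b v = ∑ i, ∑ j, (∑ r, b r i * b r j) * v i * v j := by
  have h : ∀ r, (∑ i, b r i * v i) ^ 2 = ∑ i, ∑ j, b r i * b r j * v i * v j := by
    intro r
    rw [sq, Finset.sum_mul_sum]
    refine Finset.sum_congr rfl fun i _ => Finset.sum_congr rfl fun j _ => ?_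
    ring
  simp only [qf, h]
  rw [Finset.sum_comm]
  refine Finset.sum_congr rfl fun i _ => ?_
  rw [Finset.sum_comm]
  refine Finset.sum_congr rfl fun j _ => ?_
  simp only [Finset.sum_mul]

/-- The form `(|v|^2 + s * qf b v) / a` is a sum of squares of linear forms when it is
nonnegative. -/
lemma exists_slot {R ι : Type} [Fintype R] [Fintype ι] (b : R → ι → ℝ) (s a : ℝ)
    (h : ∀ v : ι → ℝ, 0 ≤ (nsq v + s * qf b v) / a) :
    ∃ β : ι → ι → ℝ, ∀ v, qf β v = (nsq v + s * qf b v) / a := by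
  classical
  have key : ∀ v : ι → ℝ, ∑ i, ∑ j, (((if i = j then 1 else 0) + s * ∑ r, b r i * b r j) / a)
      * v i * v j = (nsq v + s * qf b v) / a := by
    intro v
    rw [qf_expand, nsq, Finset.mul_sum, ← Finset.sum_add_distrib, Finset.sum_div]
    refine Finset.sum_congr rfl fun i _ => ?_
    have : v i ^ 2 = ∑ j, (if i = j then (1 : ℝ) else 0) * v i * v j := by
      simp only [ite_mul, one_mul, zero_mul, Finset.sum_ite_eq, Finset.mem_univ, if_true]
      ring
    rw [this, Finset.mul_sum, ← Finset.sum_add_distrib, Finset.sum_div]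
    refine Finset.sum_congr rfl fun j _ => ?_
    ring
  obtain ⟨β, hβ⟩ := exists_gram
    (fun i j => (((if i = j then (1 : ℝ) else 0) + s * ∑ r, b r i * b r j) / a)) (by
      intro i j
      have h1 : (∑ r, b r i * b r j) = ∑ r, b r j * b r i :=
        Finset.sum_congr rfl fun r _ => mul_comm _ _
      simp only [h1, eq_comm]) (by
      intro v; rw [key]; exact h v)
  exact ⟨β, fun v => by rw [hβ, key]⟩

/-- The even and odd parts of `(1+x)^k` for small `x`. -/
lemma even_part_bound (m : ℕ) (x : ℝ) (hx : 0 ≤ x) (hmx : m * x ≤ 1) (k : ℕ) (hk : k ≤ m) :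
    ((1 + x) ^ k + (1 - x) ^ k) / 2 ≤ 1 + k * (k - 1) * x ^ 2 ∧
      ((1 + x) ^ k - (1 - x) ^ k) / 2 ≤ 2 * k * x := by
  induction k with
  | zero => simp
  | succ k ih =>
    obtain ⟨h1, h2⟩ := ih (by omega)
    have hkm : (k : ℝ) ≤ m := by exact_mod_cast (by omega : k ≤ m)
    have hkx : (k : ℝ) * x ≤ 1 := (mul_le_mul_of_nonneg_right hkm hx).trans hmx
    have hk0 : (0 : ℝ) ≤ k := Nat.cast_nonneg k
    push_cast
    constructor
    · have e : ((1 + x) ^ (k + 1) + (1 - x) ^ (k + 1)) / 2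
          = ((1 + x) ^ k + (1 - x) ^ k) / 2 + x * (((1 + x) ^ k - (1 - x) ^ k) / 2) := by ring
      rw [e]
      have := mul_le_mul_of_nonneg_left h2 hx
      nlinarith
    · have e : ((1 + x) ^ (k + 1) - (1 - x) ^ (k + 1)) / 2
          = ((1 + x) ^ k - (1 - x) ^ k) / 2 + x * (((1 + x) ^ k + (1 - x) ^ k) / 2) := by ring
      rw [e]
      have h3 := mul_le_mul_of_nonneg_left h1 hx
      have h4 : (k : ℝ) * (k - 1) * x ^ 2 ≤ 1 := by
        have : (k : ℝ) * (k - 1) * x ^ 2 ≤ (k * x) ^ 2 := by nlinarith [mul_nonneg hk0 (sq_nonneg x)]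
        have h5 : (k * x) ^ 2 ≤ 1 := by
          have : 0 ≤ k * x := mul_nonneg hk0 hx
          nlinarith
        linarith
      nlinarith

/-- homogeneous version -/
lemma even_part_bound' (m : ℕ) (n y : ℝ) (hn : 0 < n) (hy : 0 ≤ y) (hmy : m * y ≤ n) (k : ℕ)
    (hk : k ≤ m) :
    ((n + y) ^ k + (n - y) ^ k) / 2 ≤ n ^ k * (1 + k * (k - 1) * (y / n) ^ 2) := by
  have h := (even_part_bound m (y / n) (div_nonneg hy hn.le) (by
    rw [← mul_div_assoc, div_le_one hn]; exact hmy) k hk).1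
  have e1 : (n + y) ^ k = n ^ k * (1 + y / n) ^ k := by
    rw [← mul_pow]; congr 1; field_simp
  have e2 : (n - y) ^ k = n ^ k * (1 - y / n) ^ k := by
    rw [← mul_pow]; congr 1; field_simp
  rw [e1, e2]
  have := mul_le_mul_of_nonneg_left h (pow_nonneg hn.le k)
  calc (n ^ k * (1 + y / n) ^ k + n ^ k * (1 - y / n) ^ k) / 2
      = n ^ k * (((1 + y / n) ^ k + (1 - y / n) ^ k) / 2) := by ring
    _ ≤ _ := this

theorem good_slot {ι : Type} [Fintype ι] {R W : ℝ} (m : ℕ) (hm : 1 ≤ m) (hW : 1 ≤ W)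
    (h : Good ι {2} R W) :
    Good ι {k | 1 ≤ k ∧ k ≤ m}
      ((1 + (1 / (m * W)) ^ 2 * R) / (1 + m * (1 / (m * W)) ^ 2) ^ 2) 2 := by
  obtain ⟨K, A, Ω, R', _, _, _, _, c, x, M, p, b, h1, h2, h3, h4, h5, h6, h7⟩ := h
  have hm0 : (0 : ℝ) < m := by exact_mod_cast hm
  have hm1 : (1 : ℝ) ≤ m := by exact_mod_cast hm
  have hW0 : 0 < W := by linarith
  set η : ℝ := 1 / (m * W) with hη
  have hη0 : 0 < η := by positivity
  set a : ℝ := 1 + m * η ^ 2 with ha
  have ha1 : 1 ≤ a := by
    rw [ha]; nlinarith [mul_nonneg hm0.le (sq_nonneg η)]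
  have ha0 : 0 < a := by linarith
  -- basic bound
  have hb : ∀ ω v, m * (η * qf (b ω) v) ≤ nsq v := by
    intro ω v
    have := h5 ω v
    have e : m * (η * qf (b ω) v) = qf (b ω) v / W := by
      rw [hη]; field_simp
    rw [e, div_le_iff₀ hW0, mul_comm]
    exact this
  have hb' : ∀ ω v, η * qf (b ω) v ≤ nsq v := by
    intro ω v
    have h8 := hb ω v
    have h9 : 0 ≤ η * qf (b ω) v := mul_nonneg hη0.le (qf_nonneg _ _)
    nlinarith
  have hpos : ∀ ω v, 0 ≤ η * qf (b ω) v := fun ω v => mul_nonneg hη0.le (qf_nonneg _ _)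
  have hex : ∀ (ω : Ω) (s : Bool), ∃ β : ι → ι → ℝ, ∀ v,
      qf β v = (nsq v + (if s then η else -η) * qf (b ω) v) / a := by
    intro ω s
    refine exists_slot _ _ _ fun v => div_nonneg ?_ ha0.le
    have h8 := hb' ω v
    have h9 := hpos ω v
    have h10 := nsq_nonneg v
    cases s
    · simp only [Bool.false_eq_true, if_false]; linarith
    · simp only [if_true]; linarith
  choose β hβ using hex
  have hβt : ∀ ω v, qf (β ω true) v = (nsq v + η * qf (b ω) v) / a := fun ω v => by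
    rw [hβ]; simp
  have hβf : ∀ ω v, qf (β ω false) v = (nsq v - η * qf (b ω) v) / a := fun ω v => by
    rw [hβ]; simp only [Bool.false_eq_true, if_false]; ring
  refine ⟨K, A, Ω × Bool, ι, inferInstance, inferInstance, inferInstance, inferInstance, c, x, M,
    fun ω => p ω.1 / 2, fun ω => β ω.1 ω.2, h1, h2, fun ω => div_nonneg (h3 _) (by norm_num),
    ?_, ?_, ?_, ?_⟩
  · rw [Fintype.sum_prod_type]
    simp only [Fintype.sum_bool, add_halves, h4]
  · intro ω v
    have h8 := hb' ω.1 v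
    have h9 := hpos ω.1 v
    have h10 := nsq_nonneg v
    obtain ⟨ω, s⟩ := ω
    cases s
    · show qf (β ω false) v ≤ _
      rw [hβf, div_le_iff₀ ha0]
      nlinarith
    · show qf (β ω true) v ≤ _
      rw [hβt, div_le_iff₀ ha0]
      nlinarith
  · rintro k ⟨hk1, hkm⟩ v
    rw [Fintype.sum_prod_type]
    simp only [Fintype.sum_bool, hβt, hβf]
    by_cases hn : nsq v = 0
    · have hv := nsq_eq_zero hn
      subst hv
      have hz : nsq (0 : ι → ℝ) = 0 := by simp [nsq]
      simp only [qf_zero, hz, mul_zero, add_zero, sub_zero, zero_div, zero_pow (by omega : k ≠ 0)]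
      simp
    have hn0 : 0 < nsq v := lt_of_le_of_ne (nsq_nonneg v) (Ne.symm hn)
    set n := nsq v with hndef
    have step : ∀ ω, p ω / 2 * ((n + η * qf (b ω) v) / a) ^ k
        + p ω / 2 * ((n - η * qf (b ω) v) / a) ^ k
        ≤ n ^ k / a ^ k * (p ω + k * (k - 1) * η ^ 2 / n ^ 2 * (p ω * qf (b ω) v ^ 2)) := by
      intro ω
      have h8 := even_part_bound' m n (η * qf (b ω) v) hn0 (hpos ω v) (hb ω v) k hkm
      have h9 := mul_le_mul_of_nonneg_left h8 (div_nonneg (h3 ω) (pow_nonneg ha0.le k))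
      calc p ω / 2 * ((n + η * qf (b ω) v) / a) ^ k + p ω / 2 * ((n - η * qf (b ω) v) / a) ^ k
          = p ω / a ^ k * (((n + η * qf (b ω) v) ^ k + (n - η * qf (b ω) v) ^ k) / 2) := by
            rw [div_pow, div_pow]; ring
        _ ≤ p ω / a ^ k * (n ^ k * (1 + k * (k - 1) * (η * qf (b ω) v / n) ^ 2)) := h9
        _ = _ := by rw [div_pow, mul_pow]; ring
    have hk1' : (1 : ℝ) ≤ k := by exact_mod_cast hk1
    have hkm' : (k : ℝ) ≤ m := by exact_mod_cast hkm
    have hak : 1 + k * (k - 1) * η ^ 2 ≤ a ^ k := by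
      have h8 := one_add_mul_le_pow (by nlinarith [mul_nonneg hm0.le (sq_nonneg η)] :
        (-2 : ℝ) ≤ m * η ^ 2) k
      have h9 : (k : ℝ) * (k - 1) * η ^ 2 ≤ k * (m * η ^ 2) := by
        have : (k : ℝ) - 1 ≤ m := by linarith
        have h10 : 0 ≤ (k : ℝ) * η ^ 2 := mul_nonneg (by linarith) (sq_nonneg η)
        nlinarith
      linarith
    calc ∑ ω, (p ω / 2 * ((n + η * qf (b ω) v) / a) ^ k
          + p ω / 2 * ((n - η * qf (b ω) v) / a) ^ k)
        ≤ ∑ ω, n ^ k / a ^ k * (p ω + k * (k - 1) * η ^ 2 / n ^ 2 * (p ω * qf (b ω) v ^ 2)) :=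
          Finset.sum_le_sum fun ω _ => step ω
      _ = n ^ k / a ^ k * (1 + k * (k - 1) * η ^ 2 / n ^ 2 * ∑ ω, p ω * qf (b ω) v ^ 2) := by
          rw [← Finset.mul_sum, Finset.sum_add_distrib, h4, ← Finset.mul_sum]
      _ ≤ n ^ k / a ^ k * (1 + k * (k - 1) * η ^ 2 / n ^ 2 * n ^ 2) := by
          have h8 := h6 2 rfl v
          have h9 : 0 ≤ (k : ℝ) * (k - 1) * η ^ 2 / n ^ 2 := by
            have : 0 ≤ (k : ℝ) - 1 := by linarith
            positivity
          have h10 := mul_le_mul_of_nonneg_left h8 h9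
          refine mul_le_mul_of_nonneg_left ?_ (by positivity)
          linarith
      _ = n ^ k / a ^ k * (1 + k * (k - 1) * η ^ 2) := by
          congr 2
          field_simp
      _ ≤ n ^ k / a ^ k * a ^ k := mul_le_mul_of_nonneg_left hak (by positivity)
      _ = n ^ k := by
          have : a ^ k ≠ 0 := (pow_pos ha0 k).ne'
          field_simp
  · rw [Fintype.sum_prod_type]
    simp only [Fintype.sum_bool, hβt, hβf]
    have step : ∀ ω, p ω / 2 * ∑ k, c k * ((nsq (x k) + η * qf (b ω) (x k)) / a) ^ 2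
        + p ω / 2 * ∑ k, c k * ((nsq (x k) - η * qf (b ω) (x k)) / a) ^ 2
        = (p ω + η ^ 2 * (p ω * ∑ k, c k * qf (b ω) (x k) ^ 2)) / a ^ 2 := by
      intro ω
      have e : ∑ k, c k * ((nsq (x k) + η * qf (b ω) (x k)) / a) ^ 2
          + ∑ k, c k * ((nsq (x k) - η * qf (b ω) (x k)) / a) ^ 2
          = 2 * (∑ k, c k * nsq (x k) ^ 2 + η ^ 2 * ∑ k, c k * qf (b ω) (x k) ^ 2) / a ^ 2 := by
        rw [← Finset.sum_add_distrib, Finset.mul_sum, ← Finset.sum_add_distrib, Finset.mul_sum,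
          Finset.sum_div]
        refine Finset.sum_congr rfl fun k _ => ?_
        field_simp
        ring
      rw [h2] at e
      calc _ = p ω / 2 * (∑ k, c k * ((nsq (x k) + η * qf (b ω) (x k)) / a) ^ 2
          + ∑ k, c k * ((nsq (x k) - η * qf (b ω) (x k)) / a) ^ 2) := by ring
        _ = _ := by rw [e]; ring
    simp only [step]
    rw [← Finset.sum_div, Finset.sum_add_distrib, h4, ← Finset.mul_sum, h7]

end Pool.Agent.Lib.MP_06963d_lc
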