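import Mathlib
import Pool.Agent.Lib.MP_06963d_lc.Slot

/-!
# Signed quadratures for the functional attached to a symmetric matrix

For a symmetric matrix `W` the functional
`Q ↦ ⟨W, Q⟩^2 + 2 tr (W Qs W Qs)` (with `Qs` the symmetric part of `Q`) is of the form
`Q ↦ ∑ k, c k * (x k ᵀ Q x k)^2`.
-/

namespace Pool.Agent.Lib.MP_06963d_lc

open Finset

variable {ι : Type} [Fintype ι]

/-- the value of the quadratic form of `Q` at `x` -/
def qv (Q : ι → ι → ℝ) (x : ι → ℝ) : ℝ := ∑ i, ∑ j, Q i j * x i * x j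

/-- the symmetric bilinear form of `Q` -/
noncomputable def bl (Q : ι → ι → ℝ) (x y : ι → ℝ) : ℝ :=
  ∑ i, ∑ j, ((Q i j + Q j i) / 2) * x i * y j

lemma bl_self (Q : ι → ι → ℝ) (x : ι → ℝ) : bl Q x x = qv Q x := by
  have h : ∑ i, ∑ j, Q j i * x i * x j = ∑ i, ∑ j, Q i j * x i * x j := by
    rw [Finset.sum_comm]
    refine Finset.sum_congr rfl fun i _ => Finset.sum_congr rfl fun j _ => ?_
    ring
  calc bl Q x x = (∑ i, ∑ j, Q i j * x i * x j + ∑ i, ∑ j, Q j i * x i * x j) / 2 := by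
        rw [bl, ← Finset.sum_add_distrib, Finset.sum_div]
        refine Finset.sum_congr rfl fun i _ => ?_
        rw [← Finset.sum_add_distrib, Finset.sum_div]
        refine Finset.sum_congr rfl fun j _ => ?_
        ring
    _ = qv Q x := by rw [h]; unfold qv; ring

lemma bl_add_add (Q : ι → ι → ℝ) (x y : ι → ℝ) :
    qv Q (fun i => x i + y i) = qv Q x + qv Q y + 2 * bl Q x y := by
  have h : ∑ i, ∑ j, Q j i * x i * y j = ∑ i, ∑ j, Q i j * y i * x j := by
    rw [Finset.sum_comm]
    refine Finset.sum_congr rfl fun i _ => Finset.sum_congr rfl fun j _ => ?_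
    ring
  have h2 : 2 * bl Q x y = ∑ i, ∑ j, Q i j * x i * y j + ∑ i, ∑ j, Q j i * x i * y j := by
    rw [bl, Finset.mul_sum, ← Finset.sum_add_distrib]
    refine Finset.sum_congr rfl fun i _ => ?_
    rw [Finset.mul_sum, ← Finset.sum_add_distrib]
    refine Finset.sum_congr rfl fun j _ => ?_
    ring
  rw [h2, h]
  unfold qv
  rw [← Finset.sum_add_distrib, ← Finset.sum_add_distrib, ← Finset.sum_add_distrib]
  refine Finset.sum_congr rfl fun i _ => ?_
  rw [← Finset.sum_add_distrib, ← Finset.sum_add_distrib, ← Finset.sum_add_distrib]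
  refine Finset.sum_congr rfl fun j _ => ?_
  ring

lemma bl_sub_sub (Q : ι → ι → ℝ) (x y : ι → ℝ) :
    qv Q (fun i => x i - y i) = qv Q x + qv Q y - 2 * bl Q x y := by
  have h := bl_add_add Q x (fun i => - y i)
  have h1 : qv Q (fun i => - y i) = qv Q y := by
    unfold qv
    refine Finset.sum_congr rfl fun i _ => Finset.sum_congr rfl fun j _ => ?_
    ring
  have h2 : bl Q x (fun i => - y i) = - bl Q x y := by
    unfold bl
    rw [← Finset.sum_neg_distrib]
    refine Finset.sum_congr rfl fun i _ => ?_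
    rw [← Finset.sum_neg_distrib]
    refine Finset.sum_congr rfl fun j _ => ?_
    ring
  rw [h1, h2] at h
  have e : (fun i => x i - y i) = fun i => x i + - y i := by funext i; ring
  rw [e, h]; ring

/-- A functional on matrices is a signed quadrature. -/
def IsQuad (F : (ι → ι → ℝ) → ℝ) : Prop :=
  ∃ (K : Type) (_ : Fintype K) (c : K → ℝ) (x : K → ι → ℝ),
    ∀ Q, F Q = ∑ k, c k * (qv Q (x k)) ^ 2

lemma IsQuad.zero : IsQuad (fun _ : ι → ι → ℝ => (0 : ℝ)) :=
  ⟨Empty, inferInstance, fun _ => 0, fun _ _ => 0, fun Q => by simp⟩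

lemma IsQuad.add {F G : (ι → ι → ℝ) → ℝ} (hF : IsQuad F) (hG : IsQuad G) :
    IsQuad (fun Q => F Q + G Q) := by
  obtain ⟨K, _, c, x, h⟩ := hF
  obtain ⟨K', _, c', x', h'⟩ := hG
  refine ⟨K ⊕ K', inferInstance, Sum.elim c c', Sum.elim x x', fun Q => ?_⟩
  show F Q + G Q = _
  rw [h, h', Fintype.sum_sum_type]
  simp

lemma IsQuad.smul {F : (ι → ι → ℝ) → ℝ} (a : ℝ) (hF : IsQuad F) :
    IsQuad (fun Q => a * F Q) := by
  obtain ⟨K, _, c, x, h⟩ := hF
  refine ⟨K, inferInstance, fun k => a * c k, x, fun Q => ?_⟩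
  show a * F Q = _
  rw [h, Finset.mul_sum]
  exact Finset.sum_congr rfl fun k _ => by ring

lemma IsQuad.sum {A : Type} (s : Finset A) {F : A → (ι → ι → ℝ) → ℝ}
    (h : ∀ a ∈ s, IsQuad (F a)) : IsQuad (fun Q => ∑ a ∈ s, F a Q) := by
  classical
  induction s using Finset.induction_on with
  | empty => simpa using IsQuad.zero
  | insert a s ha ih =>
    have h1 := h a (Finset.mem_insert_self a s)
    have h2 := ih fun b hb => h b (Finset.mem_insert_of_mem hb)
    have := h1.add h2
    simpa [Finset.sum_insert ha] using this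

lemma isQuad_pair (u w : ι → ℝ) : IsQuad (fun Q => qv Q u * qv Q w + 2 * (bl Q u w) ^ 2) := by
  refine ⟨Fin 4, inferInstance, ![1/4, 1/4, -1/2, -1/2],
    ![fun i => u i + w i, fun i => u i - w i, u, w], fun Q => ?_⟩
  simp only [Fin.sum_univ_succ, Fin.sum_univ_zero, Matrix.cons_val_zero, Matrix.cons_val_succ]
  rw [bl_add_add, bl_sub_sub]
  ring

/-- the functional attached to a matrix `W` -/
noncomputable def GW (W Q : ι → ι → ℝ) : ℝ :=
  (∑ i, ∑ j, W i j * Q i j) ^ 2
    + 2 * ∑ i, ∑ j, ∑ k, ∑ l, W i k * W j l * ((Q i j + Q j i) / 2) * ((Q k l + Q l k) / 2)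

lemma GW_of_decomp {T : Type} [Fintype T] (g : T → ℝ) (u : T → ι → ℝ) (W : ι → ι → ℝ)
    (hW : ∀ i j, W i j = ∑ t, g t * u t i * u t j) (Q : ι → ι → ℝ) :
    GW W Q = ∑ t, ∑ s, g t * g s * (qv Q (u t) * qv Q (u s) + 2 * (bl Q (u t) (u s)) ^ 2) := by
  have h1 : ∑ i, ∑ j, W i j * Q i j = ∑ t, g t * qv Q (u t) := by
    calc ∑ i, ∑ j, W i j * Q i j = ∑ i, ∑ j, ∑ t, g t * (Q i j * u t i * u t j) := by
          refine Finset.sum_congr rfl fun i _ => Finset.sum_congr rfl fun j _ => ?_
          rw [hW, Finset.sum_mul]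
          exact Finset.sum_congr rfl fun t _ => by ring
      _ = ∑ i, ∑ t, ∑ j, g t * (Q i j * u t i * u t j) :=
          Finset.sum_congr rfl fun i _ => Finset.sum_comm
      _ = ∑ t, ∑ i, ∑ j, g t * (Q i j * u t i * u t j) := Finset.sum_comm
      _ = _ := by
          refine Finset.sum_congr rfl fun t _ => ?_
          simp only [qv, Finset.mul_sum]
  have h2 : ∑ i, ∑ j, ∑ k, ∑ l, W i k * W j l * ((Q i j + Q j i) / 2) * ((Q k l + Q l k) / 2)
      = ∑ t, ∑ s, g t * g s * (bl Q (u t) (u s)) ^ 2 := by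
    have e1 : ∀ t s, g t * g s * (bl Q (u t) (u s)) ^ 2
        = ∑ i, ∑ j, ∑ k, ∑ l, (g t * u t i * u t k) * (g s * u s j * u s l)
          * ((Q i j + Q j i) / 2) * ((Q k l + Q l k) / 2) := by
      intro t s
      rw [sq, bl, Finset.sum_mul_sum, Finset.mul_sum]
      refine Finset.sum_congr rfl fun i _ => ?_
      calc g t * g s * ∑ k, (∑ j, (Q i j + Q j i) / 2 * u t i * u s j)
            * (∑ l, (Q k l + Q l k) / 2 * u t k * u s l)
          = ∑ k, ∑ j, ∑ l, (g t * u t i * u t k) * (g s * u s j * u s l)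
            * ((Q i j + Q j i) / 2) * ((Q k l + Q l k) / 2) := by
            rw [Finset.mul_sum]
            refine Finset.sum_congr rfl fun k _ => ?_
            rw [Finset.sum_mul_sum, Finset.mul_sum]
            refine Finset.sum_congr rfl fun j _ => ?_
            rw [Finset.mul_sum]
            exact Finset.sum_congr rfl fun l _ => by ring
        _ = _ := Finset.sum_comm
    have e2 : ∀ i j k l, W i k * W j l * ((Q i j + Q j i) / 2) * ((Q k l + Q l k) / 2)
        = ∑ t, ∑ s, (g t * u t i * u t k) * (g s * u s j * u s l)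
          * ((Q i j + Q j i) / 2) * ((Q k l + Q l k) / 2) := by
      intro i j k l
      rw [hW i k, hW j l, Finset.sum_mul_sum, Finset.sum_mul, Finset.sum_mul]
      refine Finset.sum_congr rfl fun t _ => ?_
      rw [Finset.sum_mul, Finset.sum_mul]
    simp only [e1, e2]
    -- move the sums over `t, s` outside
    calc ∑ i, ∑ j, ∑ k, ∑ l, ∑ t, ∑ s, (g t * u t i * u t k) * (g s * u s j * u s l)
          * ((Q i j + Q j i) / 2) * ((Q k l + Q l k) / 2)
        = ∑ i, ∑ j, ∑ k, ∑ t, ∑ l, ∑ s, (g t * u t i * u t k) * (g s * u s j * u s l)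
          * ((Q i j + Q j i) / 2) * ((Q k l + Q l k) / 2) :=
          Finset.sum_congr rfl fun i _ => Finset.sum_congr rfl fun j _ =>
            Finset.sum_congr rfl fun k _ => Finset.sum_comm
      _ = ∑ i, ∑ j, ∑ t, ∑ k, ∑ l, ∑ s, (g t * u t i * u t k) * (g s * u s j * u s l)
          * ((Q i j + Q j i) / 2) * ((Q k l + Q l k) / 2) :=
          Finset.sum_congr rfl fun i _ => Finset.sum_congr rfl fun j _ => Finset.sum_comm
      _ = ∑ i, ∑ t, ∑ j, ∑ k, ∑ l, ∑ s, (g t * u t i * u t k) * (g s * u s j * u s l)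
          * ((Q i j + Q j i) / 2) * ((Q k l + Q l k) / 2) :=
          Finset.sum_congr rfl fun i _ => Finset.sum_comm
      _ = ∑ t, ∑ i, ∑ j, ∑ k, ∑ l, ∑ s, (g t * u t i * u t k) * (g s * u s j * u s l)
          * ((Q i j + Q j i) / 2) * ((Q k l + Q l k) / 2) := Finset.sum_comm
      _ = ∑ t, ∑ s, ∑ i, ∑ j, ∑ k, ∑ l, (g t * u t i * u t k) * (g s * u s j * u s l)
          * ((Q i j + Q j i) / 2) * ((Q k l + Q l k) / 2) := by
          refine Finset.sum_congr rfl fun t _ => ?_
          calc ∑ i, ∑ j, ∑ k, ∑ l, ∑ s, (g t * u t i * u t k) * (g s * u s j * u s l)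
                * ((Q i j + Q j i) / 2) * ((Q k l + Q l k) / 2)
              = ∑ i, ∑ j, ∑ k, ∑ s, ∑ l, (g t * u t i * u t k) * (g s * u s j * u s l)
                * ((Q i j + Q j i) / 2) * ((Q k l + Q l k) / 2) :=
                Finset.sum_congr rfl fun i _ => Finset.sum_congr rfl fun j _ =>
                  Finset.sum_congr rfl fun k _ => Finset.sum_comm
            _ = ∑ i, ∑ j, ∑ s, ∑ k, ∑ l, (g t * u t i * u t k) * (g s * u s j * u s l)
                * ((Q i j + Q j i) / 2) * ((Q k l + Q l k) / 2) :=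
                Finset.sum_congr rfl fun i _ => Finset.sum_congr rfl fun j _ => Finset.sum_comm
            _ = ∑ i, ∑ s, ∑ j, ∑ k, ∑ l, (g t * u t i * u t k) * (g s * u s j * u s l)
                * ((Q i j + Q j i) / 2) * ((Q k l + Q l k) / 2) :=
                Finset.sum_congr rfl fun i _ => Finset.sum_comm
            _ = _ := Finset.sum_comm
  rw [GW, h1, h2, sq, Finset.sum_mul_sum, Finset.mul_sum, ← Finset.sum_add_distrib]
  refine Finset.sum_congr rfl fun t _ => ?_
  rw [Finset.mul_sum, ← Finset.sum_add_distrib]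
  refine Finset.sum_congr rfl fun s _ => ?_
  ring

/-- For symmetric `W` the functional `GW W` is a signed quadrature. -/
lemma isQuad_GW (W : ι → ι → ℝ) (hW : ∀ i j, W i j = W j i) : IsQuad (GW W) := by
  classical
  -- decomposition of `W` into rank one pieces
  let g : (ι × ι) × Fin 3 → ℝ := fun t => W t.1.1 t.1.2 * ![1/2, -1/2, -1/2] t.2
  let e : ι → ι → ℝ := fun p i => if i = p then 1 else 0
  let u : (ι × ι) × Fin 3 → ι → ℝ := fun t =>
    ![fun i => e t.1.1 i + e t.1.2 i, e t.1.1, e t.1.2] t.2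
  have hdec : ∀ i j, W i j = ∑ t, g t * u t i * u t j := by
    intro i j
    rw [Fintype.sum_prod_type]
    have s1 : ∀ p : ι × ι, ∑ s : Fin 3, g (p, s) * u (p, s) i * u (p, s) j
        = W p.1 p.2 * (e p.1 i * e p.2 j + e p.2 i * e p.1 j) / 2 := by
      intro p
      simp only [g, u, Fin.sum_univ_succ, Fin.sum_univ_zero, Matrix.cons_val_zero,
        Matrix.cons_val_succ]
      ring
    simp only [s1]
    rw [Fintype.sum_prod_type]
    have s2 : ∑ p, ∑ q, W p q * (e p i * e q j + e q i * e p j) / 2 = (W i j + W j i) / 2 := by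
      have s3 : ∀ p, ∑ q, W p q * (e p i * e q j + e q i * e p j) / 2
          = (W p j * e p i + W p i * e p j) / 2 := by
        intro p
        have s4 : ∑ q, W p q * (e p i * e q j + e q i * e p j) / 2
            = (∑ q, W p q * e p i * e q j + ∑ q, W p q * e p j * e q i) / 2 := by
          rw [← Finset.sum_add_distrib, Finset.sum_div]
          exact Finset.sum_congr rfl fun q _ => by ring
        rw [s4]
        simp [e]
      simp only [s3]
      rw [← Finset.sum_div, Finset.sum_add_distrib]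
      simp [e]
    rw [s2, hW j i]; ring
  have h : (GW W) = fun Q => ∑ t, ∑ s, g t * g s *
      (qv Q (u t) * qv Q (u s) + 2 * (bl Q (u t) (u s)) ^ 2) := by
    funext Q
    exact GW_of_decomp g u W hdec Q
  rw [h]
  exact IsQuad.sum _ fun t _ => IsQuad.sum _ fun s _ => (isQuad_pair (u t) (u s)).smul _

/-- A nonnegative signed quadrature has Gram data. -/
lemma exists_gram_of_quad {K : Type} [Fintype K] (c : K → ℝ) (x : K → ι → ℝ)
    (h : ∀ Q : ι → ι → ℝ, 0 ≤ ∑ k, c k * (∑ i, ∑ j, Q i j * x k i * x k j) ^ 2) :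
    ∃ M : (ι × ι) → ι → ι → ℝ, ∀ Q : ι → ι → ℝ,
      ∑ k, c k * (∑ i, ∑ j, Q i j * x k i * x k j) ^ 2
        = ∑ a, (∑ i, ∑ j, M a i j * Q i j) ^ 2 := by
  classical
  let S : ι × ι → ι × ι → ℝ := fun a b => ∑ k, c k * (x k a.1 * x k a.2) * (x k b.1 * x k b.2)
  have hS : ∀ v : ι × ι → ℝ, ∑ a, ∑ b, S a b * v a * v b
      = ∑ k, c k * (∑ i, ∑ j, v (i, j) * x k i * x k j) ^ 2 := by
    intro v
    have e1 : ∀ k, (∑ i, ∑ j, v (i, j) * x k i * x k j) = ∑ a : ι × ι, v a * (x k a.1 * x k a.2) := by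
      intro k
      rw [Fintype.sum_prod_type]
      exact Finset.sum_congr rfl fun i _ => Finset.sum_congr rfl fun j _ => by ring
    simp only [e1]
    have e2 : ∀ k, c k * (∑ a : ι × ι, v a * (x k a.1 * x k a.2)) ^ 2
        = ∑ a, ∑ b, c k * (x k a.1 * x k a.2) * (x k b.1 * x k b.2) * v a * v b := by
      intro k
      rw [sq, Finset.sum_mul_sum, Finset.mul_sum]
      refine Finset.sum_congr rfl fun a _ => ?_
      rw [Finset.mul_sum]
      exact Finset.sum_congr rfl fun b _ => by ring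
    simp only [e2, S, Finset.sum_mul]
    rw [Finset.sum_comm]
    conv_rhs => rw [Finset.sum_comm]
    rw [Finset.sum_comm]
    refine Finset.sum_congr rfl fun a _ => ?_
    rw [Finset.sum_comm]
  obtain ⟨β, hβ⟩ := exists_gram S (fun a b => by
    simp only [S]
    exact Finset.sum_congr rfl fun k _ => by ring) (fun v => by
      rw [hS]; exact h fun i j => v (i, j))
  refine ⟨fun a i j => β a (i, j), fun Q => ?_⟩
  have := hβ fun a => Q a.1 a.2
  rw [hS] at this
  rw [← this]
  simp only [qf]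
  refine Finset.sum_congr rfl fun a _ => ?_
  rw [Fintype.sum_prod_type]

end Pool.Agent.Lib.MP_06963d_lc
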