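import Mathlib
import Pool.Agent.Lib.MP_06963d_lc.Quad

/-!
# Clifford systems and commuting involutions
-/

namespace Pool.Agent.Lib.MP_06963d_lc

open Finset Matrix
open scoped Kronecker

/-- A Clifford system: pairwise anticommuting symmetric involutions. -/
structure Clif (ι : Type) [Fintype ι] [DecidableEq ι] (n : ℕ) where
  /-- the matrices -/
  P : Fin n → Matrix ι ι ℝ
  symm : ∀ a, (P a)ᵀ = P a
  sq : ∀ a, P a * P a = 1
  anti : ∀ a b, a ≠ b → P a * P b = - (P b * P a)

/-- the matrix `diag (1, -1)` -/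
def sz : Matrix (Fin 2) (Fin 2) ℝ := !![1, 0; 0, -1]

/-- the swap matrix -/
def sx : Matrix (Fin 2) (Fin 2) ℝ := !![0, 1; 1, 0]

lemma sz_sq : sz * sz = 1 := by
  ext i j; fin_cases i <;> fin_cases j <;> simp [sz, Matrix.mul_apply, Fin.sum_univ_succ]

lemma sx_sq : sx * sx = 1 := by
  ext i j; fin_cases i <;> fin_cases j <;> simp [sx, Matrix.mul_apply, Fin.sum_univ_succ]

lemma sx_sz : sx * sz = - (sz * sx) := by
  ext i j; fin_cases i <;> fin_cases j <;> simp [sx, sz, Matrix.mul_apply, Fin.sum_univ_succ]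

lemma sz_t : szᵀ = sz := by
  ext i j; fin_cases i <;> fin_cases j <;> simp [sz]

lemma sx_t : sxᵀ = sx := by
  ext i j; fin_cases i <;> fin_cases j <;> simp [sx]

/-- Clifford systems of every length exist. -/
theorem exists_clif (n : ℕ) : ∃ (ι : Type) (_ : Fintype ι) (_ : DecidableEq ι),
    Fintype.card ι = 2 ^ n ∧ Nonempty (Clif ι n) := by
  induction n with
  | zero =>
    exact ⟨Unit, inferInstance, inferInstance, by simp,
      ⟨{ P := fun a => a.elim0, symm := fun a => a.elim0, sq := fun a => a.elim0,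
         anti := fun a => a.elim0 }⟩⟩
  | succ n ih =>
    obtain ⟨ι, _, _, hcard, ⟨c⟩⟩ := ih
    refine ⟨ι × Fin 2, inferInstance, inferInstance, by
      rw [Fintype.card_prod, hcard, Fintype.card_fin, pow_succ], ⟨?_⟩⟩
    let P' : Fin (n + 1) → Matrix (ι × Fin 2) (ι × Fin 2) ℝ :=
      Fin.lastCases ((1 : Matrix ι ι ℝ) ⊗ₖ sz) (fun a => c.P a ⊗ₖ sx)
    have hl : P' (Fin.last n) = (1 : Matrix ι ι ℝ) ⊗ₖ sz := by simp [P']
    have hc : ∀ a : Fin n, P' a.castSucc = c.P a ⊗ₖ sx := by intro a; simp [P']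
    refine { P := P', symm := ?_, sq := ?_, anti := ?_ }
    · intro a
      refine Fin.lastCases ?_ (fun a => ?_) a
      · rw [hl, ← Matrix.kroneckerMap_transpose, Matrix.transpose_one, sz_t]
      · rw [hc, ← Matrix.kroneckerMap_transpose, c.symm, sx_t]
    · intro a
      refine Fin.lastCases ?_ (fun a => ?_) a
      · rw [hl, ← Matrix.mul_kronecker_mul, sz_sq, Matrix.one_mul, Matrix.one_kronecker_one]
      · rw [hc, ← Matrix.mul_kronecker_mul, sx_sq, c.sq, Matrix.one_kronecker_one]
    · intro a b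
      refine Fin.lastCases ?_ (fun a => ?_) a
      · refine Fin.lastCases ?_ (fun b => ?_) b
        · intro h; exact absurd rfl h
        · intro _
          rw [hl, hc, ← Matrix.mul_kronecker_mul, ← Matrix.mul_kronecker_mul, Matrix.one_mul,
            Matrix.mul_one, sx_sz]
          ext i j
          simp [Matrix.kroneckerMap_apply]
      · refine Fin.lastCases ?_ (fun b => ?_) b
        · intro _
          rw [hl, hc, ← Matrix.mul_kronecker_mul, ← Matrix.mul_kronecker_mul, Matrix.one_mul,
            Matrix.mul_one, sx_sz]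
          ext i j
          simp [Matrix.kroneckerMap_apply]
        · intro h
          have h' : a ≠ b := fun e => h (by rw [e])
          rw [hc, hc, ← Matrix.mul_kronecker_mul, ← Matrix.mul_kronecker_mul, c.anti a b h']
          ext i j
          simp [Matrix.kroneckerMap_apply]

section Involutions

variable {V : Type} [AddCommGroup V] [Module ℝ V] {n : ℕ}

lemma split1 (g : Fin n → V) (a : Fin n) :
    ∑ b, g b = g a + ∑ b, (if a = b then 0 else g b) := by
  rw [← Finset.add_sum_erase _ _ (mem_univ a),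
    ← Finset.add_sum_erase univ (fun b => if a = b then 0 else g b) (mem_univ a)]
  simp only [if_true, zero_add]
  congr 1
  refine Finset.sum_congr rfl fun b hb => ?_
  rw [if_neg (Finset.ne_of_mem_erase hb).symm]

lemma split2 (g : Fin n → V) {a b : Fin n} (h : a ≠ b) :
    ∑ c, g c = g a + g b + ∑ c, (if a = c ∨ b = c then 0 else g c) := by
  rw [split1 g a, split1 (fun c => if a = c then 0 else g c) b, if_neg h, add_assoc]
  congr 2
  refine Finset.sum_congr rfl fun c _ => ?_
  by_cases h1 : a = c <;> by_cases h2 : b = c <;> simp [h1, h2]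

lemma split3 (g : Fin n → V) {a b c : Fin n} (h : a ≠ b) (h' : a ≠ c) (h'' : b ≠ c) :
    ∑ d, g d = g a + g b + g c + ∑ d, (if a = d ∨ b = d ∨ c = d then 0 else g d) := by
  rw [split2 g h, split1 (fun d => if a = d ∨ b = d then 0 else g d) c]
  rw [if_neg (by rintro (h1 | h1) <;> [exact h' h1; exact h'' h1]), ← add_assoc]
  congr 1
  refine Finset.sum_congr rfl fun d _ => ?_
  by_cases h1 : a = d <;> by_cases h2 : b = d <;> by_cases h3 : c = d <;> simp [h1, h2, h3]

variable (C : Fin n → V →ₗ[ℝ] V)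

/-- the sum of the involutions -/
def SS (v : V) : V := ∑ a, C a v

/-- ordered pairs of distinct indices -/
def E2 (v : V) : V := ∑ a, ∑ b, (if a = b then 0 else C a (C b v))

/-- ordered triples of distinct indices -/
def E3 (v : V) : V :=
  ∑ a, ∑ b, ∑ c, (if a = b ∨ a = c ∨ b = c then 0 else C a (C b (C c v)))

/-- ordered quadruples of distinct indices -/
def E4 (v : V) : V :=
  ∑ a, ∑ b, ∑ c, ∑ d, (if a = b ∨ a = c ∨ b = c ∨ a = d ∨ b = d ∨ c = d then 0
    else C d (C a (C b (C c v))))

lemma SS_add (v w : V) : SS C (v + w) = SS C v + SS C w := by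
  simp [SS, Finset.sum_add_distrib]

lemma SS_smul (r : ℝ) (v : V) : SS C (r • v) = r • SS C v := by
  simp [SS, Finset.smul_sum]

variable {C} (hc : ∀ a b v, C a (C b v) = C b (C a v)) (hs : ∀ a v, C a (C a v) = v)

include hs in
lemma SS_SS (v : V) : SS C (SS C v) = (n : ℝ) • v + E2 C v := by
  unfold SS E2
  have : ∀ a, C a (∑ b, C b v) = v + ∑ b, (if a = b then 0 else C a (C b v)) := by
    intro a
    rw [map_sum, split1 (fun b => C a (C b v)) a, hs]
  simp only [this, Finset.sum_add_distrib, Finset.sum_const, Finset.card_univ, Fintype.card_fin]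
  congr 1
  rw [Nat.cast_smul_eq_nsmul]

include hc hs in
lemma SS_E2 (v : V) : SS C (E2 C v) = (2 * (n : ℝ) - 2) • SS C v + E3 C v := by
  have e1 : ∀ a b : Fin n, a ≠ b → ∑ c, C c (C a (C b v))
      = C b v + C a v + ∑ c, (if a = c ∨ b = c then 0 else C c (C a (C b v))) := by
    intro a b hab
    rw [split2 (fun c => C c (C a (C b v))) hab, hs, hc b a, hs]
  have e2 : SS C (E2 C v) = ∑ a, ∑ b, (if a = b then 0 else ∑ c, C c (C a (C b v))) := by
    unfold SS E2
    simp only [map_sum]
    rw [Finset.sum_comm]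
    refine Finset.sum_congr rfl fun a _ => ?_
    rw [Finset.sum_comm]
    refine Finset.sum_congr rfl fun b _ => ?_
    by_cases hab : a = b
    · simp [hab]
    · simp [hab]
  have e3 : ∀ a b : Fin n, (if a = b then 0 else ∑ c, C c (C a (C b v)))
      = (if a = b then 0 else C b v) + (if a = b then 0 else C a v)
        + ∑ c, (if a = b ∨ a = c ∨ b = c then 0 else C a (C b (C c v))) := by
    intro a b
    by_cases hab : a = b
    · simp [hab]
    · rw [if_neg hab, if_neg hab, if_neg hab, e1 a b hab]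
      congr 1
      refine Finset.sum_congr rfl fun c _ => ?_
      by_cases h1 : a = c ∨ b = c
      · rw [if_pos h1, if_pos (Or.inr h1)]
      · rw [if_neg h1, if_neg (by rintro (h | h); exacts [hab h, h1 h]), hc c a, hc c b]
  have e4 : ∀ b : Fin n, ∑ a, (if a = b then (0 : V) else C b v) + C b v = (n : ℝ) • C b v := by
    intro b
    have := split1 (fun _ : Fin n => C b v) b
    rw [Finset.sum_const, Finset.card_univ, Fintype.card_fin, ← Nat.cast_smul_eq_nsmul ℝ] at this
    rw [this, add_comm]
    congr 1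
    exact Finset.sum_congr rfl fun a _ => by simp only [eq_comm]
  have e5 : ∀ a : Fin n, ∑ b, (if a = b then (0 : V) else C a v) + C a v = (n : ℝ) • C a v := by
    intro b
    have := split1 (fun _ : Fin n => C b v) b
    rw [Finset.sum_const, Finset.card_univ, Fintype.card_fin, ← Nat.cast_smul_eq_nsmul ℝ] at this
    rw [this, add_comm]
  have e6 : ∑ a, ∑ b, (if a = b then (0 : V) else C b v) + SS C v = (n : ℝ) • SS C v := by
    rw [Finset.sum_comm, SS, ← Finset.sum_add_distrib, Finset.smul_sum]
    exact Finset.sum_congr rfl fun b _ => e4 b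
  have e7 : ∑ a, ∑ b, (if a = b then (0 : V) else C a v) + SS C v = (n : ℝ) • SS C v := by
    rw [SS, ← Finset.sum_add_distrib, Finset.smul_sum]
    exact Finset.sum_congr rfl fun b _ => e5 b
  rw [e2]
  simp only [e3, Finset.sum_add_distrib]
  have e8 : ∑ a, ∑ b, (if a = b then (0 : V) else C b v) = (n : ℝ) • SS C v - SS C v :=
    eq_sub_of_add_eq e6
  have e9 : ∑ a, ∑ b, (if a = b then (0 : V) else C a v) = (n : ℝ) • SS C v - SS C v :=
    eq_sub_of_add_eq e7
  rw [e8, e9]
  unfold E3
  module

include hc hs in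
lemma SS_E3 (v : V) : SS C (E3 C v) = (3 * (n : ℝ) - 6) • E2 C v + E4 C v := by
  have e1 : ∀ a b c : Fin n, a ≠ b → a ≠ c → b ≠ c → ∑ d, C d (C a (C b (C c v)))
      = C b (C c v) + C a (C c v) + C a (C b v)
        + ∑ d, (if a = d ∨ b = d ∨ c = d then 0 else C d (C a (C b (C c v)))) := by
    intro a b c hab hac hbc
    rw [split3 (fun d => C d (C a (C b (C c v)))) hab hac hbc, hs, hc b a, hs b, hc c a, hc c b,
      hs c]
  have e2 : SS C (E3 C v) = ∑ a, ∑ b, ∑ c, (if a = b ∨ a = c ∨ b = c then 0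
      else ∑ d, C d (C a (C b (C c v)))) := by
    unfold SS E3
    simp only [map_sum]
    rw [Finset.sum_comm]
    refine Finset.sum_congr rfl fun a _ => ?_
    rw [Finset.sum_comm]
    refine Finset.sum_congr rfl fun b _ => ?_
    rw [Finset.sum_comm]
    refine Finset.sum_congr rfl fun c _ => ?_
    by_cases h : a = b ∨ a = c ∨ b = c
    · simp [h]
    · simp [h]
  have e3 : ∀ a b c : Fin n, (if a = b ∨ a = c ∨ b = c then 0
        else ∑ d, C d (C a (C b (C c v))))
      = (if a = b ∨ a = c ∨ b = c then 0 else C b (C c v))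
        + (if a = b ∨ a = c ∨ b = c then 0 else C a (C c v))
        + (if a = b ∨ a = c ∨ b = c then 0 else C a (C b v))
        + ∑ d, (if a = b ∨ a = c ∨ b = c ∨ a = d ∨ b = d ∨ c = d then 0
            else C d (C a (C b (C c v)))) := by
    intro a b c
    by_cases h : a = b ∨ a = c ∨ b = c
    · have h' : ∀ d, (a = b ∨ a = c ∨ b = c ∨ a = d ∨ b = d ∨ c = d) := by
        intro d; tauto
      simp [h, h']
    · have h1 : a ≠ b := fun e => h (Or.inl e)
      have h2 : a ≠ c := fun e => h (Or.inr (Or.inl e))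
      have h3 : b ≠ c := fun e => h (Or.inr (Or.inr e))
      rw [if_neg h, if_neg h, if_neg h, if_neg h, e1 a b c h1 h2 h3]
      congr 1
      refine Finset.sum_congr rfl fun d _ => ?_
      by_cases h4 : a = d ∨ b = d ∨ c = d
      · rw [if_pos h4, if_pos (by tauto)]
      · rw [if_neg h4, if_neg (by tauto)]
  -- counting lemma
  have cnt : ∀ (a b : Fin n) (w : V), a ≠ b →
      ∑ c, (if a = b ∨ a = c ∨ b = c then (0 : V) else w) = ((n : ℝ) - 2) • w := by
    intro a b w hab
    have h1 := split2 (fun _ : Fin n => w) hab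
    rw [Finset.sum_const, Finset.card_univ, Fintype.card_fin, ← Nat.cast_smul_eq_nsmul ℝ] at h1
    have h2 : ∑ c, (if a = b ∨ a = c ∨ b = c then (0 : V) else w)
        = ∑ c, (if a = c ∨ b = c then (0 : V) else w) := by
      refine Finset.sum_congr rfl fun c _ => ?_
      by_cases h3 : a = c ∨ b = c
      · rw [if_pos h3, if_pos (Or.inr h3)]
      · rw [if_neg h3, if_neg (by tauto)]
    rw [h2]
    have h3 : ∑ c, (if a = c ∨ b = c then (0 : V) else w) = (n : ℝ) • w - (w + w) := by
      rw [h1]; abel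
    rw [h3]; module
  have f3 : ∑ a, ∑ b, ∑ c, (if a = b ∨ a = c ∨ b = c then (0 : V) else C a (C b v))
      = ((n : ℝ) - 2) • E2 C v := by
    unfold E2
    rw [Finset.smul_sum]
    refine Finset.sum_congr rfl fun a _ => ?_
    rw [Finset.smul_sum]
    refine Finset.sum_congr rfl fun b _ => ?_
    by_cases hab : a = b
    · simp [hab]
    · rw [cnt a b _ hab, if_neg hab]
  have f2 : ∑ a, ∑ b, ∑ c, (if a = b ∨ a = c ∨ b = c then (0 : V) else C a (C c v))
      = ((n : ℝ) - 2) • E2 C v := by
    rw [← f3]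
    refine Finset.sum_congr rfl fun a _ => ?_
    rw [Finset.sum_comm]
    refine Finset.sum_congr rfl fun c _ => Finset.sum_congr rfl fun b _ => ?_
    by_cases h : a = b ∨ a = c ∨ b = c
    · rw [if_pos h, if_pos (by rcases h with h | h | h <;> [skip; skip; (have := h.symm)] <;> tauto)]
    · rw [if_neg h, if_neg]
      rintro (h1 | h1 | h1)
      · exact h (Or.inr (Or.inl h1))
      · exact h (Or.inl h1)
      · exact h (Or.inr (Or.inr h1.symm))
  have f1 : ∑ a, ∑ b, ∑ c, (if a = b ∨ a = c ∨ b = c then (0 : V) else C b (C c v))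
      = ((n : ℝ) - 2) • E2 C v := by
    rw [← f2, Finset.sum_comm]
    refine Finset.sum_congr rfl fun b _ => Finset.sum_congr rfl fun a _ =>
      Finset.sum_congr rfl fun c _ => ?_
    by_cases h : a = b ∨ a = c ∨ b = c
    · rw [if_pos h, if_pos]
      rcases h with h | h | h
      · exact Or.inl h.symm
      · exact Or.inr (Or.inr h)
      · exact Or.inr (Or.inl h)
    · rw [if_neg h, if_neg]
      rintro (h1 | h1 | h1)
      · exact h (Or.inl h1.symm)
      · exact h (Or.inr (Or.inr h1))
      · exact h (Or.inr (Or.inl h1))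
  rw [e2]
  simp only [e3, Finset.sum_add_distrib]
  rw [f1, f2, f3]
  unfold E4
  module

include hc hs in
/-- The fourth elementary symmetric function of commuting involutions. -/
lemma E4_eq (v : V) : E4 C v = SS C (SS C (SS C (SS C v)))
    - (6 * (n : ℝ) - 8) • SS C (SS C v) + (3 * (n : ℝ) ^ 2 - 6 * n) • v := by
  have h2 := SS_SS hs v
  have h3 := SS_E2 hc hs v
  have h4 := SS_E3 hc hs v
  -- third power
  have h5 : SS C (SS C (SS C v)) = (3 * (n : ℝ) - 2) • SS C v + E3 C v := by
    have : SS C (SS C (SS C v)) = SS C ((n : ℝ) • v + E2 C v) := by rw [h2]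
    rw [this, SS_add, SS_smul, h3]
    module
  have h6 : SS C (SS C (SS C (SS C v)))
      = (3 * (n : ℝ) - 2) • SS C (SS C v) + ((3 * (n : ℝ) - 6) • E2 C v + E4 C v) := by
    have : SS C (SS C (SS C (SS C v))) = SS C ((3 * (n : ℝ) - 2) • SS C v + E3 C v) := by
      rw [h5]
    rw [this, SS_add, SS_smul, h4]
  have h7 : E2 C v = SS C (SS C v) - (n : ℝ) • v := by rw [h2]; abel
  rw [h6, h7]
  module

end Involutions

end Pool.Agent.Lib.MP_06963d_lc
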