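import Mathlib
import Pool.Agent.Lib.MP_06963d_lc.Cliff

/-!
# The degree-4 pseudo-moment functional on a Clifford system

The quartic form `∑ a, (vᵀ P_a v)^2` is at most `|v|^4`, but a degree-4 pseudo-moment functional
gives it the value `√n / 6`.
-/

namespace Pool.Agent.Lib.MP_06963d_lc

open Finset Matrix

variable {ι : Type} [Fintype ι]

/-- Frobenius inner product -/
def ip (A B : Matrix ι ι ℝ) : ℝ := Matrix.trace (Aᵀ * B)

lemma ip_eq (A B : Matrix ι ι ℝ) : ip A B = ∑ i, ∑ j, A i j * B i j := by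
  unfold ip
  rw [Finset.sum_comm]
  simp [Matrix.trace, Matrix.mul_apply, Matrix.transpose_apply]

lemma ip_add_right (A B C : Matrix ι ι ℝ) : ip A (B + C) = ip A B + ip A C := by
  unfold ip; rw [Matrix.mul_add, Matrix.trace_add]

lemma ip_add_left (A B C : Matrix ι ι ℝ) : ip (A + B) C = ip A C + ip B C := by
  unfold ip; rw [Matrix.transpose_add, Matrix.add_mul, Matrix.trace_add]

lemma ip_smul_right (r : ℝ) (A B : Matrix ι ι ℝ) : ip A (r • B) = r * ip A B := by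
  unfold ip; rw [Matrix.mul_smul, Matrix.trace_smul, smul_eq_mul]

lemma ip_smul_left (r : ℝ) (A B : Matrix ι ι ℝ) : ip (r • A) B = r * ip A B := by
  unfold ip; rw [Matrix.transpose_smul, Matrix.smul_mul, Matrix.trace_smul, smul_eq_mul]

lemma ip_sub_right (A B C : Matrix ι ι ℝ) : ip A (B - C) = ip A B - ip A C := by
  unfold ip; rw [Matrix.mul_sub, Matrix.trace_sub]

lemma ip_comm (A B : Matrix ι ι ℝ) : ip A B = ip B A := by
  rw [ip_eq, ip_eq]
  exact Finset.sum_congr rfl fun i _ => Finset.sum_congr rfl fun j _ => mul_comm _ _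

lemma ip_self_nonneg (A : Matrix ι ι ℝ) : 0 ≤ ip A A := by
  rw [ip_eq]
  exact Finset.sum_nonneg fun i _ => Finset.sum_nonneg fun j _ => mul_self_nonneg _

lemma ip_sum_right {T : Type} (s : Finset T) (A : Matrix ι ι ℝ) (B : T → Matrix ι ι ℝ) :
    ip A (∑ t ∈ s, B t) = ∑ t ∈ s, ip A (B t) := by
  unfold ip; rw [Matrix.mul_sum, Matrix.trace_sum]

lemma ip_sum_left {T : Type} (s : Finset T) (A : T → Matrix ι ι ℝ) (B : Matrix ι ι ℝ) :
    ip (∑ t ∈ s, A t) B = ∑ t ∈ s, ip (A t) B := by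
  rw [ip_comm, ip_sum_right]
  exact Finset.sum_congr rfl fun t _ => ip_comm _ _

/-- symmetric part -/
noncomputable def symp (Q : Matrix ι ι ℝ) : Matrix ι ι ℝ := (1 / 2 : ℝ) • (Q + Qᵀ)

lemma symp_apply (Q : Matrix ι ι ℝ) (i j : ι) : symp Q i j = (Q i j + Q j i) / 2 := by
  simp [symp]; ring

lemma symp_of_symm {Q : Matrix ι ι ℝ} (h : Qᵀ = Q) : symp Q = Q := by
  ext i j
  have : Q j i = Q i j := by
    have := congrFun (congrFun h i) j
    simpa [Matrix.transpose_apply] using this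
  rw [symp_apply, this]; ring

lemma GW_eq (W Q : Matrix ι ι ℝ) :
    GW W Q = (ip W Q) ^ 2 + 2 * ip (symp Q) (W * symp Q * Wᵀ) := by
  unfold GW
  congr 1
  · rw [ip_eq]
  · congr 1
    rw [ip_eq]
    refine Finset.sum_congr rfl fun i _ => Finset.sum_congr rfl fun j _ => ?_
    simp only [Matrix.mul_apply, Matrix.transpose_apply, Finset.sum_mul, Finset.mul_sum,
      symp_apply]
    rw [Finset.sum_comm]
    refine Finset.sum_congr rfl fun l _ => Finset.sum_congr rfl fun k _ => ?_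
    ring

variable [DecidableEq ι] {n : ℕ}

/-- the involution `Q ↦ P_a Q P_a` -/
noncomputable def Cop (c : Clif ι n) (a : Fin n) : Matrix ι ι ℝ →ₗ[ℝ] Matrix ι ι ℝ :=
  (LinearMap.mulRight ℝ (c.P a)).comp (LinearMap.mulLeft ℝ (c.P a))

lemma Cop_apply (c : Clif ι n) (a : Fin n) (Q : Matrix ι ι ℝ) :
    Cop c a Q = c.P a * Q * c.P a := by
  simp [Cop]

lemma Cop_sq (c : Clif ι n) (a : Fin n) (Q : Matrix ι ι ℝ) : Cop c a (Cop c a Q) = Q := by
  rw [Cop_apply, Cop_apply]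
  calc c.P a * (c.P a * Q * c.P a) * c.P a = (c.P a * c.P a) * Q * (c.P a * c.P a) := by
        simp only [Matrix.mul_assoc]
    _ = Q := by rw [c.sq, Matrix.one_mul, Matrix.mul_one]

lemma Cop_comm (c : Clif ι n) (a b : Fin n) (Q : Matrix ι ι ℝ) :
    Cop c a (Cop c b Q) = Cop c b (Cop c a Q) := by
  by_cases h : a = b
  · rw [h]
  rw [Cop_apply, Cop_apply, Cop_apply, Cop_apply]
  have h1 : c.P a * c.P b = - (c.P b * c.P a) := c.anti a b h
  have h2 : c.P b * c.P a = - (c.P a * c.P b) := c.anti b a (Ne.symm h)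
  have e1 : c.P a * (c.P b * Q * c.P b) * c.P a = (c.P a * c.P b) * (Q * (c.P b * c.P a)) := by
    simp only [Matrix.mul_assoc]
  have e2 : c.P b * (c.P a * Q * c.P a) * c.P b = (c.P b * c.P a) * (Q * (c.P a * c.P b)) := by
    simp only [Matrix.mul_assoc]
  have e3 : (c.P a * c.P b) * (Q * (c.P b * c.P a))
      = (- (c.P b * c.P a)) * (Q * (- (c.P a * c.P b))) :=
    congrArg₂ (fun X Y => X * (Q * Y)) h1 h2
  rw [e1, e2, e3]
  simp only [Matrix.neg_mul, Matrix.mul_neg, neg_neg]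

lemma ip_Cop (c : Clif ι n) (a : Fin n) (A B : Matrix ι ι ℝ) :
    ip A (Cop c a B) = ip (Cop c a A) B := by
  rw [Cop_apply, Cop_apply]
  unfold ip
  rw [Matrix.transpose_mul, Matrix.transpose_mul, c.symm]
  calc Matrix.trace (Aᵀ * (c.P a * B * c.P a))
      = Matrix.trace ((Aᵀ * c.P a * B) * c.P a) := by simp only [Matrix.mul_assoc]
    _ = Matrix.trace (c.P a * (Aᵀ * c.P a * B)) := Matrix.trace_mul_comm _ _
    _ = _ := by simp only [Matrix.mul_assoc]

lemma ip_SS (c : Clif ι n) (A B : Matrix ι ι ℝ) :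
    ip A (SS (Cop c) B) = ip (SS (Cop c) A) B := by
  unfold SS
  rw [ip_sum_right, ip_sum_left]
  exact Finset.sum_congr rfl fun a _ => ip_Cop c a A B

/-- the word attached to four indices -/
noncomputable def word (c : Clif ι n) (a b d e : Fin n) : Matrix ι ι ℝ :=
  c.P e * c.P a * c.P b * c.P d

lemma word_sandwich (c : Clif ι n) (a b d e : Fin n) (Q : Matrix ι ι ℝ) :
    Cop c e (Cop c a (Cop c b (Cop c d Q))) = word c a b d e * Q * (word c a b d e)ᵀ := by
  simp only [Cop_apply, word, Matrix.transpose_mul, c.symm, Matrix.mul_assoc]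

lemma word_mul_t (c : Clif ι n) (a b d e : Fin n) :
    word c a b d e * (word c a b d e)ᵀ = 1 := by
  simp only [word, Matrix.transpose_mul, c.symm]
  calc c.P e * c.P a * c.P b * c.P d * (c.P d * (c.P b * (c.P a * c.P e)))
      = c.P e * (c.P a * (c.P b * (c.P d * c.P d) * c.P b) * c.P a) * c.P e := by
        simp only [Matrix.mul_assoc]
    _ = 1 := by
        rw [c.sq, Matrix.mul_one, c.sq, Matrix.mul_one, c.sq, Matrix.mul_one, c.sq]

lemma word_symm (c : Clif ι n) {a b d e : Fin n} (h1 : a ≠ b) (h2 : a ≠ d) (h3 : b ≠ d)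
    (h4 : a ≠ e) (h5 : b ≠ e) (h6 : d ≠ e) : (word c a b d e)ᵀ = word c a b d e := by
  simp only [word, Matrix.transpose_mul, c.symm]
  have k1 := c.anti a b h1
  have k2 := c.anti a d h2
  have k3 := c.anti b d h3
  have k4 := c.anti e a (Ne.symm h4)
  have k5 := c.anti e b (Ne.symm h5)
  have k6 := c.anti e d (Ne.symm h6)
  symm
  calc c.P e * c.P a * c.P b * c.P d = c.P e * c.P a * (c.P b * c.P d) := by
        simp only [Matrix.mul_assoc]
    _ = - (c.P e * (c.P a * c.P d) * c.P b) := by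
        rw [k3]; simp only [Matrix.mul_neg, Matrix.mul_assoc]
    _ = (c.P e * c.P d) * c.P a * c.P b := by
        rw [k2]; simp only [Matrix.mul_neg, Matrix.neg_mul, neg_neg, Matrix.mul_assoc]
    _ = - (c.P d * c.P e * (c.P a * c.P b)) := by
        rw [k6]; simp only [Matrix.neg_mul, Matrix.mul_assoc]
    _ = c.P d * (c.P e * c.P b) * c.P a := by
        rw [k1]; simp only [Matrix.mul_neg, neg_neg, Matrix.mul_assoc]
    _ = - (c.P d * c.P b * (c.P e * c.P a)) := by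
        rw [k5]; simp only [Matrix.mul_neg, Matrix.neg_mul, Matrix.mul_assoc]
    _ = c.P d * (c.P b * (c.P a * c.P e)) := by
        rw [k4]; simp only [Matrix.mul_neg, neg_neg, Matrix.mul_assoc]

lemma trace_P (c : Clif ι n) {a b : Fin n} (h : a ≠ b) : Matrix.trace (c.P a) = 0 := by
  have e1 : Matrix.trace (c.P a) = Matrix.trace (c.P b * (c.P b * c.P a)) := by
    rw [← Matrix.mul_assoc, c.sq, Matrix.one_mul]
  have e2 : Matrix.trace (c.P b * (c.P b * c.P a)) = - Matrix.trace (c.P a) := by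
    rw [c.anti b a (Ne.symm h), Matrix.mul_neg, Matrix.trace_neg, Matrix.trace_mul_comm,
      Matrix.mul_assoc, c.sq, Matrix.mul_one]
  linarith

lemma trace_word (c : Clif ι n) {a b d e : Fin n} (h4 : a ≠ e) (h5 : b ≠ e) (h6 : d ≠ e) :
    Matrix.trace (word c a b d e) = 0 := by
  have k4 := c.anti a e h4
  have k5 := c.anti b e h5
  have k6 := c.anti d e h6
  have e1 : Matrix.trace (word c a b d e) = Matrix.trace (c.P a * c.P b * c.P d * c.P e) := by
    unfold word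
    rw [Matrix.mul_assoc, Matrix.mul_assoc, Matrix.trace_mul_comm]
    simp only [Matrix.mul_assoc]
  have e2 : c.P a * c.P b * c.P d * c.P e = - word c a b d e := by
    unfold word
    calc c.P a * c.P b * c.P d * c.P e = c.P a * c.P b * (c.P d * c.P e) := by
          simp only [Matrix.mul_assoc]
      _ = - (c.P a * (c.P b * c.P e) * c.P d) := by
          rw [k6]; simp only [Matrix.mul_neg, Matrix.mul_assoc]
      _ = (c.P a * c.P e) * c.P b * c.P d := by
          rw [k5]; simp only [Matrix.mul_neg, Matrix.neg_mul, neg_neg, Matrix.mul_assoc]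
      _ = - (c.P e * c.P a * c.P b * c.P d) := by
          rw [k4]; simp only [Matrix.neg_mul]
  rw [e2, Matrix.trace_neg] at e1
  linarith

/-- The unnormalised functional. -/
noncomputable def FT (c : Clif ι n) (q1 q4 : ℝ) (Q : ι → ι → ℝ) : ℝ :=
  GW (1 : Matrix ι ι ℝ) Q + q1 * ∑ a, GW (c.P a) Q
    + q4 * ∑ a, ∑ b, ∑ d, ∑ e, (if a = b ∨ a = d ∨ b = d ∨ a = e ∨ b = e ∨ d = e then 0
      else GW (word c a b d e) Q)

lemma isQuad_FT (c : Clif ι n) (q1 q4 : ℝ) : IsQuad (FT c q1 q4) := by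
  have hone : IsQuad (GW (1 : Matrix ι ι ℝ)) := isQuad_GW _ fun i j => by
    rw [Matrix.one_apply, Matrix.one_apply]
    simp only [eq_comm]
  have hP : ∀ a, IsQuad (GW (c.P a)) := fun a => isQuad_GW _ fun i j => by
    have := congrFun (congrFun (c.symm a) j) i
    simpa [Matrix.transpose_apply] using this
  have hW : ∀ a b d e : Fin n, IsQuad (fun Q : ι → ι → ℝ =>
      (if a = b ∨ a = d ∨ b = d ∨ a = e ∨ b = e ∨ d = e then 0
      else GW (word c a b d e) Q)) := by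
    intro a b d e
    by_cases h : a = b ∨ a = d ∨ b = d ∨ a = e ∨ b = e ∨ d = e
    · simp only [if_pos h]; exact IsQuad.zero
    · simp only [if_neg h]
      refine isQuad_GW _ fun i j => ?_
      have h1 : (word c a b d e)ᵀ = word c a b d e := word_symm c (by tauto) (by tauto)
        (by tauto) (by tauto) (by tauto) (by tauto)
      have := congrFun (congrFun h1 j) i
      simpa [Matrix.transpose_apply] using this
  exact (hone.add ((IsQuad.sum _ fun a _ => hP a).smul q1)).add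
    ((IsQuad.sum _ fun a _ => IsQuad.sum _ fun b _ => IsQuad.sum _ fun d _ =>
      IsQuad.sum _ fun e _ => hW a b d e).smul q4)

/-- the sandwich part of the functional -/
noncomputable def sec (c : Clif ι n) (q1 q4 : ℝ) (Q : Matrix ι ι ℝ) : ℝ :=
  ip Q Q + q1 * ip Q (SS (Cop c) Q) + q4 * ip Q (E4 (Cop c) Q)

lemma FT_eq (c : Clif ι n) (q1 q4 : ℝ) (Q : Matrix ι ι ℝ) :
    FT c q1 q4 Q = (ip 1 Q) ^ 2 + q1 * ∑ a, (ip (c.P a) Q) ^ 2
      + q4 * ∑ a, ∑ b, ∑ d, ∑ e, (if a = b ∨ a = d ∨ b = d ∨ a = e ∨ b = e ∨ d = e then 0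
        else (ip (word c a b d e) Q) ^ 2)
      + 2 * sec c q1 q4 (symp Q) := by
  have h1 : GW (1 : Matrix ι ι ℝ) Q = (ip 1 Q) ^ 2 + 2 * ip (symp Q) (symp Q) := by
    have := GW_eq (1 : Matrix ι ι ℝ) Q
    rwa [Matrix.one_mul, Matrix.transpose_one, Matrix.mul_one] at this
  have h2 : ∑ a, GW (c.P a) Q = ∑ a, (ip (c.P a) Q) ^ 2
      + 2 * ip (symp Q) (SS (Cop c) (symp Q)) := by
    unfold SS
    rw [ip_sum_right, Finset.mul_sum, ← Finset.sum_add_distrib]
    refine Finset.sum_congr rfl fun a _ => ?_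
    rw [Cop_apply]
    have := GW_eq (c.P a) Q
    rwa [c.symm] at this
  have h3 : ∑ a, ∑ b, ∑ d, ∑ e, (if a = b ∨ a = d ∨ b = d ∨ a = e ∨ b = e ∨ d = e then 0
        else GW (word c a b d e) Q)
      = ∑ a, ∑ b, ∑ d, ∑ e, (if a = b ∨ a = d ∨ b = d ∨ a = e ∨ b = e ∨ d = e then 0
        else (ip (word c a b d e) Q) ^ 2) + 2 * ip (symp Q) (E4 (Cop c) (symp Q)) := by
    unfold E4
    simp only [ip_sum_right, Finset.mul_sum, ← Finset.sum_add_distrib]
    refine Finset.sum_congr rfl fun a _ => Finset.sum_congr rfl fun b _ =>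
      Finset.sum_congr rfl fun d _ => Finset.sum_congr rfl fun e _ => ?_
    by_cases h : a = b ∨ a = d ∨ b = d ∨ a = e ∨ b = e ∨ d = e
    · simp only [if_pos h]
      rw [ip_eq]; simp
    · simp only [if_neg h]
      rw [word_sandwich]
      exact GW_eq (word c a b d e) Q
  unfold FT sec
  rw [h1, h2, h3]
  ring

lemma sec_nonneg (c : Clif ι n) {N : ℝ} (hN : 0 < N) (hn : N ^ 2 = n) (hn2 : 2 ≤ n)
    (Q : Matrix ι ι ℝ) : 0 ≤ sec c (1 / (3 * N)) (1 / (24 * (n : ℝ) ^ 2)) Q := by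
  have hn0 : (0 : ℝ) < n := by positivity
  have hn2' : (2 : ℝ) ≤ n := by exact_mod_cast hn2
  obtain ⟨S1, hS1⟩ : ∃ S1, S1 = SS (Cop c) Q := ⟨_, rfl⟩
  obtain ⟨S2, hS2⟩ : ∃ S2, S2 = SS (Cop c) S1 := ⟨_, rfl⟩
  have hE := E4_eq (Cop_comm c) (Cop_sq c) Q
  have i2 : ip Q S2 = ip S1 S1 := by rw [hS2, hS1, ip_SS]
  have i4 : ip Q (SS (Cop c) (SS (Cop c) S2)) = ip S2 S2 := by
    rw [ip_SS, ip_SS, ← hS1, ← hS2]
  have hE' : ip Q (E4 (Cop c) Q) = ip S2 S2 - (6 * (n : ℝ) - 8) * ip S1 S1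
      + (3 * (n : ℝ) ^ 2 - 6 * n) * ip Q Q := by
    rw [hE, ← hS1, ← hS2, ip_add_right, ip_sub_right, ip_smul_right, ip_smul_right, i4, i2]
  unfold sec
  rw [hE', ← hS1]
  -- sum of squares
  have sq1 : 0 ≤ ip ((1 / N) • S1 + (2 : ℝ) • Q) ((1 / N) • S1 + (2 : ℝ) • Q) :=
    ip_self_nonneg _
  have sq2 : 0 ≤ ip ((1 / (n : ℝ)) • S2 + (-4 : ℝ) • Q) ((1 / (n : ℝ)) • S2 + (-4 : ℝ) • Q) :=
    ip_self_nonneg _
  have e1 : ip ((1 / N) • S1 + (2 : ℝ) • Q) ((1 / N) • S1 + (2 : ℝ) • Q)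
      = (1 / N ^ 2) * ip S1 S1 + 4 / N * ip Q S1 + 4 * ip Q Q := by
    simp only [ip_add_left, ip_add_right, ip_smul_left, ip_smul_right]
    rw [ip_comm S1 Q]
    field_simp
    ring
  have e2 : ip ((1 / (n : ℝ)) • S2 + (-4 : ℝ) • Q) ((1 / (n : ℝ)) • S2 + (-4 : ℝ) • Q)
      = (1 / (n : ℝ) ^ 2) * ip S2 S2 - 8 / n * ip S1 S1 + 16 * ip Q Q := by
    simp only [ip_add_left, ip_add_right, ip_smul_left, ip_smul_right]
    rw [ip_comm S2 Q, i2]
    field_simp
    ring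
  rw [e1, hn] at sq1
  rw [e2] at sq2
  have p1 := ip_self_nonneg Q
  have p2 := ip_self_nonneg S1
  have key : ip Q Q + 1 / (3 * N) * ip Q S1 + 1 / (24 * (n : ℝ) ^ 2)
      * (ip S2 S2 - (6 * (n : ℝ) - 8) * ip S1 S1 + (3 * (n : ℝ) ^ 2 - 6 * n) * ip Q Q)
      = (1 / 12) * (1 / (n : ℝ) * ip S1 S1 + 4 / N * ip Q S1 + 4 * ip Q Q)
        + (1 / 24) * ((1 / (n : ℝ) ^ 2) * ip S2 S2 - 8 / n * ip S1 S1 + 16 * ip Q Q)
        + 1 / (3 * (n : ℝ) ^ 2) * ip S1 S1 + (1 / 8 - 1 / (4 * (n : ℝ))) * ip Q Q := by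
    field_simp
    ring
  rw [key]
  have h8 : 0 ≤ 1 / 8 - 1 / (4 * (n : ℝ)) := by
    rw [sub_nonneg, div_le_div_iff₀ (by positivity) (by norm_num)]
    linarith
  have := mul_nonneg h8 p1
  have : 0 ≤ 1 / (3 * (n : ℝ) ^ 2) * ip S1 S1 := mul_nonneg (by positivity) p2
  linarith [mul_nonneg (by norm_num : (0 : ℝ) ≤ 1 / 12) sq1,
    mul_nonneg (by norm_num : (0 : ℝ) ≤ 1 / 24) sq2]

end Pool.Agent.Lib.MP_06963d_lc
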