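import Mathlib
import Pool.Agent.Lib.MP_06963d_lc.CliffPE

/-!
# The normalised Clifford pseudo-moment functional
-/

namespace Pool.Agent.Lib.MP_06963d_lc

open Finset Matrix

variable {ι : Type} [Fintype ι] [DecidableEq ι] {n : ℕ}

lemma qv_one (x : ι → ℝ) : qv (1 : Matrix ι ι ℝ) x = nsq x := by
  unfold qv nsq
  refine Finset.sum_congr rfl fun i _ => ?_
  simp only [Matrix.one_apply, ite_mul, one_mul, zero_mul, Finset.sum_ite_eq, Finset.mem_univ,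
    if_true]
  ring

lemma ip_one_one : ip (1 : Matrix ι ι ℝ) 1 = Fintype.card ι := by
  unfold ip
  rw [Matrix.transpose_one, Matrix.one_mul, Matrix.trace_one]

lemma SS_one (c : Clif ι n) : SS (Cop c) (1 : Matrix ι ι ℝ) = (n : ℝ) • (1 : Matrix ι ι ℝ) := by
  unfold SS
  have : ∀ a : Fin n, Cop c a 1 = 1 := fun a => by
    rw [Cop_apply, Matrix.mul_one, c.sq]
  simp only [this, Finset.sum_const, Finset.card_univ, Fintype.card_fin]
  rw [Nat.cast_smul_eq_nsmul]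

lemma FT_nonneg (c : Clif ι n) {N : ℝ} (hN : 0 < N) (hn : N ^ 2 = n) (hn2 : 2 ≤ n)
    (Q : Matrix ι ι ℝ) : 0 ≤ FT c (1 / (3 * N)) (1 / (24 * (n : ℝ) ^ 2)) Q := by
  rw [FT_eq]
  have h1 := sec_nonneg c hN hn hn2 (symp Q)
  have h2 : 0 ≤ ∑ a, (ip (c.P a) Q) ^ 2 := Finset.sum_nonneg fun a _ => sq_nonneg _
  have h3 : 0 ≤ ∑ a, ∑ b, ∑ d, ∑ e, (if a = b ∨ a = d ∨ b = d ∨ a = e ∨ b = e ∨ d = e then 0
        else (ip (word c a b d e) Q) ^ 2) :=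
    Finset.sum_nonneg fun a _ => Finset.sum_nonneg fun b _ => Finset.sum_nonneg fun d _ =>
      Finset.sum_nonneg fun e _ => by split_ifs <;> positivity
  have h4 : 0 ≤ 1 / (3 * N) := by positivity
  have h5 : 0 ≤ 1 / (24 * (n : ℝ) ^ 2) := by positivity
  have := mul_nonneg h4 h2
  have := mul_nonneg h5 h3
  have := sq_nonneg (ip 1 Q)
  linarith

lemma FT_P_ge (c : Clif ι n) {N : ℝ} (hN : 0 < N) (hn : N ^ 2 = n) (hn2 : 2 ≤ n) (a : Fin n) :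
    1 / (3 * N) * (Fintype.card ι : ℝ) ^ 2
      ≤ FT c (1 / (3 * N)) (1 / (24 * (n : ℝ) ^ 2)) (c.P a) := by
  rw [FT_eq]
  have h1 := sec_nonneg c hN hn hn2 (symp (c.P a))
  have h2 : (Fintype.card ι : ℝ) ^ 2 ≤ ∑ b, (ip (c.P b) (c.P a)) ^ 2 := by
    have e : (ip (c.P a) (c.P a)) ^ 2 = (Fintype.card ι : ℝ) ^ 2 := by
      unfold ip
      rw [c.symm, c.sq, Matrix.trace_one]
    rw [← e]
    exact Finset.single_le_sum (f := fun b => (ip (c.P b) (c.P a)) ^ 2)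
      (fun b _ => sq_nonneg _) (Finset.mem_univ a)
  have h3 : 0 ≤ ∑ a', ∑ b, ∑ d, ∑ e,
      (if a' = b ∨ a' = d ∨ b = d ∨ a' = e ∨ b = e ∨ d = e then 0
        else (ip (word c a' b d e) (c.P a)) ^ 2) :=
    Finset.sum_nonneg fun a _ => Finset.sum_nonneg fun b _ => Finset.sum_nonneg fun d _ =>
      Finset.sum_nonneg fun e _ => by split_ifs <;> positivity
  have h4 : 0 ≤ 1 / (3 * N) := by positivity
  have h5 : 0 ≤ 1 / (24 * (n : ℝ) ^ 2) := by positivity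
  have := mul_nonneg h5 h3
  have := sq_nonneg (ip 1 (c.P a))
  have := mul_le_mul_of_nonneg_left h2 h4
  linarith

lemma FT_one_le (c : Clif ι n) {N : ℝ} (hN : 0 < N) (hn : N ^ 2 = n) (hn2 : 2 ≤ n)
    (hD : 2 * (1 + N / 3 + (n : ℝ) ^ 2 / 24) ≤ Fintype.card ι) :
    FT c (1 / (3 * N)) (1 / (24 * (n : ℝ) ^ 2)) (1 : Matrix ι ι ℝ)
      ≤ 2 * (Fintype.card ι : ℝ) ^ 2 := by
  have hn2' : (2 : ℝ) ≤ n := by exact_mod_cast hn2
  have hn0 : (0 : ℝ) < n := by linarith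
  obtain ⟨D, hDdef⟩ : ∃ D : ℝ, D = Fintype.card ι := ⟨_, rfl⟩
  have hD0 : 0 ≤ D := by rw [hDdef]; positivity
  rw [FT_eq, symp_of_symm Matrix.transpose_one]
  have e1 : ip (1 : Matrix ι ι ℝ) 1 = D := by rw [ip_one_one, hDdef]
  have e2 : ∑ a, (ip (c.P a) 1) ^ 2 = 0 := by
    refine Finset.sum_eq_zero fun a _ => ?_
    obtain ⟨b, hb⟩ : ∃ b : Fin n, a ≠ b := by
      by_cases h0 : a.val = 0
      · exact ⟨⟨1, by omega⟩, fun h => by rw [h] at h0; simp at h0⟩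
      · exact ⟨⟨0, by omega⟩, fun h => h0 (by rw [h])⟩
    have : ip (c.P a) 1 = 0 := by
      unfold ip
      rw [c.symm, Matrix.mul_one, trace_P c hb]
    rw [this]; norm_num
  have e3 : ∑ a, ∑ b, ∑ d, ∑ e, (if a = b ∨ a = d ∨ b = d ∨ a = e ∨ b = e ∨ d = e then (0 : ℝ)
        else (ip (word c a b d e) 1) ^ 2) = 0 := by
    refine Finset.sum_eq_zero fun a _ => Finset.sum_eq_zero fun b _ =>
      Finset.sum_eq_zero fun d _ => Finset.sum_eq_zero fun e _ => ?_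
    by_cases h : a = b ∨ a = d ∨ b = d ∨ a = e ∨ b = e ∨ d = e
    · rw [if_pos h]
    · rw [if_neg h]
      have h1 : (word c a b d e)ᵀ = word c a b d e := word_symm c (by tauto) (by tauto)
        (by tauto) (by tauto) (by tauto) (by tauto)
      have : ip (word c a b d e) 1 = 0 := by
        unfold ip
        rw [h1, Matrix.mul_one, trace_word c (by tauto) (by tauto) (by tauto)]
      rw [this]; norm_num
  have e4 : sec c (1 / (3 * N)) (1 / (24 * (n : ℝ) ^ 2)) (1 : Matrix ι ι ℝ)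
      ≤ D * (1 + N / 3 + (n : ℝ) ^ 2 / 24) := by
    unfold sec
    rw [E4_eq (Cop_comm c) (Cop_sq c)]
    simp only [SS_smul, SS_one, smul_smul, ip_add_right, ip_sub_right, ip_smul_right, e1]
    have k1 : 1 / (3 * N) * (n * D) = D * (N / 3) := by
      rw [← hn]; field_simp
    have k2 : 1 / (24 * (n : ℝ) ^ 2) * (↑n * ↑n * ↑n * ↑n * D
        - (6 * (n : ℝ) - 8) * (↑n * ↑n * D) + (3 * (n : ℝ) ^ 2 - 6 * ↑n) * D)
        ≤ D * ((n : ℝ) ^ 2 / 24) := by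
      have k3 : 1 / (24 * (n : ℝ) ^ 2) * (↑n * ↑n * ↑n * ↑n * D
        - (6 * (n : ℝ) - 8) * (↑n * ↑n * D) + (3 * (n : ℝ) ^ 2 - 6 * ↑n) * D)
        = D * ((n : ℝ) ^ 2 / 24) - 1 / (24 * (n : ℝ) ^ 2) * (D * (n
          * (6 * (n : ℝ) ^ 2 - 11 * n + 6))) := by
        field_simp; ring
      rw [k3]
      have k4 : 0 ≤ 6 * (n : ℝ) ^ 2 - 11 * n + 6 := by nlinarith
      have : 0 ≤ 1 / (24 * (n : ℝ) ^ 2) * (D * (n * (6 * (n : ℝ) ^ 2 - 11 * n + 6))) := by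
        positivity
      linarith
    have : D * (1 + N / 3 + (n : ℝ) ^ 2 / 24) = D + D * (N / 3) + D * ((n : ℝ) ^ 2 / 24) := by
      ring
    rw [this, k1]
    linarith
  rw [e1, e2, e3, ← hDdef]
  rw [← hDdef] at hD
  nlinarith

lemma two_pow_ge_sq (n : ℕ) (hn : 4 ≤ n) : n ^ 2 ≤ 2 ^ n := by
  induction n, hn using Nat.le_induction with
  | base => norm_num
  | succ n hn ih =>
    rw [pow_succ 2 n]
    nlinarith

/-- The normalised functional on a Clifford system of length `N ^ 2`. -/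
theorem cliff_pe (N : ℕ) (hN : 2 ≤ N) :
    ∃ (ι : Type) (_ : Fintype ι) (_ : DecidableEq ι) (cl : Clif ι (N ^ 2))
      (K : Type) (_ : Fintype K) (c : K → ℝ) (x : K → ι → ℝ),
      (∀ Q : ι → ι → ℝ, 0 ≤ ∑ k, c k * (∑ i, ∑ j, Q i j * x k i * x k j) ^ 2) ∧
      (∑ k, c k * nsq (x k) ^ 2 = 1) ∧
      (N : ℝ) / 6 ≤ ∑ a, ∑ k, c k * (qv (cl.P a) (x k)) ^ 2 := by
  obtain ⟨ι, _, _, hcard, ⟨cl⟩⟩ := exists_clif (N ^ 2)
  have hN0 : (0 : ℝ) < N := by exact_mod_cast (by omega : 0 < N)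
  have hN2 : (2 : ℝ) ≤ N := by exact_mod_cast hN
  have hn : (N : ℝ) ^ 2 = ((N ^ 2 : ℕ) : ℝ) := by push_cast; rfl
  have hn2 : 2 ≤ N ^ 2 := by nlinarith
  have hn4 : 4 ≤ N ^ 2 := by nlinarith
  obtain ⟨n, hndef⟩ : ∃ n : ℕ, n = N ^ 2 := ⟨_, rfl⟩
  have hD : 2 * (1 + (N : ℝ) / 3 + ((N ^ 2 : ℕ) : ℝ) ^ 2 / 24) ≤ Fintype.card ι := by
    rw [hcard]
    have h1 := two_pow_ge_sq (N ^ 2) hn4
    have h2 : ((N ^ 2 : ℕ) : ℝ) ^ 2 ≤ ((2 ^ (N ^ 2) : ℕ) : ℝ) := by exact_mod_cast h1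
    refine le_trans ?_ h2
    rw [← hn]
    nlinarith [mul_nonneg (sub_nonneg.mpr hN2) (sub_nonneg.mpr hN2), pow_nonneg hN0.le 3,
      pow_nonneg hN0.le 2, mul_nonneg (sub_nonneg.mpr hN2) (pow_nonneg hN0.le 3),
      mul_nonneg (sub_nonneg.mpr hN2) (pow_nonneg hN0.le 2)]
  obtain ⟨K, _, c, x, hq⟩ := isQuad_FT cl (1 / (3 * (N : ℝ))) (1 / (24 * ((N ^ 2 : ℕ) : ℝ) ^ 2))
  set F := FT cl (1 / (3 * (N : ℝ))) (1 / (24 * ((N ^ 2 : ℕ) : ℝ) ^ 2)) with hF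
  have hF0 : ∀ Q, 0 ≤ F Q := fun Q => FT_nonneg cl hN0 hn hn2 Q
  have hF1 : F (1 : Matrix ι ι ℝ) ≤ 2 * (Fintype.card ι : ℝ) ^ 2 := FT_one_le cl hN0 hn hn2 hD
  have hFP : ∀ a, 1 / (3 * (N : ℝ)) * (Fintype.card ι : ℝ) ^ 2 ≤ F (cl.P a) :=
    fun a => FT_P_ge cl hN0 hn hn2 a
  have hcard0 : (0 : ℝ) < Fintype.card ι := by rw [hcard]; positivity
  have hF1' : (Fintype.card ι : ℝ) ^ 2 ≤ F (1 : Matrix ι ι ℝ) := by
    rw [hF, FT_eq]
    have h1 := sec_nonneg cl hN0 hn hn2 (symp (1 : Matrix ι ι ℝ))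
    have h2 : 0 ≤ ∑ a, (ip (cl.P a) (1 : Matrix ι ι ℝ)) ^ 2 :=
      Finset.sum_nonneg fun a _ => sq_nonneg _
    have h3 : 0 ≤ ∑ a, ∑ b, ∑ d, ∑ e, (if a = b ∨ a = d ∨ b = d ∨ a = e ∨ b = e ∨ d = e then 0
          else (ip (word cl a b d e) (1 : Matrix ι ι ℝ)) ^ 2) :=
      Finset.sum_nonneg fun a _ => Finset.sum_nonneg fun b _ => Finset.sum_nonneg fun d _ =>
        Finset.sum_nonneg fun e _ => by split_ifs <;> positivity
    have h4 : 0 ≤ 1 / (3 * (N : ℝ)) := by positivity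
    have h5 : 0 ≤ 1 / (24 * ((N ^ 2 : ℕ) : ℝ) ^ 2) := by positivity
    have h6 := mul_nonneg h4 h2
    have h7 := mul_nonneg h5 h3
    have h8 : (ip (1 : Matrix ι ι ℝ) 1) ^ 2 = (Fintype.card ι : ℝ) ^ 2 := by rw [ip_one_one]
    linarith
  have hF1pos : 0 < F (1 : Matrix ι ι ℝ) := lt_of_lt_of_le (by positivity) hF1'
  obtain ⟨Z, hZ⟩ : ∃ Z : ℝ, Z = F (1 : Matrix ι ι ℝ) := ⟨_, rfl⟩
  rw [← hZ] at hF1 hF1' hF1pos
  refine ⟨ι, inferInstance, inferInstance, cl, K, inferInstance, fun k => c k / Z, x, ?_, ?_, ?_⟩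
  · intro Q
    have h1 := hq Q
    have h2 := hF0 Q
    have h3 : ∑ k, c k / Z * (∑ i, ∑ j, Q i j * x k i * x k j) ^ 2
        = (∑ k, c k * (qv Q (x k)) ^ 2) / Z := by
      rw [Finset.sum_div]
      refine Finset.sum_congr rfl fun k _ => ?_
      unfold qv; ring
    rw [h3, ← h1]
    exact div_nonneg h2 hF1pos.le
  · have h1 := hq (1 : Matrix ι ι ℝ)
    have h3 : ∑ k, c k / Z * nsq (x k) ^ 2 = (∑ k, c k * (qv (1 : Matrix ι ι ℝ) (x k)) ^ 2) / Z := by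
      rw [Finset.sum_div]
      refine Finset.sum_congr rfl fun k _ => ?_
      rw [qv_one]; ring
    rw [h3, ← h1]
    show F (1 : Matrix ι ι ℝ) / Z = 1
    rw [← hZ, div_self hF1pos.ne']
  · have h3 : ∑ a, ∑ k, c k / Z * (qv (cl.P a) (x k)) ^ 2 = (∑ a, F (cl.P a)) / Z := by
      rw [Finset.sum_div]
      refine Finset.sum_congr rfl fun a _ => ?_
      have h6 : F (cl.P a) = ∑ k, c k * (qv (cl.P a) (x k)) ^ 2 := hq (cl.P a)
      rw [h6, Finset.sum_div]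
      refine Finset.sum_congr rfl fun k _ => ?_
      ring
    rw [h3, le_div_iff₀ hF1pos]
    have h4 : ∑ a : Fin (N ^ 2), 1 / (3 * (N : ℝ)) * (Fintype.card ι : ℝ) ^ 2
        ≤ ∑ a, F (cl.P a) := Finset.sum_le_sum fun a _ => hFP a
    rw [Finset.sum_const, Finset.card_univ, Fintype.card_fin, nsmul_eq_mul, ← hn] at h4
    have h5 : (N : ℝ) ^ 2 * (1 / (3 * (N : ℝ)) * (Fintype.card ι : ℝ) ^ 2)
        = (N : ℝ) / 3 * (Fintype.card ι : ℝ) ^ 2 := by field_simp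
    rw [h5] at h4
    have h6 : (N : ℝ) / 6 * Z ≤ (N : ℝ) / 6 * (2 * (Fintype.card ι : ℝ) ^ 2) :=
      mul_le_mul_of_nonneg_left hF1 (by positivity)
    linarith

end Pool.Agent.Lib.MP_06963d_lc
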