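import Mathlib
import Pool.Agent.Lib.MP_06963d_lc.Slot

/-!
# Gadgets with a moment function and an operator second moment
-/

namespace Pool.Agent.Lib.MP_06963d_lc

open Finset

/-- The Gram matrix of a family of vectors. -/
def gramM {R ι : Type} [Fintype R] (b : R → ι → ℝ) : ι → ι → ℝ := fun i j => ∑ r, b r i * b r j

lemma gramM_tens {R R' ι ι' : Type} [Fintype R] [Fintype R'] (b : R → ι → ℝ)
    (b' : R' → ι' → ℝ) : gramM (tens b b') = tens (gramM b) (gramM b') := by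
  funext i j
  simp only [gramM, tens]
  rw [Fintype.sum_prod_type, Finset.sum_mul_sum]
  refine Finset.sum_congr rfl fun r _ => Finset.sum_congr rfl fun r' _ => ?_
  ring

/-- Products of two positive semidefinite forms have nonnegative pseudo-value. -/
lemma pe_mul_nonneg {ι K : Type} [Fintype ι] [Fintype K] {c : K → ℝ} {x : K → ι → ℝ}
    (h : ∀ Q : ι → ι → ℝ, 0 ≤ ∑ k, c k * (∑ i, ∑ j, Q i j * x k i * x k j) ^ 2)
    {R R' : Type} [Fintype R] [Fintype R'] (b : R → ι → ℝ) (b' : R' → ι → ℝ) :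
    0 ≤ ∑ k, c k * (qf b (x k) * qf b' (x k)) := by
  have e : ∑ k, c k * (qf b (x k) * qf b' (x k))
      = ∑ r, ∑ s, ∑ k, c k * (∑ i, ∑ j, (b r i * b' s j) * x k i * x k j) ^ 2 := by
    calc ∑ k, c k * (qf b (x k) * qf b' (x k))
        = ∑ k, ∑ r, ∑ s, c k * (∑ i, ∑ j, (b r i * b' s j) * x k i * x k j) ^ 2 := by
          refine Finset.sum_congr rfl fun k _ => ?_
          have s2 : ∀ r s, (∑ i, ∑ j, (b r i * b' s j) * x k i * x k j)
              = (∑ i, b r i * x k i) * (∑ j, b' s j * x k j) := by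
            intro r s
            rw [Finset.sum_mul_sum]
            refine Finset.sum_congr rfl fun i _ => Finset.sum_congr rfl fun j _ => ?_
            ring
          simp only [s2]
          rw [qf, qf, Finset.sum_mul_sum, Finset.mul_sum]
          refine Finset.sum_congr rfl fun r _ => ?_
          rw [Finset.mul_sum]
          refine Finset.sum_congr rfl fun s _ => ?_
          rw [mul_pow]
      _ = _ := by
          rw [Finset.sum_comm]
          refine Finset.sum_congr rfl fun r _ => ?_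
          rw [Finset.sum_comm]
  rw [e]
  exact Finset.sum_nonneg fun r _ => Finset.sum_nonneg fun s _ => h _

/-- Gadget with moment function `μ` on `E`, pseudo-value `κ` and operator second moment `τ`. -/
def GoodB (ι : Type) [Fintype ι] (E : Set ℕ) (μ : ℕ → ℝ) (κ τ : ℝ) : Prop :=
  ∃ (K A Ω R : Type) (_ : Fintype K) (_ : Fintype A) (_ : Fintype Ω) (_ : Fintype R)
    (c : K → ℝ) (x : K → ι → ℝ) (M : A → ι → ι → ℝ) (p : Ω → ℝ) (b : Ω → R → ι → ℝ),
    (∀ Q : ι → ι → ℝ, ∑ k, c k * (∑ i, ∑ j, Q i j * x k i * x k j) ^ 2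
        = ∑ a, (∑ i, ∑ j, M a i j * Q i j) ^ 2) ∧
    (∑ k, c k * nsq (x k) ^ 2 = 1) ∧
    (∀ ω, 0 ≤ p ω) ∧ (∑ ω, p ω = 1) ∧
    (∀ m ∈ E, ∀ v, ∑ ω, p ω * qf (b ω) v ^ m ≤ μ m * nsq v ^ m) ∧
    (∑ ω, p ω * ∑ k, c k * qf (b ω) (x k) ^ 2 = κ) ∧
    (∑ ω, p ω * ∑ k, c k * (qf (b ω) (x k) * qf (gramM (b ω)) (x k)) = τ)

/-- bound with a constant -/
lemma moment_tens' {ι ι' Ω Ω' R R' : Type} [Fintype ι] [Fintype ι'] [Fintype Ω] [Fintype Ω']
    [Fintype R] [Fintype R'] (p : Ω → ℝ) (hp : ∀ ω, 0 ≤ p ω) (b : Ω → R → ι → ℝ)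
    (p' : Ω' → ℝ) (hp' : ∀ ω, 0 ≤ p' ω) (b' : Ω' → R' → ι' → ℝ) (m : ℕ) {μ μ' : ℝ}
    (hμ : 0 < μ) (hμ' : 0 < μ')
    (h : ∀ v, ∑ ω, p ω * qf (b ω) v ^ m ≤ μ * nsq v ^ m)
    (h' : ∀ v, ∑ ω, p' ω * qf (b' ω) v ^ m ≤ μ' * nsq v ^ m) (v : ι × ι' → ℝ) :
    ∑ ω : Ω × Ω', (p ω.1 * p' ω.2) * qf (tens (b ω.1) (b' ω.2)) v ^ m
      ≤ (μ * μ') * nsq v ^ m := by
  have key := moment_tens (fun ω => p ω / μ) (fun ω => div_nonneg (hp ω) hμ.le) b
    (fun ω => p' ω / μ') (fun ω => div_nonneg (hp' ω) hμ'.le) b' m (fun v => by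
      have e : ∑ ω, p ω / μ * qf (b ω) v ^ m = (∑ ω, p ω * qf (b ω) v ^ m) / μ := by
        rw [Finset.sum_div]; exact Finset.sum_congr rfl fun ω _ => by ring
      rw [e, div_le_iff₀ hμ, mul_comm]; exact h v) (fun v => by
      have e : ∑ ω, p' ω / μ' * qf (b' ω) v ^ m = (∑ ω, p' ω * qf (b' ω) v ^ m) / μ' := by
        rw [Finset.sum_div]; exact Finset.sum_congr rfl fun ω _ => by ring
      rw [e, div_le_iff₀ hμ', mul_comm]; exact h' v) v
  have e : ∑ ω : Ω × Ω', (p ω.1 * p' ω.2) * qf (tens (b ω.1) (b' ω.2)) v ^ m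
      = (μ * μ') * ∑ ω : Ω × Ω', (p ω.1 / μ * (p' ω.2 / μ'))
        * qf (tens (b ω.1) (b' ω.2)) v ^ m := by
    rw [Finset.mul_sum]
    refine Finset.sum_congr rfl fun ω _ => ?_
    field_simp
  rw [e]
  exact mul_le_mul_of_nonneg_left key (by positivity)

theorem GoodB.prod {ι ι' : Type} [Fintype ι] [Fintype ι'] {E : Set ℕ} {μ μ' : ℕ → ℝ}
    {κ τ κ' τ' : ℝ} (hμ : ∀ m ∈ E, 0 < μ m) (hμ' : ∀ m ∈ E, 0 < μ' m)
    (h : GoodB ι E μ κ τ) (h' : GoodB ι' E μ' κ' τ') :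
    GoodB (ι × ι') E (fun m => μ m * μ' m) (κ * κ') (τ * τ') := by
  obtain ⟨K, A, Ω, R, _, _, _, _, c, x, M, p, b, h1, h2, h3, h4, h5, h6, h7⟩ := h
  obtain ⟨K', A', Ω', R', _, _, _, _, c', x', M', p', b', h1', h2', h3', h4', h5', h6', h7'⟩ := h'
  refine ⟨K × K', A × A', Ω × Ω', R × R', inferInstance, inferInstance, inferInstance,
    inferInstance, fun k => c k.1 * c' k.2, fun k i => x k.1 i.1 * x' k.2 i.2,
    fun a i j => M a.1 i.1 j.1 * M' a.2 i.2 j.2, fun ω => p ω.1 * p' ω.2,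
    fun ω => tens (b ω.1) (b' ω.2), ?_, ?_, ?_, ?_, ?_, ?_, ?_⟩
  · exact psd_tens c x M c' x' M' h1 h1'
  · have : ∑ k : K × K', c k.1 * c' k.2 * nsq (fun i : ι × ι' => x k.1 i.1 * x' k.2 i.2) ^ 2
        = (∑ k, c k * nsq (x k) ^ 2) * ∑ k', c' k' * nsq (x' k') ^ 2 := by
      rw [Fintype.sum_prod_type, Finset.sum_mul]
      refine Finset.sum_congr rfl fun k _ => ?_
      rw [Finset.mul_sum]
      refine Finset.sum_congr rfl fun k' _ => ?_
      rw [nsq_point]; ring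
    rw [this, h2, h2', mul_one]
  · exact fun ω => mul_nonneg (h3 _) (h3' _)
  · rw [Fintype.sum_prod_type]
    simp only [← Finset.mul_sum, h4', mul_one, h4]
  · exact fun m hm v => moment_tens' p h3 b p' h3' b' m (hμ m hm) (hμ' m hm) (h5 m hm)
      (h5' m hm) v
  · rw [← h6, ← h6', Fintype.sum_prod_type, Finset.sum_mul]
    refine Finset.sum_congr rfl fun ω _ => ?_
    rw [mul_assoc, Finset.mul_sum, Finset.mul_sum]
    refine Finset.sum_congr rfl fun ω' _ => ?_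
    have : ∑ k : K × K', c k.1 * c' k.2 *
        qf (tens (b ω) (b' ω')) (fun i : ι × ι' => x k.1 i.1 * x' k.2 i.2) ^ 2
        = (∑ k, c k * qf (b ω) (x k) ^ 2) * ∑ k', c' k' * qf (b' ω') (x' k') ^ 2 := by
      rw [Fintype.sum_prod_type, Finset.sum_mul]
      refine Finset.sum_congr rfl fun k _ => ?_
      rw [Finset.mul_sum]
      refine Finset.sum_congr rfl fun k' _ => ?_
      rw [qf_tens_point]; ring
    rw [this]; ring
  · rw [← h7, ← h7', Fintype.sum_prod_type, Finset.sum_mul]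
    refine Finset.sum_congr rfl fun ω _ => ?_
    rw [mul_assoc, Finset.mul_sum, Finset.mul_sum]
    refine Finset.sum_congr rfl fun ω' _ => ?_
    have : ∑ k : K × K', c k.1 * c' k.2 *
        (qf (tens (b ω) (b' ω')) (fun i : ι × ι' => x k.1 i.1 * x' k.2 i.2)
          * qf (gramM (tens (b ω) (b' ω'))) (fun i : ι × ι' => x k.1 i.1 * x' k.2 i.2))
        = (∑ k, c k * (qf (b ω) (x k) * qf (gramM (b ω)) (x k)))
          * ∑ k', c' k' * (qf (b' ω') (x' k') * qf (gramM (b' ω')) (x' k')) := by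
      rw [Fintype.sum_prod_type, Finset.sum_mul]
      refine Finset.sum_congr rfl fun k _ => ?_
      rw [Finset.mul_sum]
      refine Finset.sum_congr rfl fun k' _ => ?_
      rw [gramM_tens, qf_tens_point, qf_tens_point]; ring
    rw [this]; ring

/-- The trivial gadget. -/
theorem goodB_unit (E : Set ℕ) : GoodB Unit E (fun _ => 1) 1 1 := by
  refine ⟨Unit, Unit, Unit, Unit, inferInstance, inferInstance, inferInstance, inferInstance,
    fun _ => 1, fun _ _ => 1, fun _ _ _ => 1, fun _ => 1, fun _ _ _ => 1, ?_, ?_, ?_, ?_, ?_, ?_, ?_⟩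
  · intro Q; simp
  · simp [nsq]
  · intro _; norm_num
  · simp
  · intro m _ v; simp [qf, nsq]
  · simp [qf]
  · simp [qf, gramM]

/-- Tensor powers. -/
theorem GoodB.pow {ι : Type} [Fintype ι] {E : Set ℕ} {μ : ℕ → ℝ} {κ τ : ℝ}
    (hμ : ∀ m ∈ E, 0 < μ m) (h : GoodB ι E μ κ τ) (t : ℕ) :
    ∃ (J : Type) (_ : Fintype J), GoodB J E (fun m => μ m ^ t) (κ ^ t) (τ ^ t) := by
  induction t with
  | zero => exact ⟨Unit, inferInstance, by simpa using goodB_unit E⟩
  | succ t ih =>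
    obtain ⟨J, _, hG⟩ := ih
    refine ⟨J × ι, inferInstance, ?_⟩
    have h1 := hG.prod (fun m hm => pow_pos (hμ m hm) t) hμ h
    simpa only [pow_succ] using h1

end Pool.Agent.Lib.MP_06963d_lc
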