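import Mathlib
import Pool.Agent.Lib.MP_06963d_lc.CliffData
import Pool.Agent.Lib.MP_06963d_lc.GoodB

/-!
# The slot built from a Clifford system
-/

namespace Pool.Agent.Lib.MP_06963d_lc

open Finset Matrix
open scoped MatrixOrder ComplexOrder

/-- A nonnegative quadratic form has a Gram representation. -/
lemma exists_gram' {ι : Type} [Fintype ι] (S : ι → ι → ℝ) (hS : ∀ i j, S i j = S j i)
    (h : ∀ v : ι → ℝ, 0 ≤ ∑ i, ∑ j, S i j * v i * v j) :
    ∃ β : ι → ι → ℝ, gramM β = S := by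
  classical
  let M : Matrix ι ι ℝ := Matrix.of S
  have hq : ∀ v : ι → ℝ, dotProduct v (M.mulVec v) = ∑ i, ∑ j, S i j * v i * v j := by
    intro v
    simp only [dotProduct, Matrix.mulVec, M, Matrix.of_apply, Finset.mul_sum]
    refine Finset.sum_congr rfl fun i _ => Finset.sum_congr rfl fun j _ => ?_
    ring
  have hM : M.PosSemidef := by
    rw [Matrix.posSemidef_iff_dotProduct_mulVec]
    refine ⟨?_, ?_⟩
    · ext i j
      simp [M, Matrix.conjTranspose_apply, hS i j]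
    · intro v
      have : star v = v := by ext i; simp
      rw [this, hq]
      exact h v
  obtain ⟨B, hB⟩ := CStarAlgebra.nonneg_iff_eq_star_mul_self.mp hM.nonneg
  refine ⟨fun r i => B r i, ?_⟩
  funext i j
  have h1 : M i j = (star B * B) i j := by rw [hB]
  have h2 : M i j = S i j := rfl
  rw [← h2, h1, Matrix.mul_apply]
  simp [gramM]

lemma qf_gram {R ι : Type} [Fintype R] [Fintype ι] (b : R → ι → ℝ) (v : ι → ℝ) :
    qf b v = qv (gramM b) v := by
  rw [qf_expand]; rfl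

variable {ι : Type} [Fintype ι] [DecidableEq ι] {n : ℕ}

omit [DecidableEq ι] in
lemma qv_dot (P : Matrix ι ι ℝ) (v : ι → ℝ) : qv P v = v ⬝ᵥ (P *ᵥ v) := by
  simp only [qv, dotProduct, Matrix.mulVec, Finset.mul_sum]
  refine Finset.sum_congr rfl fun i _ => Finset.sum_congr rfl fun j _ => ?_
  ring

omit [DecidableEq ι] in
lemma nsq_dot (v : ι → ℝ) : nsq v = v ⬝ᵥ v := by
  simp only [nsq, dotProduct, sq]

/-- The sum of the squares of the forms `vᵀ P_a v` is at most `|v|^4`. -/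
lemma sum_sq_le (c : Clif ι n) (v : ι → ℝ) : ∑ a, (qv (c.P a) v) ^ 2 ≤ nsq v ^ 2 := by
  obtain ⟨y, hy⟩ : ∃ y : Fin n → ℝ, y = fun a => qv (c.P a) v := ⟨_, rfl⟩
  have hya : ∀ a, qv (c.P a) v = y a := fun a => by rw [hy]
  simp only [hya]
  obtain ⟨T, hT⟩ : ∃ T : Matrix ι ι ℝ, T = ∑ a, y a • c.P a := ⟨_, rfl⟩
  have hTt : Tᵀ = T := by
    rw [hT, Matrix.transpose_sum]
    refine Finset.sum_congr rfl fun a _ => ?_
    rw [Matrix.transpose_smul, c.symm]
  have hTT : T * T = (∑ a, y a ^ 2) • (1 : Matrix ι ι ℝ) := by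
    have e1 : T * T = ∑ a, ∑ b, (y a * y b) • (c.P a * c.P b) := by
      rw [hT, Finset.sum_mul_sum]
      refine Finset.sum_congr rfl fun a _ => Finset.sum_congr rfl fun b _ => ?_
      rw [Matrix.smul_mul, Matrix.mul_smul, smul_smul]
    have e2 : T * T = ∑ a, ∑ b, (y a * y b) • (c.P b * c.P a) := by
      rw [e1, Finset.sum_comm]
      refine Finset.sum_congr rfl fun a _ => Finset.sum_congr rfl fun b _ => ?_
      rw [mul_comm (y b)]
    have e3 : T * T + T * T = ∑ a, ∑ b, (y a * y b) • (c.P a * c.P b + c.P b * c.P a) := by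
      nth_rw 1 [e1]
      rw [e2, ← Finset.sum_add_distrib]
      refine Finset.sum_congr rfl fun a _ => ?_
      rw [← Finset.sum_add_distrib]
      refine Finset.sum_congr rfl fun b _ => ?_
      rw [smul_add]
    have e4 : ∀ a, ∑ b, (y a * y b) • (c.P a * c.P b + c.P b * c.P a)
        = (2 * y a ^ 2) • (1 : Matrix ι ι ℝ) := by
      intro a
      rw [Finset.sum_eq_single a]
      · rw [c.sq, ← two_smul ℝ (1 : Matrix ι ι ℝ), smul_smul]
        congr 1; ring
      · intro b _ hb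
        rw [c.anti a b (Ne.symm hb)]
        simp
      · intro h; exact absurd (Finset.mem_univ a) h
    simp only [e4] at e3
    rw [← Finset.sum_smul, ← Finset.mul_sum] at e3
    have e5 : (2 : ℝ) • (T * T) = (2 : ℝ) • ((∑ a, y a ^ 2) • (1 : Matrix ι ι ℝ)) := by
      rw [two_smul, e3, smul_smul]
    exact smul_right_injective _ (two_ne_zero' ℝ) e5
  have h1 : ∑ a, y a ^ 2 = v ⬝ᵥ (T *ᵥ v) := by
    have : ∀ a, y a ^ 2 = y a * (v ⬝ᵥ (c.P a *ᵥ v)) := fun a => by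
      rw [← qv_dot, hya, sq]
    simp only [this]
    rw [hT, Matrix.sum_mulVec, dotProduct_sum]
    refine Finset.sum_congr rfl fun a _ => ?_
    rw [Matrix.smul_mulVec, dotProduct_smul, smul_eq_mul]
  have h2 : (T *ᵥ v) ⬝ᵥ (T *ᵥ v) = (∑ a, y a ^ 2) * nsq v := by
    have e1 : (T *ᵥ v) ⬝ᵥ (T *ᵥ v) = v ⬝ᵥ ((T * T) *ᵥ v) := by
      rw [← Matrix.mulVec_mulVec, Matrix.dotProduct_mulVec v, ← Matrix.mulVec_transpose, hTt]
    rw [e1, hTT, Matrix.smul_mulVec, Matrix.one_mulVec, dotProduct_smul, smul_eq_mul,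
      nsq_dot]
  have h3 : (v ⬝ᵥ (T *ᵥ v)) ^ 2 ≤ nsq v * ((T *ᵥ v) ⬝ᵥ (T *ᵥ v)) := by
    rw [← nsq_dot (T *ᵥ v)]
    simp only [dotProduct, nsq]
    exact Finset.sum_mul_sq_le_sq_mul_sq _ _ _
  rw [← h1, h2] at h3
  obtain ⟨s, hs⟩ : ∃ s, s = ∑ a, y a ^ 2 := ⟨_, rfl⟩
  rw [← hs] at h3 ⊢
  have hs0 : 0 ≤ s := by rw [hs]; exact Finset.sum_nonneg fun a _ => sq_nonneg _
  rcases eq_or_lt_of_le hs0 with h | h
  · rw [← h]; positivity
  · have : s * s ≤ s * nsq v ^ 2 := by nlinarith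
    exact le_of_mul_le_mul_left this h

lemma abs_qv_le (c : Clif ι n) (a : Fin n) (v : ι → ℝ) : |qv (c.P a) v| ≤ nsq v := by
  have h1 : (qv (c.P a) v) ^ 2 ≤ nsq v ^ 2 :=
    (Finset.single_le_sum (f := fun b => (qv (c.P b) v) ^ 2) (fun b _ => sq_nonneg _)
      (Finset.mem_univ a)).trans (sum_sq_le c v)
  have h2 := abs_le_abs_of_sq_le_sq h1
  rwa [abs_of_nonneg (nsq_nonneg v)] at h2
where
  abs_le_abs_of_sq_le_sq {x y : ℝ} (h : x ^ 2 ≤ y ^ 2) : |x| ≤ |y| := sq_le_sq.mp h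

/-- Gram families for `1 + s P_a`. -/
lemma exists_shift (c : Clif ι n) (a : Fin n) (s : ℝ) (hs : |s| ≤ 1) :
    ∃ β : ι → ι → ℝ, gramM β = (1 : Matrix ι ι ℝ) + s • c.P a := by
  refine exists_gram' _ (fun i j => ?_) (fun v => ?_)
  · have h1 : ((1 : Matrix ι ι ℝ) + s • c.P a)ᵀ = (1 : Matrix ι ι ℝ) + s • c.P a := by
      rw [Matrix.transpose_add, Matrix.transpose_one, Matrix.transpose_smul, c.symm]
    have := congrFun (congrFun h1 j) i
    simpa [Matrix.transpose_apply] using this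
  · have e : ∑ i, ∑ j, ((1 : Matrix ι ι ℝ) + s • c.P a) i j * v i * v j
        = nsq v + s * qv (c.P a) v := by
      rw [← qv_one v]
      unfold qv
      rw [Finset.mul_sum, ← Finset.sum_add_distrib]
      refine Finset.sum_congr rfl fun i _ => ?_
      rw [Finset.mul_sum, ← Finset.sum_add_distrib]
      refine Finset.sum_congr rfl fun j _ => ?_
      simp only [Matrix.add_apply, Matrix.smul_apply, smul_eq_mul]
      ring
    rw [e]
    have h1 := abs_qv_le c a v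
    have h2 : |s * qv (c.P a) v| ≤ nsq v := by
      rw [abs_mul]
      calc |s| * |qv (c.P a) v| ≤ 1 * nsq v :=
            mul_le_mul hs h1 (abs_nonneg _) (by norm_num)
        _ = nsq v := one_mul _
    have := (abs_le.mp h2).1
    linarith

lemma qv_shift (c : Clif ι n) (a : Fin n) (s : ℝ) (v : ι → ℝ) :
    qv ((1 : Matrix ι ι ℝ) + s • c.P a) v = nsq v + s * qv (c.P a) v := by
  rw [← qv_one v]
  unfold qv
  rw [Finset.mul_sum, ← Finset.sum_add_distrib]
  refine Finset.sum_congr rfl fun i _ => ?_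
  rw [Finset.mul_sum, ← Finset.sum_add_distrib]
  refine Finset.sum_congr rfl fun j _ => ?_
  simp only [Matrix.add_apply, Matrix.smul_apply, smul_eq_mul]
  ring

/-- The square of the operator `1 + s P_a`. -/
lemma qf_shift_op (c : Clif ι n) (a : Fin n) (s : ℝ) (v : ι → ℝ) :
    qf ((1 : Matrix ι ι ℝ) + s • c.P a) v = (1 + s ^ 2) * nsq v + 2 * s * qv (c.P a) v := by
  have hS : ((1 : Matrix ι ι ℝ) + s • c.P a)ᵀ = (1 : Matrix ι ι ℝ) + s • c.P a := by
    rw [Matrix.transpose_add, Matrix.transpose_one, Matrix.transpose_smul, c.symm]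
  obtain ⟨S, hSd⟩ : ∃ S : Matrix ι ι ℝ, S = (1 : Matrix ι ι ℝ) + s • c.P a := ⟨_, rfl⟩
  rw [← hSd] at hS ⊢
  have h1 : qf S v = (S *ᵥ v) ⬝ᵥ (S *ᵥ v) := by
    simp only [qf, dotProduct, Matrix.mulVec, sq]
  have h2 : (S *ᵥ v) ⬝ᵥ (S *ᵥ v) = v ⬝ᵥ ((S * S) *ᵥ v) := by
    rw [← Matrix.mulVec_mulVec, Matrix.dotProduct_mulVec v, ← Matrix.mulVec_transpose, hS]
  have h3 : S * S = (1 + s ^ 2) • (1 : Matrix ι ι ℝ) + (2 * s) • c.P a := by
    rw [hSd]
    simp only [Matrix.add_mul, Matrix.mul_add, Matrix.one_mul, Matrix.mul_one, Matrix.smul_mul,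
      Matrix.mul_smul, c.sq]
    module
  rw [h1, h2, h3, Matrix.add_mulVec, Matrix.smul_mulVec, Matrix.smul_mulVec,
    Matrix.one_mulVec, dotProduct_add, dotProduct_smul, dotProduct_smul, ← nsq_dot, ← qv_dot,
    smul_eq_mul, smul_eq_mul]

/-- The slot. -/
theorem cliff_slot (N : ℕ) (hN : 2 ≤ N) :
    ∃ (ι : Type) (_ : Fintype ι) (Rv : ℝ), (N : ℝ) / 6 ≤ Rv ∧ Rv ≤ (N : ℝ) ^ 2 ∧
      GoodB ι {m | m ≤ N ^ 2} (fun m => 1 + m * (m - 1) / (N : ℝ) ^ 6)
        (1 + Rv / (N : ℝ) ^ 6) (1 + ((N : ℝ) ^ 2 + 2 * Rv) / (N : ℝ) ^ 6) := by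
  obtain ⟨ι, _, _, cl, K, _, c, x, hpe, hnorm, hR⟩ := cliff_pe N hN
  obtain ⟨M, hM⟩ := exists_gram_of_quad c x hpe
  obtain ⟨Rv, hRv⟩ : ∃ Rv : ℝ, Rv = ∑ a, ∑ k, c k * (qv (cl.P a) (x k)) ^ 2 := ⟨_, rfl⟩
  rw [← hRv] at hR
  have hN0 : (0 : ℝ) < N := by exact_mod_cast (by omega : 0 < N)
  have hN1 : (1 : ℝ) ≤ N := by exact_mod_cast (by omega : 1 ≤ N)
  have hcast : ((N ^ 2 : ℕ) : ℝ) = (N : ℝ) ^ 2 := by push_cast; rfl
  obtain ⟨h, hh⟩ : ∃ h : ℝ, h = 1 / (N : ℝ) ^ 2 := ⟨_, rfl⟩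
  have hh0 : 0 < h := by rw [hh]; positivity
  have hh1 : h ≤ 1 := by
    rw [hh, div_le_one (by positivity)]
    exact one_le_pow₀ hN1
  have hex : ∀ (a : Fin (N ^ 2)) (s : Bool), ∃ β : ι → ι → ℝ,
      gramM β = (1 : Matrix ι ι ℝ) + (if s then h else -h) • cl.P a := by
    intro a s
    refine exists_shift cl a _ ?_
    cases s
    · simp only [Bool.false_eq_true, if_false, abs_neg, abs_of_pos hh0]; exact hh1
    · simp only [if_true, abs_of_pos hh0]; exact hh1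
  choose β hβ using hex
  have hβt : ∀ a v, qf (β a true) v = nsq v + h * qv (cl.P a) v := fun a v => by
    rw [qf_gram, hβ]; simp only [if_true]; exact qv_shift cl a h v
  have hβf : ∀ a v, qf (β a false) v = nsq v - h * qv (cl.P a) v := fun a v => by
    rw [qf_gram, hβ]; simp only [Bool.false_eq_true, if_false]
    rw [qv_shift cl a (-h) v]; ring
  have hgt : ∀ a v, qf (gramM (β a true)) v = (1 + h ^ 2) * nsq v + 2 * h * qv (cl.P a) v :=
    fun a v => by
      rw [hβ]; simp only [if_true]; exact qf_shift_op cl a h v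
  have hgf : ∀ a v, qf (gramM (β a false)) v = (1 + h ^ 2) * nsq v - 2 * h * qv (cl.P a) v :=
    fun a v => by
      rw [hβ]; simp only [Bool.false_eq_true, if_false]
      rw [qf_shift_op cl a (-h) v]; ring
  -- each term of `Rv` is at most one
  have hRle : Rv ≤ (N : ℝ) ^ 2 := by
    have h1 : ∀ a : Fin (N ^ 2), ∑ k, c k * (qv (cl.P a) (x k)) ^ 2 ≤ 1 := by
      intro a
      obtain ⟨β1, hβ1⟩ := exists_shift cl a 1 (by norm_num)
      obtain ⟨β2, hβ2⟩ := exists_shift cl a (-1) (by norm_num)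
      have h2 := pe_mul_nonneg hpe β1 β2
      have h3 : ∑ k, c k * (qf β1 (x k) * qf β2 (x k))
          = ∑ k, c k * nsq (x k) ^ 2 - ∑ k, c k * (qv (cl.P a) (x k)) ^ 2 := by
        rw [← Finset.sum_sub_distrib]
        refine Finset.sum_congr rfl fun k _ => ?_
        rw [qf_gram, qf_gram, hβ1, hβ2]
        rw [show qv ((1 : Matrix ι ι ℝ) + (1 : ℝ) • cl.P a) (x k) = _ from qv_shift cl a 1 (x k),
          show qv ((1 : Matrix ι ι ℝ) + (-1 : ℝ) • cl.P a) (x k) = _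
            from qv_shift cl a (-1) (x k)]
        ring
      rw [h3, hnorm] at h2
      linarith
    rw [hRv]
    calc ∑ a, ∑ k, c k * (qv (cl.P a) (x k)) ^ 2 ≤ ∑ a : Fin (N ^ 2), (1 : ℝ) :=
          Finset.sum_le_sum fun a _ => h1 a
      _ = (N : ℝ) ^ 2 := by
          rw [Finset.sum_const, Finset.card_univ, Fintype.card_fin, nsmul_eq_mul, hcast, mul_one]
  refine ⟨ι, inferInstance, Rv, hR, hRle, K, ι × ι, Fin (N ^ 2) × Bool, ι, inferInstance,
    inferInstance, inferInstance, inferInstance, c, x, M,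
    fun _ => 1 / (2 * (N : ℝ) ^ 2), fun ω => β ω.1 ω.2, hM, hnorm,
    fun _ => by positivity, ?_, ?_, ?_, ?_⟩
  · rw [Finset.sum_const, Finset.card_univ, Fintype.card_prod, Fintype.card_fin,
      Fintype.card_bool, nsmul_eq_mul]
    push_cast
    field_simp
  · intro m hm v
    have hm' : m ≤ N ^ 2 := hm
    rw [Fintype.sum_prod_type]
    simp only [Fintype.sum_bool, hβt, hβf]
    have hm0 : (0 : ℝ) ≤ (m : ℝ) * (m - 1) := by
      rcases Nat.eq_zero_or_pos m with h0 | h0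
      · rw [h0]; simp
      · have : (1 : ℝ) ≤ m := by exact_mod_cast h0
        exact mul_nonneg (by linarith) (by linarith)
    have hμ1 : (1 : ℝ) ≤ 1 + m * (m - 1) / (N : ℝ) ^ 6 := by
      have : 0 ≤ (m : ℝ) * (m - 1) / (N : ℝ) ^ 6 := div_nonneg hm0 (by positivity)
      linarith
    by_cases hn : nsq v = 0
    · have hy : ∀ a, qv (cl.P a) v = 0 := fun a => by
        have := abs_qv_le cl a v
        rw [hn] at this
        exact abs_eq_zero.mp (le_antisymm this (abs_nonneg _))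
      simp only [hn, hy, mul_zero, add_zero, sub_zero]
      rw [Finset.sum_const, Finset.card_univ, Fintype.card_fin, nsmul_eq_mul, hcast]
      have h0 : (0 : ℝ) ≤ 0 ^ m := by positivity
      have e : (N : ℝ) ^ 2 * (1 / (2 * (N : ℝ) ^ 2) * 0 ^ m + 1 / (2 * (N : ℝ) ^ 2) * 0 ^ m)
          = 0 ^ m := by field_simp; ring
      rw [e]
      nlinarith
    have hn0 : 0 < nsq v := lt_of_le_of_ne (nsq_nonneg v) (Ne.symm hn)
    set ν := nsq v with hν
    have step : ∀ a, 1 / (2 * (N : ℝ) ^ 2) * (ν + h * qv (cl.P a) v) ^ m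
        + 1 / (2 * (N : ℝ) ^ 2) * (ν - h * qv (cl.P a) v) ^ m
        ≤ 1 / (N : ℝ) ^ 2 * (ν ^ m * (1 + m * (m - 1) * (h ^ 2 * (qv (cl.P a) v) ^ 2 / ν ^ 2))) := by
      intro a
      have h1 := abs_qv_le cl a v
      have h2 : ((N ^ 2 : ℕ) : ℝ) * (h * |qv (cl.P a) v|) ≤ ν := by
        rw [hcast, ← mul_assoc, hh]
        have : (N : ℝ) ^ 2 * (1 / (N : ℝ) ^ 2) = 1 := by field_simp
        rw [this, one_mul]
        exact h1
      have h3 := even_part_bound' (N ^ 2) ν (h * |qv (cl.P a) v|) hn0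
        (mul_nonneg hh0.le (abs_nonneg _)) h2 m hm'
      have h4 : ((ν + h * |qv (cl.P a) v|) ^ m + (ν - h * |qv (cl.P a) v|) ^ m)
          = ((ν + h * qv (cl.P a) v) ^ m + (ν - h * qv (cl.P a) v) ^ m) := by
        rcases abs_choice (qv (cl.P a) v) with h5 | h5
        · rw [h5]
        · rw [h5]
          have e1 : ν + h * -qv (cl.P a) v = ν - h * qv (cl.P a) v := by ring
          have e2 : ν - h * -qv (cl.P a) v = ν + h * qv (cl.P a) v := by ring
          rw [e1, e2, add_comm]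
      rw [h4, div_pow, mul_pow, sq_abs] at h3
      have h6 := mul_le_mul_of_nonneg_left h3 (by positivity : 0 ≤ 1 / (N : ℝ) ^ 2)
      calc _ = 1 / (N : ℝ) ^ 2 * (((ν + h * qv (cl.P a) v) ^ m
            + (ν - h * qv (cl.P a) v) ^ m) / 2) := by ring
        _ ≤ _ := h6
    calc ∑ a, (1 / (2 * (N : ℝ) ^ 2) * (ν + h * qv (cl.P a) v) ^ m
        + 1 / (2 * (N : ℝ) ^ 2) * (ν - h * qv (cl.P a) v) ^ m)
        ≤ ∑ a, 1 / (N : ℝ) ^ 2 * (ν ^ m
          * (1 + m * (m - 1) * (h ^ 2 * (qv (cl.P a) v) ^ 2 / ν ^ 2))) :=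
          Finset.sum_le_sum fun a _ => step a
      _ = ν ^ m * (1 + m * (m - 1) * (1 / (N : ℝ) ^ 2 * h ^ 2 / ν ^ 2
          * ∑ a, (qv (cl.P a) v) ^ 2)) := by
          rw [← Finset.mul_sum, ← Finset.mul_sum, Finset.sum_add_distrib, ← Finset.mul_sum,
            Finset.sum_const, Finset.card_univ, Fintype.card_fin, nsmul_eq_mul, hcast,
            ← Finset.sum_div, ← Finset.mul_sum]
          field_simp
      _ ≤ ν ^ m * (1 + m * (m - 1) * (1 / (N : ℝ) ^ 2 * h ^ 2 / ν ^ 2 * ν ^ 2)) := by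
          have h1 := mul_le_mul_of_nonneg_left (sum_sq_le cl v)
            (by positivity : 0 ≤ 1 / (N : ℝ) ^ 2 * h ^ 2 / ν ^ 2)
          have h2 := mul_le_mul_of_nonneg_left h1 hm0
          refine mul_le_mul_of_nonneg_left ?_ (by positivity)
          linarith
      _ = (1 + m * (m - 1) / (N : ℝ) ^ 6) * ν ^ m := by
          rw [hh]; field_simp
  · rw [Fintype.sum_prod_type]
    simp only [Fintype.sum_bool, hβt, hβf]
    have step : ∀ a, 1 / (2 * (N : ℝ) ^ 2) * ∑ k, c k * (nsq (x k) + h * qv (cl.P a) (x k)) ^ 2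
        + 1 / (2 * (N : ℝ) ^ 2) * ∑ k, c k * (nsq (x k) - h * qv (cl.P a) (x k)) ^ 2
        = 1 / (N : ℝ) ^ 2 * (1 + h ^ 2 * ∑ k, c k * (qv (cl.P a) (x k)) ^ 2) := by
      intro a
      rw [← hnorm, Finset.mul_sum, Finset.mul_sum, ← Finset.sum_add_distrib, Finset.mul_sum,
        ← Finset.sum_add_distrib, Finset.mul_sum]
      refine Finset.sum_congr rfl fun k _ => ?_
      ring
    simp only [step]
    rw [← Finset.mul_sum, Finset.sum_add_distrib, ← Finset.mul_sum, ← hRv, Finset.sum_const,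
      Finset.card_univ, Fintype.card_fin, nsmul_eq_mul, hcast, hh]
    field_simp
  · rw [Fintype.sum_prod_type]
    simp only [Fintype.sum_bool, hβt, hβf, hgt, hgf]
    have step : ∀ a, 1 / (2 * (N : ℝ) ^ 2) * ∑ k, c k * ((nsq (x k) + h * qv (cl.P a) (x k))
          * ((1 + h ^ 2) * nsq (x k) + 2 * h * qv (cl.P a) (x k)))
        + 1 / (2 * (N : ℝ) ^ 2) * ∑ k, c k * ((nsq (x k) - h * qv (cl.P a) (x k))
          * ((1 + h ^ 2) * nsq (x k) - 2 * h * qv (cl.P a) (x k)))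
        = 1 / (N : ℝ) ^ 2 * ((1 + h ^ 2) + 2 * h ^ 2 * ∑ k, c k * (qv (cl.P a) (x k)) ^ 2) := by
      intro a
      have e : (1 + h ^ 2 : ℝ) = (1 + h ^ 2) * ∑ k, c k * nsq (x k) ^ 2 := by rw [hnorm, mul_one]
      rw [Finset.mul_sum, Finset.mul_sum, ← Finset.sum_add_distrib]
      nth_rw 3 [e]
      rw [Finset.mul_sum, Finset.mul_sum, ← Finset.sum_add_distrib, Finset.mul_sum]
      refine Finset.sum_congr rfl fun k _ => ?_
      ring
    simp only [step]
    rw [← Finset.mul_sum, Finset.sum_add_distrib, ← Finset.mul_sum, ← hRv, Finset.sum_const,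
      Finset.card_univ, Fintype.card_fin, nsmul_eq_mul, hcast, hh]
    field_simp
    ring

end Pool.Agent.Lib.MP_06963d_lc
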