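import Mathlib

/-!
# Rademacher sums: mean, fourth moment and Khintchine's inequality for even moments
-/

namespace Pool.Agent.Lib.MP_06963d_lc

open Finset

/-- the sign attached to `r` by the set `T` -/
noncomputable def sg {R : Type} (T : Finset R) (r : R) : ℝ := by
  classical exact if r ∈ T then 1 else -1

lemma sg_insert_self {R : Type} [DecidableEq R] (T : Finset R) (a : R) :
    sg (insert a T) a = 1 := by
  unfold sg; simp

lemma sg_of_notMem {R : Type} {T : Finset R} {a : R} (h : a ∉ T) : sg T a = -1 := by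
  unfold sg; simp [h]

lemma sg_insert_of_ne {R : Type} [DecidableEq R] (T : Finset R) {a r : R} (h : r ≠ a) :
    sg (insert a T) r = sg T r := by
  unfold sg; simp [h]

/-- splitting a sum over sign patterns -/
lemma sum_powerset_split {R : Type} [DecidableEq R] (u : R → ℝ) (f : ℝ → ℝ) {a : R}
    {s : Finset R} (ha : a ∉ s) :
    ∑ T ∈ (insert a s).powerset, f (∑ r ∈ insert a s, sg T r * u r)
      = ∑ T ∈ s.powerset, (f ((∑ r ∈ s, sg T r * u r) - u a)
          + f ((∑ r ∈ s, sg T r * u r) + u a)) := by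
  rw [Finset.sum_powerset_insert ha, ← Finset.sum_add_distrib]
  refine Finset.sum_congr rfl fun T hT => ?_
  have hT' : a ∉ T := fun h => ha (Finset.mem_powerset.mp hT h)
  rw [Finset.sum_insert ha, Finset.sum_insert ha, sg_of_notMem hT', sg_insert_self]
  have : ∑ r ∈ s, sg (insert a T) r * u r = ∑ r ∈ s, sg T r * u r := by
    refine Finset.sum_congr rfl fun r hr => ?_
    rw [sg_insert_of_ne]
    rintro rfl
    exact ha hr
  rw [this]
  congr 2 <;> ring

lemma rad_mean {R : Type} (u : R → ℝ) (s : Finset R) :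
    ∑ T ∈ s.powerset, (∑ r ∈ s, sg T r * u r) = 0 := by
  classical
  induction s using Finset.induction_on with
  | empty => simp
  | insert a s ha ih =>
    rw [sum_powerset_split u (fun x => x) ha]
    have : ∀ T ∈ s.powerset, ((∑ r ∈ s, sg T r * u r) - u a + ((∑ r ∈ s, sg T r * u r) + u a))
        = 2 * ∑ r ∈ s, sg T r * u r := fun T _ => by ring
    rw [Finset.sum_congr rfl this, ← Finset.mul_sum, ih, mul_zero]

lemma rad_second {R : Type} (u : R → ℝ) (s : Finset R) :
    ∑ T ∈ s.powerset, (∑ r ∈ s, sg T r * u r) ^ 2 = 2 ^ s.card * ∑ r ∈ s, u r ^ 2 := by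
  classical
  induction s using Finset.induction_on with
  | empty => simp
  | insert a s ha ih =>
    rw [sum_powerset_split u (fun x => x ^ 2) ha]
    have : ∀ T ∈ s.powerset, (((∑ r ∈ s, sg T r * u r) - u a) ^ 2
        + ((∑ r ∈ s, sg T r * u r) + u a) ^ 2)
        = 2 * (∑ r ∈ s, sg T r * u r) ^ 2 + 2 * u a ^ 2 := fun T _ => by ring
    rw [Finset.sum_congr rfl this, Finset.sum_add_distrib, ← Finset.mul_sum, ih,
      Finset.sum_const, Finset.card_powerset, Finset.card_insert_of_notMem ha,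
      Finset.sum_insert ha, nsmul_eq_mul]
    push_cast
    ring

lemma rad_fourth {R : Type} (u : R → ℝ) (s : Finset R) :
    ∑ T ∈ s.powerset, (∑ r ∈ s, sg T r * u r) ^ 4
      = 2 ^ s.card * (3 * (∑ r ∈ s, u r ^ 2) ^ 2 - 2 * ∑ r ∈ s, u r ^ 4) := by
  classical
  induction s using Finset.induction_on with
  | empty => simp
  | insert a s ha ih =>
    rw [sum_powerset_split u (fun x => x ^ 4) ha]
    have : ∀ T ∈ s.powerset, (((∑ r ∈ s, sg T r * u r) - u a) ^ 4
        + ((∑ r ∈ s, sg T r * u r) + u a) ^ 4)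
        = 2 * (∑ r ∈ s, sg T r * u r) ^ 4
          + 12 * u a ^ 2 * (∑ r ∈ s, sg T r * u r) ^ 2 + 2 * u a ^ 4 := fun T _ => by ring
    rw [Finset.sum_congr rfl this, Finset.sum_add_distrib, Finset.sum_add_distrib,
      ← Finset.mul_sum, ← Finset.mul_sum, ih, rad_second,
      Finset.sum_const, Finset.card_powerset, Finset.card_insert_of_notMem ha,
      Finset.sum_insert ha, Finset.sum_insert ha, nsmul_eq_mul]
    push_cast
    ring

/-- the even Gaussian moments -/
noncomputable def gm (k : ℕ) : ℝ := ((2 * k).factorial : ℝ) / (2 ^ k * k.factorial)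

lemma gm_pos (k : ℕ) : 0 < gm k := by
  unfold gm; positivity

lemma two_pow_mul_factorial_le (j : ℕ) : 2 ^ j * j.factorial ≤ (2 * j).factorial := by
  induction j with
  | zero => simp
  | succ j ih =>
    have e : (2 * (j + 1)).factorial = (2 * j + 2) * ((2 * j + 1) * (2 * j).factorial) := by
      rw [show 2 * (j + 1) = (2 * j + 1) + 1 by ring, Nat.factorial_succ, Nat.factorial_succ]
    rw [e, Nat.factorial_succ, pow_succ]
    calc 2 ^ j * 2 * ((j + 1) * j.factorial) = (2 * j + 2) * (1 * (2 ^ j * j.factorial)) := by ring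
      _ ≤ (2 * j + 2) * ((2 * j + 1) * (2 * j).factorial) := by
        refine Nat.mul_le_mul_left _ (Nat.mul_le_mul (by omega) ih)

lemma choose_gm_le {k j : ℕ} (hj : j ≤ k) :
    ((2 * k).choose (2 * j) : ℝ) * gm (k - j) ≤ gm k * (k.choose j : ℝ) := by
  obtain ⟨l, rfl⟩ := Nat.exists_eq_add_of_le hj
  rw [Nat.add_sub_cancel_left]
  have h1 : ((2 * (j + l)).choose (2 * j) : ℝ)
      = (2 * (j + l)).factorial / ((2 * j).factorial * (2 * l).factorial) := by
    rw [Nat.cast_choose ℝ (by omega : 2 * j ≤ 2 * (j + l))]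
    congr 3
    have : 2 * (j + l) - 2 * j = 2 * l := by omega
    rw [this]
  have h2 : ((j + l).choose j : ℝ) = (j + l).factorial / (j.factorial * l.factorial) := by
    rw [Nat.cast_choose ℝ (by omega : j ≤ j + l), Nat.add_sub_cancel_left]
  have h3 : ((2 : ℝ) ^ j * j.factorial) ≤ (2 * j).factorial := by
    exact_mod_cast two_pow_mul_factorial_le j
  rw [h1, h2]
  unfold gm
  have e1 : ((2 * (j + l)).factorial : ℝ) / ((2 * j).factorial * (2 * l).factorial)
      * ((2 * l).factorial / (2 ^ l * l.factorial))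
      = (2 * (j + l)).factorial / ((2 * j).factorial * (2 ^ l * l.factorial)) := by
    have : ((2 * l).factorial : ℝ) ≠ 0 := by positivity
    have : ((2 * j).factorial : ℝ) ≠ 0 := by positivity
    field_simp
  have e2 : ((2 * (j + l)).factorial : ℝ) / (2 ^ (j + l) * (j + l).factorial)
      * ((j + l).factorial / (j.factorial * l.factorial))
      = (2 * (j + l)).factorial / ((2 ^ j * j.factorial) * (2 ^ l * l.factorial)) := by
    have : ((j + l).factorial : ℝ) ≠ 0 := by positivity
    have : (j.factorial : ℝ) ≠ 0 := by positivity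
    have : (l.factorial : ℝ) ≠ 0 := by positivity
    rw [pow_add]
    field_simp
  rw [e1, e2]
  refine div_le_div_of_nonneg_left (by positivity) (by positivity) ?_
  exact mul_le_mul_of_nonneg_right h3 (by positivity)

lemma sum_range_even_odd (f : ℕ → ℝ) (k : ℕ) :
    ∑ m ∈ range (2 * k + 1), f m
      = ∑ j ∈ range (k + 1), f (2 * j) + ∑ j ∈ range k, f (2 * j + 1) := by
  induction k with
  | zero => simp
  | succ k ih =>
    rw [show 2 * (k + 1) + 1 = (2 * k + 1) + 1 + 1 by ring, Finset.sum_range_succ,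
      Finset.sum_range_succ, ih, Finset.sum_range_succ (fun j => f (2 * j)) (k + 1),
      Finset.sum_range_succ (fun j => f (2 * j + 1)) k]
    have : 2 * (k + 1) = 2 * k + 1 + 1 := by ring
    rw [this]
    ring

lemma even_binomial (S u : ℝ) (k : ℕ) :
    (S - u) ^ (2 * k) + (S + u) ^ (2 * k)
      = 2 * ∑ j ∈ range (k + 1), ((2 * k).choose (2 * j) : ℝ) * (u ^ 2) ^ j * S ^ (2 * (k - j)) := by
  have e1 : (S - u) ^ (2 * k) = (-u + S) ^ (2 * k) := by ring
  have e2 : (S + u) ^ (2 * k) = (u + S) ^ (2 * k) := by ring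
  rw [e1, e2, add_pow, add_pow, sum_range_even_odd, sum_range_even_odd, Finset.mul_sum]
  have h1 : ∀ j ∈ range k, (-u) ^ (2 * j + 1) * S ^ (2 * k - (2 * j + 1))
      * ((2 * k).choose (2 * j + 1) : ℝ)
      = - (u ^ (2 * j + 1) * S ^ (2 * k - (2 * j + 1)) * ((2 * k).choose (2 * j + 1) : ℝ)) := by
    intro j _
    rw [Odd.neg_pow ⟨j, rfl⟩]; ring
  rw [Finset.sum_congr rfl h1, Finset.sum_neg_distrib]
  have h2 : ∀ j ∈ range (k + 1), (-u) ^ (2 * j) * S ^ (2 * k - 2 * j)
      * ((2 * k).choose (2 * j) : ℝ)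
      = ((2 * k).choose (2 * j) : ℝ) * (u ^ 2) ^ j * S ^ (2 * (k - j)) := by
    intro j _
    rw [Even.neg_pow ⟨j, by ring⟩, pow_mul, Nat.mul_sub]; ring
  have h3 : ∀ j ∈ range (k + 1), u ^ (2 * j) * S ^ (2 * k - 2 * j)
      * ((2 * k).choose (2 * j) : ℝ)
      = ((2 * k).choose (2 * j) : ℝ) * (u ^ 2) ^ j * S ^ (2 * (k - j)) := by
    intro j _
    rw [pow_mul, Nat.mul_sub]; ring
  rw [Finset.sum_congr rfl h2, Finset.sum_congr rfl h3, ← Finset.mul_sum]
  ring

/-- Khintchine's inequality for even moments with the Gaussian constant. -/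
lemma khintchine {R : Type} (u : R → ℝ) (s : Finset R) (k : ℕ) :
    ∑ T ∈ s.powerset, (∑ r ∈ s, sg T r * u r) ^ (2 * k)
      ≤ 2 ^ s.card * (gm k * (∑ r ∈ s, u r ^ 2) ^ k) := by
  classical
  induction s using Finset.induction_on generalizing k with
  | empty =>
    rcases Nat.eq_zero_or_pos k with rfl | hk
    · simp [gm]
    · have : k ≠ 0 := by omega
      simp [this]
  | insert a s ha ih =>
    rw [sum_powerset_split u (fun x => x ^ (2 * k)) ha]
    set N := ∑ r ∈ s, u r ^ 2 with hN
    have hN0 : 0 ≤ N := Finset.sum_nonneg fun _ _ => sq_nonneg _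
    calc ∑ T ∈ s.powerset, (((∑ r ∈ s, sg T r * u r) - u a) ^ (2 * k)
          + ((∑ r ∈ s, sg T r * u r) + u a) ^ (2 * k))
        = ∑ j ∈ range (k + 1), 2 * (((2 * k).choose (2 * j) : ℝ) * (u a ^ 2) ^ j *
            ∑ T ∈ s.powerset, (∑ r ∈ s, sg T r * u r) ^ (2 * (k - j))) := by
          simp only [even_binomial, Finset.mul_sum]
          rw [Finset.sum_comm]
      _ ≤ ∑ j ∈ range (k + 1), 2 * (((2 * k).choose (2 * j) : ℝ) * (u a ^ 2) ^ j *
            (2 ^ s.card * (gm (k - j) * N ^ (k - j)))) := by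
          refine Finset.sum_le_sum fun j _ => ?_
          refine mul_le_mul_of_nonneg_left ?_ (by norm_num)
          exact mul_le_mul_of_nonneg_left (ih (k - j)) (by positivity)
      _ ≤ ∑ j ∈ range (k + 1), 2 ^ (s.card + 1) * (gm k * ((u a ^ 2) ^ j * N ^ (k - j)
            * (k.choose j : ℝ))) := by
          refine Finset.sum_le_sum fun j hj => ?_
          have hj' : j ≤ k := by simpa [Nat.lt_succ_iff] using hj
          have h1 := choose_gm_le hj'
          have h2 : 0 ≤ (u a ^ 2) ^ j * N ^ (k - j) := by positivity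
          have h3 := mul_le_mul_of_nonneg_left h1 h2
          have h4 := mul_le_mul_of_nonneg_left h3 (by positivity : (0 : ℝ) ≤ 2 ^ (s.card + 1))
          calc 2 * (((2 * k).choose (2 * j) : ℝ) * (u a ^ 2) ^ j *
                (2 ^ s.card * (gm (k - j) * N ^ (k - j))))
              = 2 ^ (s.card + 1) * ((u a ^ 2) ^ j * N ^ (k - j)
                * (((2 * k).choose (2 * j) : ℝ) * gm (k - j))) := by ring
            _ ≤ _ := h4
            _ = _ := by ring
      _ = 2 ^ (insert a s).card * (gm k * (∑ r ∈ insert a s, u r ^ 2) ^ k) := by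
          rw [← Finset.mul_sum, ← Finset.mul_sum, ← add_pow, Finset.card_insert_of_notMem ha,
            Finset.sum_insert ha]

/-- `gm` is the double factorial -/
lemma gm_eq {k : ℕ} (hk : 1 ≤ k) : gm k = ((2 * k - 1).doubleFactorial : ℝ) := by
  obtain ⟨l, rfl⟩ := Nat.exists_eq_add_of_le' hk
  have h1 : (2 * (l + 1)).factorial
      = (2 * (l + 1)).doubleFactorial * (2 * (l + 1) - 1).doubleFactorial := by
    have : 2 * (l + 1) = (2 * l + 1) + 1 := by ring
    rw [this, Nat.factorial_eq_mul_doubleFactorial]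
    rfl
  unfold gm
  rw [h1, Nat.doubleFactorial_two_mul]
  push_cast
  have : ((l + 1).factorial : ℝ) ≠ 0 := by positivity
  field_simp

end Pool.Agent.Lib.MP_06963d_lc
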