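import Mathlib

/-!
# Sums of squares of polynomials representing a quartic form
-/

namespace Pool.Agent.Lib.MP_06963d_lc

open Finset

/-- restriction of a polynomial to the line through the origin in direction `v` -/
noncomputable def line {d : ℕ} (v : Fin d → ℝ) :
    MvPolynomial (Fin d) ℝ →ₐ[ℝ] Polynomial ℝ :=
  MvPolynomial.aeval fun i => Polynomial.C (v i) * Polynomial.X

lemma line_C {d : ℕ} (v : Fin d → ℝ) (a : ℝ) :
    line v (MvPolynomial.C a) = Polynomial.C a := by
  simp [line]

lemma line_X {d : ℕ} (v : Fin d → ℝ) (i : Fin d) :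
    line v (MvPolynomial.X i) = Polynomial.C (v i) * Polynomial.X := by
  simp [line]

/-- the coefficients of degree `0, 1, 2` on lines are a constant, a linear form and a quadratic
form -/
lemma exists_low {d : ℕ} (r : MvPolynomial (Fin d) ℝ) :
    ∃ (a : ℝ) (b : Fin d → ℝ) (A : Fin d → Fin d → ℝ), ∀ v : Fin d → ℝ,
      (line v r).coeff 0 = a ∧ (line v r).coeff 1 = ∑ i, b i * v i ∧
        (line v r).coeff 2 = ∑ i, ∑ j, A i j * v i * v j := by
  induction r using MvPolynomial.induction_on with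
  | C c =>
    refine ⟨c, 0, 0, fun v => ?_⟩
    rw [line_C]
    simp [Polynomial.coeff_C]
  | add p q hp hq =>
    obtain ⟨a, b, A, h⟩ := hp
    obtain ⟨a', b', A', h'⟩ := hq
    refine ⟨a + a', b + b', A + A', fun v => ?_⟩
    obtain ⟨h0, h1, h2⟩ := h v
    obtain ⟨h0', h1', h2'⟩ := h' v
    rw [map_add, Polynomial.coeff_add, Polynomial.coeff_add, Polynomial.coeff_add, h0, h1, h2,
      h0', h1', h2']
    refine ⟨rfl, ?_, ?_⟩
    · rw [← Finset.sum_add_distrib]
      exact Finset.sum_congr rfl fun i _ => by simp only [Pi.add_apply]; ring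
    · rw [← Finset.sum_add_distrib]
      refine Finset.sum_congr rfl fun i _ => ?_
      rw [← Finset.sum_add_distrib]
      exact Finset.sum_congr rfl fun j _ => by simp only [Pi.add_apply]; ring
  | mul_X p n hp =>
    obtain ⟨a, b, A, h⟩ := hp
    refine ⟨0, fun i => if i = n then a else 0, fun i j => if j = n then b i else 0,
      fun v => ?_⟩
    obtain ⟨h0, h1, _⟩ := h v
    have e : line v (p * MvPolynomial.X n)
        = Polynomial.C (v n) * (line v p) * Polynomial.X := by
      rw [map_mul, line_X]; ring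
    rw [e]
    refine ⟨by simp, ?_, ?_⟩
    · rw [Polynomial.coeff_mul_X, Polynomial.coeff_C_mul, h0]
      simp [mul_comm]
    · rw [Polynomial.coeff_mul_X, Polynomial.coeff_C_mul, h1, Finset.mul_sum]
      refine Finset.sum_congr rfl fun i _ => ?_
      simp only [ite_mul, zero_mul, Finset.sum_ite_eq', Finset.mem_univ, if_true]
      ring

/-- one-variable statement -/
lemma coeff_two_of_sum_sq {n : ℕ} (g : Fin n → Polynomial ℝ) (c : ℝ)
    (h : Polynomial.C c * Polynomial.X ^ 4 = ∑ j, g j ^ 2) :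
    c = ∑ j, (g j).coeff 2 ^ 2 := by
  have c0 : ∀ p : Polynomial ℝ, (p ^ 2).coeff 0 = p.coeff 0 ^ 2 := by
    intro p; simp [sq]
  have c2 : ∀ p : Polynomial ℝ, (p ^ 2).coeff 2 = 2 * (p.coeff 0 * p.coeff 2) + p.coeff 1 ^ 2 := by
    intro p
    rw [sq, Polynomial.coeff_mul]
    simp [Finset.Nat.antidiagonal_succ]
    ring
  have c4 : ∀ p : Polynomial ℝ, (p ^ 2).coeff 4 = 2 * (p.coeff 0 * p.coeff 4)
      + 2 * (p.coeff 1 * p.coeff 3) + p.coeff 2 ^ 2 := by
    intro p
    rw [sq, Polynomial.coeff_mul]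
    simp [Finset.Nat.antidiagonal_succ]
    ring
  have h0 : ∀ j, (g j).coeff 0 = 0 := by
    have e := congrArg (fun p => Polynomial.coeff p 0) h
    simp only [Polynomial.finset_sum_coeff, c0] at e
    have e' : ∑ j, (g j).coeff 0 ^ 2 = 0 := by
      rw [← e]; simp
    intro j
    have := (Finset.sum_eq_zero_iff_of_nonneg (fun j _ => sq_nonneg ((g j).coeff 0))).mp e' j
      (mem_univ j)
    simpa using this
  have h1 : ∀ j, (g j).coeff 1 = 0 := by
    have e := congrArg (fun p => Polynomial.coeff p 2) h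
    simp only [Polynomial.finset_sum_coeff, c2, h0, zero_mul, mul_zero, zero_add] at e
    have e' : ∑ j, (g j).coeff 1 ^ 2 = 0 := by
      rw [← e]; simp [Polynomial.coeff_X_pow]
    intro j
    have := (Finset.sum_eq_zero_iff_of_nonneg (fun j _ => sq_nonneg ((g j).coeff 1))).mp e' j
      (mem_univ j)
    simpa using this
  have e := congrArg (fun p => Polynomial.coeff p 4) h
  simp only [Polynomial.finset_sum_coeff, c4, h0, h1, zero_mul, mul_zero, zero_add] at e
  rw [← e]
  simp

/-- If a quartic form is a sum of squares of polynomials then it is a sum of squares of quadratic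
forms. -/
lemma exists_quadratic {d : ℕ} (F : MvPolynomial (Fin d) ℝ) (f : (Fin d → ℝ) → ℝ)
    (hF : ∀ v, line v F = Polynomial.C (f v) * Polynomial.X ^ 4)
    {n : ℕ} (r : Fin n → MvPolynomial (Fin d) ℝ) (h : F = ∑ j, r j ^ 2) :
    ∃ A : Fin n → Fin d → Fin d → ℝ, ∀ v, f v = ∑ j, (∑ i, ∑ k, A j i k * v i * v k) ^ 2 := by
  choose a b A hA using fun j => exists_low (r j)
  refine ⟨A, fun v => ?_⟩
  have h1 := hF v
  rw [h, map_sum] at h1
  have h2 := coeff_two_of_sum_sq (fun j => line v (r j)) (f v) (by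
    rw [← h1]
    exact Finset.sum_congr rfl fun j _ => map_pow _ _ _)
  rw [h2]
  exact Finset.sum_congr rfl fun j _ => by rw [(hA j v).2.2]

end Pool.Agent.Lib.MP_06963d_lc
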