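import Mathlib

/-!
# A degree-4 sum-of-squares bound for fourth moments, with the square root of the dimension

If `E⟨v,Y⟩⁴ ≤ M|v|⁴` and `E|Y|²⟨v,Y⟩² ≤ L|v|²` for all `v`, then `b|v|⁴ - E⟨v,Y⟩⁴` is a sum of squares of
polynomials whenever `M L ≤ b²`, `b > 0`.
-/

set_option autoImplicit false

namespace Pool.Agent.Lib.MP_06963d_lc.SqrtCore

open Finset MeasureTheory MvPolynomial
open scoped MatrixOrder

/-- A real polynomial is a finite sum of squares of real polynomials. -/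
def IsSoS {σ : Type*} (q : MvPolynomial σ ℝ) : Prop :=
  ∃ (n : ℕ) (r : Fin n → MvPolynomial σ ℝ), q = ∑ j, r j ^ 2

theorem IsSoS.of_fintype {σ ι : Type*} [Fintype ι] (r : ι → MvPolynomial σ ℝ) : IsSoS (∑ j, r j ^ 2) := by
  classical
  refine ⟨Fintype.card ι, fun k => r ((Fintype.equivFin ι).symm k), ?_⟩
  exact ((Fintype.equivFin ι).symm.sum_comp fun j => r j ^ 2).symm

theorem IsSoS.add {σ : Type*} {p q : MvPolynomial σ ℝ} (hp : IsSoS p) (hq : IsSoS q) : IsSoS (p + q) := by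
  obtain ⟨n, r, rfl⟩ := hp
  obtain ⟨m, t, rfl⟩ := hq
  have h := IsSoS.of_fintype (ι := Fin n ⊕ Fin m) (Sum.elim r t)
  rwa [Fintype.sum_sum_type] at h

theorem IsSoS.smul {σ : Type*} {p : MvPolynomial σ ℝ} (hp : IsSoS p) {c : ℝ} (hc : 0 ≤ c) : IsSoS (C c * p) := by
  obtain ⟨n, r, rfl⟩ := hp
  refine ⟨n, fun j => C (Real.sqrt c) * r j, ?_⟩
  rw [Finset.mul_sum]
  refine Finset.sum_congr rfl fun j _ => ?_
  rw [mul_pow, ← map_pow, Real.sq_sqrt hc]

/-- A positive semidefinite combination of products is a sum of squares. -/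
theorem IsSoS.of_posSemidef {σ ι : Type*} [Fintype ι] [DecidableEq ι] {A : Matrix ι ι ℝ} (hA : A.PosSemidef)
    (m : ι → MvPolynomial σ ℝ) : IsSoS (∑ a, ∑ b, C (A a b) * (m a * m b)) := by
  obtain ⟨B, rfl⟩ := CStarAlgebra.nonneg_iff_eq_star_mul_self.mp hA.nonneg
  have h := IsSoS.of_fintype (ι := ι) (fun c => ∑ a, C (B c a) * m a)
  have e : ∑ a, ∑ b, C ((star B * B) a b) * (m a * m b) = ∑ c, (∑ a, C (B c a) * m a) ^ 2 := by
    have h1 : ∀ a b, C ((star B * B) a b) * (m a * m b)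
        = ∑ c, (C (B c a) * m a) * (C (B c b) * m b) := by
      intro a b
      rw [Matrix.mul_apply, map_sum, Finset.sum_mul]
      refine Finset.sum_congr rfl fun c _ => ?_
      rw [Matrix.star_apply, star_trivial, map_mul]
      ring
    calc ∑ a, ∑ b, C ((star B * B) a b) * (m a * m b)
        = ∑ a, ∑ b, ∑ c, (C (B c a) * m a) * (C (B c b) * m b) :=
          Finset.sum_congr rfl fun a _ => Finset.sum_congr rfl fun b _ => h1 a b
      _ = ∑ a, ∑ c, ∑ b, (C (B c a) * m a) * (C (B c b) * m b) :=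
          Finset.sum_congr rfl fun a _ => Finset.sum_comm
      _ = ∑ c, ∑ a, ∑ b, (C (B c a) * m a) * (C (B c b) * m b) := Finset.sum_comm
      _ = ∑ c, (∑ a, C (B c a) * m a) ^ 2 := by
          refine Finset.sum_congr rfl fun c _ => ?_
          rw [sq, Finset.sum_mul_sum]
  rw [e]
  exact h

/-- Reindexing of a sum over two pairs. -/
theorem sum_swap {ι R : Type*} [Fintype ι] [AddCommMonoid R] (f : ι × ι → ι × ι → R) :
    ∑ u, ∑ w, f u w = ∑ r : ι × ι, ∑ s : ι × ι, f (r.1, s.1) (r.2, s.2) := by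
  simp only [Fintype.sum_prod_type]
  exact Finset.sum_congr rfl fun a _ => Finset.sum_comm

variable {Ω : Type*} [MeasurableSpace Ω] (P : Measure Ω) {d : ℕ} (Y : Ω → Fin d → ℝ)

/-- The products of two coordinates. -/
def zz (ω : Ω) (p : Fin d × Fin d) : ℝ := Y ω p.1 * Y ω p.2

/-- The matrix of fourth moments. -/
noncomputable def HH (p q : Fin d × Fin d) : ℝ := ∫ ω, zz Y ω p * zz Y ω q ∂P

omit [MeasurableSpace Ω] in
theorem sq_sum (a : Fin d → ℝ) (ω : Ω) :
    (∑ i, a i * Y ω i) ^ 2 = ∑ p : Fin d × Fin d, (a p.1 * a p.2) * zz Y ω p := by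
  rw [sq, Finset.sum_mul_sum, Fintype.sum_prod_type]
  refine Finset.sum_congr rfl fun i _ => Finset.sum_congr rfl fun j _ => ?_
  simp only [zz]
  ring

section

variable (hint : ∀ p q : Fin d × Fin d, Integrable (fun ω => zz Y ω p * zz Y ω q) P)
include hint

theorem integrable_tensor (c : Fin d × Fin d → Fin d × Fin d → ℝ) :
    Integrable (fun ω => ∑ p, ∑ q, c p q * (zz Y ω p * zz Y ω q)) P :=
  integrable_finsetSum _ fun p _ => integrable_finsetSum _ fun q _ => (hint p q).const_mul _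

theorem integral_tensor (c : Fin d × Fin d → Fin d × Fin d → ℝ) :
    ∫ ω, ∑ p, ∑ q, c p q * (zz Y ω p * zz Y ω q) ∂P = ∑ p, ∑ q, c p q * HH P Y p q := by
  rw [integral_finsetSum _ fun p _ => integrable_finsetSum _ fun q _ => (hint p q).const_mul _]
  refine Finset.sum_congr rfl fun p _ => ?_
  rw [integral_finsetSum _ fun q _ => (hint p q).const_mul _]
  refine Finset.sum_congr rfl fun q _ => ?_
  rw [integral_const_mul]
  rfl

omit hint [MeasurableSpace Ω] in
theorem prod22 (a b : Fin d → ℝ) (ω : Ω) : (∑ i, a i * Y ω i) ^ 2 * (∑ i, b i * Y ω i) ^ 2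
    = ∑ p, ∑ q, ((a p.1 * a p.2) * (b q.1 * b q.2)) * (zz Y ω p * zz Y ω q) := by
  rw [sq_sum, sq_sum, Finset.sum_mul_sum]
  refine Finset.sum_congr rfl fun p _ => Finset.sum_congr rfl fun q _ => ?_
  ring

theorem integrable22 (a b : Fin d → ℝ) :
    Integrable (fun ω => (∑ i, a i * Y ω i) ^ 2 * (∑ i, b i * Y ω i) ^ 2) P := by
  have h := integrable_tensor P Y hint (fun p q => (a p.1 * a p.2) * (b q.1 * b q.2))
  refine h.congr (Filter.Eventually.of_forall fun ω => ?_)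
  exact (prod22 Y a b ω).symm

theorem integral22 (a b : Fin d → ℝ) :
    ∫ ω, (∑ i, a i * Y ω i) ^ 2 * (∑ i, b i * Y ω i) ^ 2 ∂P
      = ∑ p, ∑ q, ((a p.1 * a p.2) * (b q.1 * b q.2)) * HH P Y p q := by
  rw [← integral_tensor P Y hint]
  exact integral_congr_ae (Filter.Eventually.of_forall fun ω => prod22 Y a b ω)

theorem integrable4 (a : Fin d → ℝ) : Integrable (fun ω => (∑ i, a i * Y ω i) ^ 4) P := by
  refine (integrable22 P Y hint a a).congr (Filter.Eventually.of_forall fun ω => ?_)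
  simp only
  ring

variable {M L : ℝ} (hM : ∀ v : Fin d → ℝ, ∫ ω, (∑ i, v i * Y ω i) ^ 4 ∂P ≤ M * (∑ i, v i ^ 2) ^ 2)
include hM

theorem bound22 (a b : Fin d → ℝ) : ∫ ω, (∑ i, a i * Y ω i) ^ 2 * (∑ i, b i * Y ω i) ^ 2 ∂P
    ≤ M * (∑ i, a i ^ 2) * (∑ i, b i ^ 2) := by
  have hsq : ∀ c : Fin d → ℝ, 0 ≤ ∑ i, c i ^ 2 := fun c => Finset.sum_nonneg fun i _ => sq_nonneg _
  have hzero : ∀ c : Fin d → ℝ, ∑ i, c i ^ 2 = 0 → ∀ ω, ∑ i, c i * Y ω i = 0 := by
    intro c hc ω
    have h1 := (Finset.sum_eq_zero_iff_of_nonneg fun i _ => sq_nonneg (c i)).1 hc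
    refine Finset.sum_eq_zero fun i hi => ?_
    rw [pow_eq_zero_iff two_ne_zero |>.1 (h1 i hi), zero_mul]
  rcases (hsq a).eq_or_lt with ha | ha
  · rw [← ha, mul_zero, zero_mul]
    refine le_of_eq ?_
    rw [show (fun ω => (∑ i, a i * Y ω i) ^ 2 * (∑ i, b i * Y ω i) ^ 2) = fun _ => (0:ℝ) from
      funext fun ω => by rw [hzero a ha.symm ω]; ring]
    simp
  rcases (hsq b).eq_or_lt with hb | hb
  · rw [← hb, mul_zero]
    refine le_of_eq ?_
    rw [show (fun ω => (∑ i, a i * Y ω i) ^ 2 * (∑ i, b i * Y ω i) ^ 2) = fun _ => (0:ℝ) from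
      funext fun ω => by rw [hzero b hb.symm ω]; ring]
    simp
  set α := ∑ i, a i ^ 2 with hα
  set β := ∑ i, b i ^ 2 with hβ
  have h1 : ∫ ω, (2 * α * β) * ((∑ i, a i * Y ω i) ^ 2 * (∑ i, b i * Y ω i) ^ 2) ∂P
      ≤ ∫ ω, (β ^ 2 * (∑ i, a i * Y ω i) ^ 4 + α ^ 2 * (∑ i, b i * Y ω i) ^ 4) ∂P := by
    refine integral_mono ((integrable22 P Y hint a b).const_mul _)
      (((integrable4 P Y hint a).const_mul _).add ((integrable4 P Y hint b).const_mul _)) fun ω => ?_
    simp only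
    nlinarith [sq_nonneg (β * (∑ i, a i * Y ω i) ^ 2 - α * (∑ i, b i * Y ω i) ^ 2)]
  rw [integral_const_mul, integral_add ((integrable4 P Y hint a).const_mul _)
    ((integrable4 P Y hint b).const_mul _), integral_const_mul, integral_const_mul] at h1
  have h2 := hM a
  have h3 := hM b
  have h4 : 0 < 2 * α * β := by positivity
  have h5 : 2 * α * β * ∫ ω, (∑ i, a i * Y ω i) ^ 2 * (∑ i, b i * Y ω i) ^ 2 ∂P
      ≤ 2 * α * β * (M * α * β) := by
    calc _ ≤ _ := h1
      _ ≤ β ^ 2 * (M * α ^ 2) + α ^ 2 * (M * β ^ 2) :=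
        add_le_add (mul_le_mul_of_nonneg_left h2 (sq_nonneg _)) (mul_le_mul_of_nonneg_left h3 (sq_nonneg _))
      _ = 2 * α * β * (M * α * β) := by ring
  exact le_of_mul_le_mul_left h5 h4

variable (hL : ∀ v : Fin d → ℝ, ∫ ω, (∑ i, Y ω i ^ 2) * (∑ i, v i * Y ω i) ^ 2 ∂P ≤ L * ∑ i, v i ^ 2)

omit hM in
theorem integrableL (v : Fin d → ℝ) : Integrable (fun ω => (∑ i, Y ω i ^ 2) * (∑ i, v i * Y ω i) ^ 2) P := by
  have e : (fun ω => (∑ i, Y ω i ^ 2) * (∑ i, v i * Y ω i) ^ 2)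
      = fun ω => ∑ k : Fin d, (∑ i, (Pi.single k (1:ℝ) : Fin d → ℝ) i * Y ω i) ^ 2 * (∑ i, v i * Y ω i) ^ 2 := by
    funext ω
    rw [Finset.sum_mul]
    refine Finset.sum_congr rfl fun k _ => ?_
    congr 2
    rw [Finset.sum_eq_single k]
    · rw [Pi.single_eq_same, one_mul]
    · intro b _ hb
      rw [Pi.single_eq_of_ne hb, zero_mul]
    · intro h
      exact absurd (Finset.mem_univ k) h
  rw [e]
  exact integrable_finsetSum _ fun k _ => integrable22 P Y hint _ _

/-- The bound with `L = M d`. -/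
theorem boundL (v : Fin d → ℝ) : ∫ ω, (∑ i, Y ω i ^ 2) * (∑ i, v i * Y ω i) ^ 2 ∂P
    ≤ (M * d) * ∑ i, v i ^ 2 := by
  have e : (fun ω => (∑ i, Y ω i ^ 2) * (∑ i, v i * Y ω i) ^ 2)
      = fun ω => ∑ k : Fin d, (∑ i, (Pi.single k (1:ℝ) : Fin d → ℝ) i * Y ω i) ^ 2 * (∑ i, v i * Y ω i) ^ 2 := by
    funext ω
    rw [Finset.sum_mul]
    refine Finset.sum_congr rfl fun k _ => ?_
    congr 2
    rw [Finset.sum_eq_single k]
    · rw [Pi.single_eq_same, one_mul]
    · intro b _ hb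
      rw [Pi.single_eq_of_ne hb, zero_mul]
    · intro h
      exact absurd (Finset.mem_univ k) h
  rw [e, integral_finsetSum _ fun k _ => integrable22 P Y hint _ _]
  have h1 : ∀ k : Fin d, ∑ i, (Pi.single k (1:ℝ) : Fin d → ℝ) i ^ 2 = 1 := by
    intro k
    rw [Finset.sum_eq_single k]
    · rw [Pi.single_eq_same, one_pow]
    · intro b _ hb
      rw [Pi.single_eq_of_ne hb, zero_pow two_ne_zero]
    · intro h
      exact absurd (Finset.mem_univ k) h
  calc ∑ k : Fin d, ∫ ω, (∑ i, (Pi.single k (1:ℝ) : Fin d → ℝ) i * Y ω i) ^ 2 * (∑ i, v i * Y ω i) ^ 2 ∂P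
      ≤ ∑ k : Fin d, M * (∑ i, (Pi.single k (1:ℝ) : Fin d → ℝ) i ^ 2) * ∑ i, v i ^ 2 :=
        Finset.sum_le_sum fun k _ => bound22 P Y hint hM _ _
    _ = (M * d) * ∑ i, v i ^ 2 := by
        simp only [h1, mul_one, Finset.sum_const, Finset.card_univ, Fintype.card_fin, nsmul_eq_mul]
        ring

/-- The flattened matrix of `|G_v|²`. -/
noncomputable def WW : Matrix (Fin d × Fin d) (Fin d × Fin d) ℝ := fun u w =>
  ∑ p, HH P Y p (u.1, w.1) * HH P Y p (u.2, w.2)

omit hint hM in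
theorem HH_comm (p q : Fin d × Fin d) : HH P Y p q = HH P Y q p := by
  unfold HH
  exact integral_congr_ae (Filter.Eventually.of_forall fun ω => mul_comm _ _)

omit hint hM in
theorem HH_swap (p q : Fin d × Fin d) : HH P Y p (q.2, q.1) = HH P Y p q := by
  unfold HH zz
  exact integral_congr_ae (Filter.Eventually.of_forall fun ω => by simp only; ring)

include hL in
theorem WW_bound (hM0 : 0 ≤ M) (y : Fin d × Fin d → ℝ) :
    ∑ u, ∑ w, y u * y w * WW P Y u w ≤ (M * L) * ∑ u, y u ^ 2 := by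
  -- the integral form of the left side
  let b : Ω → Fin d → ℝ := fun ω k => ∑ s, y (k, s) * Y ω s
  have hb : ∀ ω (r : Fin d × Fin d), b ω r.1 * b ω r.2
      = ∑ s : Fin d × Fin d, (y (r.1, s.1) * y (r.2, s.2)) * zz Y ω s := by
    intro ω r
    show (∑ s, y (r.1, s) * Y ω s) * (∑ s, y (r.2, s) * Y ω s) = _
    rw [Finset.sum_mul_sum, Fintype.sum_prod_type]
    refine Finset.sum_congr rfl fun i _ => Finset.sum_congr rfl fun j _ => ?_
    simp only [zz]
    ring
  have hF : ∀ ω, ∫ ω', (∑ i, Y ω i * Y ω' i) ^ 2 * (∑ i, b ω i * Y ω' i) ^ 2 ∂P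
      = ∑ p, ∑ s, (∑ r : Fin d × Fin d, HH P Y p r * (y (r.1, s.1) * y (r.2, s.2))) * (zz Y ω p * zz Y ω s) := by
    intro ω
    rw [integral22 P Y hint]
    refine Finset.sum_congr rfl fun p _ => ?_
    calc ∑ q : Fin d × Fin d, Y ω p.1 * Y ω p.2 * (b ω q.1 * b ω q.2) * HH P Y p q
        = ∑ r : Fin d × Fin d, ∑ s : Fin d × Fin d,
            (HH P Y p r * (y (r.1, s.1) * y (r.2, s.2))) * (zz Y ω p * zz Y ω s) := by
          refine Finset.sum_congr rfl fun r _ => ?_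
          rw [hb, Finset.mul_sum, Finset.sum_mul]
          refine Finset.sum_congr rfl fun s _ => ?_
          simp only [zz]
          ring
      _ = _ := by
          rw [Finset.sum_comm]
          refine Finset.sum_congr rfl fun s _ => ?_
          rw [Finset.sum_mul]
  have hle : ∀ ω, ∫ ω', (∑ i, Y ω i * Y ω' i) ^ 2 * (∑ i, b ω i * Y ω' i) ^ 2 ∂P
      ≤ M * (∑ i, Y ω i ^ 2) * ∑ k, b ω k ^ 2 := fun ω => bound22 P Y hint hM _ _
  have hleft : ∑ u, ∑ w, y u * y w * WW P Y u w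
      = ∫ ω, ∑ p, ∑ s, (∑ r : Fin d × Fin d, HH P Y p r * (y (r.1, s.1) * y (r.2, s.2)))
          * (zz Y ω p * zz Y ω s) ∂P := by
    rw [integral_tensor P Y hint (fun p s => ∑ r : Fin d × Fin d, HH P Y p r * (y (r.1, s.1) * y (r.2, s.2))),
      sum_swap]
    calc ∑ r : Fin d × Fin d, ∑ s : Fin d × Fin d, y (r.1, s.1) * y (r.2, s.2) * WW P Y (r.1, s.1) (r.2, s.2)
        = ∑ r : Fin d × Fin d, ∑ s : Fin d × Fin d, ∑ p,
            HH P Y p r * (y (r.1, s.1) * y (r.2, s.2)) * HH P Y p s := by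
          refine Finset.sum_congr rfl fun r _ => Finset.sum_congr rfl fun s _ => ?_
          unfold WW
          rw [Finset.mul_sum]
          refine Finset.sum_congr rfl fun p _ => ?_
          simp only
          ring
      _ = ∑ r : Fin d × Fin d, ∑ p, ∑ s : Fin d × Fin d,
            HH P Y p r * (y (r.1, s.1) * y (r.2, s.2)) * HH P Y p s :=
          Finset.sum_congr rfl fun r _ => Finset.sum_comm
      _ = ∑ p, ∑ r : Fin d × Fin d, ∑ s : Fin d × Fin d,
            HH P Y p r * (y (r.1, s.1) * y (r.2, s.2)) * HH P Y p s := Finset.sum_comm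
      _ = ∑ p, ∑ s : Fin d × Fin d, ∑ r : Fin d × Fin d,
            HH P Y p r * (y (r.1, s.1) * y (r.2, s.2)) * HH P Y p s :=
          Finset.sum_congr rfl fun p _ => Finset.sum_comm
      _ = _ := by
          refine Finset.sum_congr rfl fun p _ => Finset.sum_congr rfl fun s _ => ?_
          rw [Finset.sum_mul]
  have hint1 : Integrable (fun ω => M * (∑ i, Y ω i ^ 2) * ∑ k, b ω k ^ 2) P := by
    have e : (fun ω => M * (∑ i, Y ω i ^ 2) * ∑ k, b ω k ^ 2)
        = fun ω => ∑ k, M * ((∑ i, Y ω i ^ 2) * (∑ s, y (k, s) * Y ω s) ^ 2) := by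
      funext ω
      rw [Finset.mul_sum]
      refine Finset.sum_congr rfl fun k _ => ?_
      show M * (∑ i, Y ω i ^ 2) * (∑ s, y (k, s) * Y ω s) ^ 2 = _
      ring
    rw [e]
    exact integrable_finsetSum _ fun k _ => (integrableL P Y hint _).const_mul _
  rw [hleft]
  calc ∫ ω, ∑ p, ∑ s, (∑ r : Fin d × Fin d, HH P Y p r * (y (r.1, s.1) * y (r.2, s.2)))
          * (zz Y ω p * zz Y ω s) ∂P
      ≤ ∫ ω, M * (∑ i, Y ω i ^ 2) * ∑ k, b ω k ^ 2 ∂P := by
        refine integral_mono (integrable_tensor P Y hint _) hint1 fun ω => ?_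
        have h := hle ω
        rw [hF ω] at h
        exact h
    _ = ∑ k, M * ∫ ω, (∑ i, Y ω i ^ 2) * (∑ s, y (k, s) * Y ω s) ^ 2 ∂P := by
        rw [show (fun ω => M * (∑ i, Y ω i ^ 2) * ∑ k, b ω k ^ 2)
          = fun ω => ∑ k, M * ((∑ i, Y ω i ^ 2) * (∑ s, y (k, s) * Y ω s) ^ 2) from ?_]
        · rw [integral_finsetSum _ fun k _ => (integrableL P Y hint _).const_mul _]
          exact Finset.sum_congr rfl fun k _ => integral_const_mul _ _
        · funext ω
          rw [Finset.mul_sum]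
          refine Finset.sum_congr rfl fun k _ => ?_
          show M * (∑ i, Y ω i ^ 2) * (∑ s, y (k, s) * Y ω s) ^ 2 = _
          ring
    _ ≤ ∑ k, M * (L * ∑ s, y (k, s) ^ 2) :=
        Finset.sum_le_sum fun k _ => mul_le_mul_of_nonneg_left (hL _) hM0
    _ = (M * L) * ∑ u, y u ^ 2 := by
        rw [Fintype.sum_prod_type, Finset.mul_sum]
        exact Finset.sum_congr rfl fun k _ => by ring

/-- The products of two variables. -/
noncomputable def mm (p : Fin d × Fin d) : MvPolynomial (Fin d) ℝ := X p.1 * X p.2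

/-- The fourth moment form as a polynomial. -/
noncomputable def form4 : MvPolynomial (Fin d) ℝ := ∑ p, ∑ q, C (HH P Y p q) * (mm p * mm q)

omit hint hM in
theorem sum_mm_sq : ∑ p : Fin d × Fin d, mm p ^ 2 = (∑ i : Fin d, (X i : MvPolynomial (Fin d) ℝ) ^ 2) ^ 2 := by
  rw [sq (∑ i : Fin d, (X i : MvPolynomial (Fin d) ℝ) ^ 2), Finset.sum_mul_sum, Fintype.sum_prod_type]
  refine Finset.sum_congr rfl fun i _ => Finset.sum_congr rfl fun j _ => ?_
  simp only [mm]
  ring

omit hint hM in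
theorem sum_g_sq : ∑ p, (∑ q, C (HH P Y p q) * mm q) ^ 2
    = ∑ u, ∑ w, C (WW P Y u w) * (mm u * mm w) := by
  rw [sum_swap]
  calc ∑ p, (∑ q, C (HH P Y p q) * mm q) ^ 2
      = ∑ p, ∑ r : Fin d × Fin d, ∑ s : Fin d × Fin d,
          C (HH P Y p r * HH P Y p s) * (mm (r.1, s.1) * mm (r.2, s.2)) := by
        refine Finset.sum_congr rfl fun p _ => ?_
        rw [sq, Finset.sum_mul_sum]
        refine Finset.sum_congr rfl fun r _ => Finset.sum_congr rfl fun s _ => ?_
        rw [map_mul]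
        simp only [mm]
        ring
    _ = ∑ r : Fin d × Fin d, ∑ p, ∑ s : Fin d × Fin d,
          C (HH P Y p r * HH P Y p s) * (mm (r.1, s.1) * mm (r.2, s.2)) := Finset.sum_comm
    _ = ∑ r : Fin d × Fin d, ∑ s : Fin d × Fin d, ∑ p,
          C (HH P Y p r * HH P Y p s) * (mm (r.1, s.1) * mm (r.2, s.2)) :=
        Finset.sum_congr rfl fun r _ => Finset.sum_comm
    _ = _ := by
        refine Finset.sum_congr rfl fun r _ => Finset.sum_congr rfl fun s _ => ?_
        rw [← Finset.sum_mul, ← map_sum]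
        rfl

include hL in
/-- **The certificate.** -/
theorem sos (hM0 : 0 ≤ M) {b : ℝ} (hb : 0 < b) (hML : M * L ≤ b ^ 2) :
    IsSoS (C b * (∑ i : Fin d, (X i : MvPolynomial (Fin d) ℝ) ^ 2) ^ 2 - form4 P Y) := by
  classical
  set A : Matrix (Fin d × Fin d) (Fin d × Fin d) ℝ := b ^ 2 • (1 : Matrix (Fin d × Fin d) (Fin d × Fin d) ℝ) - WW P Y
    with hA
  have hAe : ∀ u w, A u w = (if u = w then b ^ 2 else 0) - WW P Y u w := by
    intro u w
    rw [hA, Matrix.sub_apply, Matrix.smul_apply, Matrix.one_apply, smul_eq_mul, mul_ite, mul_one, mul_zero]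
  have hpsd : A.PosSemidef := by
    rw [Matrix.posSemidef_iff_dotProduct_mulVec]
    constructor
    · ext u w
      rw [Matrix.conjTranspose_apply, star_trivial, hAe, hAe]
      congr 1
      · by_cases h : u = w
        · rw [if_pos h, if_pos h.symm]
        · rw [if_neg h, if_neg (Ne.symm h)]
      · unfold WW
        refine Finset.sum_congr rfl fun p _ => ?_
        rw [← HH_swap P Y p (w.1, u.1), ← HH_swap P Y p (w.2, u.2)]
    · intro y
      have e : star y ⬝ᵥ A.mulVec y = b ^ 2 * ∑ u, y u ^ 2 - ∑ u, ∑ w, y u * y w * WW P Y u w := by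
        rw [star_trivial, dotProduct, Finset.mul_sum, ← Finset.sum_sub_distrib]
        refine Finset.sum_congr rfl fun u _ => ?_
        rw [Matrix.mulVec, dotProduct, Finset.mul_sum]
        have h1 : ∀ w, y u * (A u w * y w) = (if u = w then b ^ 2 * y u * y w else 0) - y u * y w * WW P Y u w := by
          intro w
          rw [hAe]
          split_ifs <;> ring
        rw [Finset.sum_congr rfl fun w _ => h1 w, Finset.sum_sub_distrib, Finset.sum_ite_eq,
          if_pos (Finset.mem_univ _)]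
        ring
      rw [e]
      have h1 := WW_bound P Y hint hM hL hM0 y
      have h2 : (M * L) * ∑ u, y u ^ 2 ≤ b ^ 2 * ∑ u, y u ^ 2 :=
        mul_le_mul_of_nonneg_right hML (Finset.sum_nonneg fun u _ => sq_nonneg _)
      linarith
  have hS1 : IsSoS (∑ p : Fin d × Fin d, (C b * mm p - ∑ q, C (HH P Y p q) * mm q) ^ 2) :=
    IsSoS.of_fintype _
  have hS2 := IsSoS.of_posSemidef hpsd (mm : Fin d × Fin d → MvPolynomial (Fin d) ℝ)
  have hS := (hS1.add hS2).smul (c := 1 / (2 * b)) (by positivity)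
  have e2 : ∑ u, ∑ w, C (A u w) * ((mm u : MvPolynomial (Fin d) ℝ) * mm w)
      = C (b ^ 2) * ∑ p : Fin d × Fin d, mm p ^ 2 - ∑ u, ∑ w, C (WW P Y u w) * (mm u * mm w) := by
    rw [Finset.mul_sum, ← Finset.sum_sub_distrib]
    refine Finset.sum_congr rfl fun u _ => ?_
    have h1 : ∀ w, C (A u w) * ((mm u : MvPolynomial (Fin d) ℝ) * mm w)
        = (if u = w then C (b ^ 2) * (mm u * mm w) else 0) - C (WW P Y u w) * (mm u * mm w) := by
      intro w
      rw [hAe, map_sub]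
      split_ifs
      · ring
      · rw [map_zero]; ring
    rw [Finset.sum_congr rfl fun w _ => h1 w, Finset.sum_sub_distrib, Finset.sum_ite_eq,
      if_pos (Finset.mem_univ _), sq (mm u)]
  have e1 : ∑ p : Fin d × Fin d, (C b * mm p - ∑ q, C (HH P Y p q) * mm q) ^ 2
      = C (b ^ 2) * ∑ p : Fin d × Fin d, mm p ^ 2 - C (2 * b) * form4 P Y
        + ∑ u, ∑ w, C (WW P Y u w) * (mm u * mm w) := by
    rw [← sum_g_sq, form4, Finset.mul_sum, Finset.mul_sum, ← Finset.sum_sub_distrib, ← Finset.sum_add_distrib]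
    refine Finset.sum_congr rfl fun p _ => ?_
    have h1 : ∑ q, C (HH P Y p q) * ((mm p : MvPolynomial (Fin d) ℝ) * mm q)
        = mm p * ∑ q, C (HH P Y p q) * mm q := by
      rw [Finset.mul_sum]
      exact Finset.sum_congr rfl fun q _ => by ring
    rw [h1, map_pow, map_mul, show (C (2 : ℝ) : MvPolynomial (Fin d) ℝ) = 2 from map_ofNat C 2]
    ring
  have e3 : C (1 / (2 * b)) * (∑ p : Fin d × Fin d, (C b * mm p - ∑ q, C (HH P Y p q) * mm q) ^ 2
      + ∑ u, ∑ w, C (A u w) * ((mm u : MvPolynomial (Fin d) ℝ) * mm w))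
      = C b * (∑ i : Fin d, (X i : MvPolynomial (Fin d) ℝ) ^ 2) ^ 2 - form4 P Y := by
    rw [e1, e2, ← sum_mm_sq]
    have h1 : (C (1 / (2 * b)) : MvPolynomial (Fin d) ℝ) * C (b ^ 2) * 2 = C b := by
      rw [show (2 : MvPolynomial (Fin d) ℝ) = C (2 : ℝ) from (map_ofNat C 2).symm, ← map_mul, ← map_mul]
      congr 1
      field_simp
    have h2 : (C (1 / (2 * b)) : MvPolynomial (Fin d) ℝ) * C (2 * b) = 1 := by
      rw [← map_mul, one_div, inv_mul_cancel₀ (by positivity), map_one]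
    linear_combination (∑ p : Fin d × Fin d, mm p ^ 2) * h1 - form4 P Y * h2
  rw [e3] at hS
  exact hS

end

end Pool.Agent.Lib.MP_06963d_lc.SqrtCore
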