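import Mathlib
import Pool.Agent.Lib.MP_06963d_lc.CliffSlot

/-!
# Spectral truncation of a family
-/

namespace Pool.Agent.Lib.MP_06963d_lc

open Finset Matrix

/-- Simultaneous diagonal form of a Gram matrix, its square and the identity. -/
lemma exists_diag {R ι : Type} [Fintype R] [Fintype ι] [DecidableEq ι] (b : R → ι → ℝ) :
    ∃ (lam : ι → ℝ) (u : ι → ι → ℝ), (∀ i, 0 ≤ lam i) ∧
      (∀ v : ι → ℝ, nsq v = ∑ i, (∑ j, u i j * v j) ^ 2) ∧
      (∀ v : ι → ℝ, qf b v = ∑ i, lam i * (∑ j, u i j * v j) ^ 2) ∧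
      (∀ v : ι → ℝ, qf (gramM b) v = ∑ i, lam i ^ 2 * (∑ j, u i j * v j) ^ 2) := by
  obtain ⟨S, hS⟩ : ∃ S : Matrix ι ι ℝ, S = Matrix.of (gramM b) := ⟨_, rfl⟩
  have hSt : Sᵀ = S := by
    rw [hS]
    ext i j
    simp only [Matrix.transpose_apply, Matrix.of_apply, gramM]
    exact Finset.sum_congr rfl fun r _ => mul_comm _ _
  have hH : S.IsHermitian := by
    unfold Matrix.IsHermitian
    rw [Matrix.conjTranspose_eq_transpose_of_trivial]
    exact hSt
  obtain ⟨U, hU⟩ : ∃ U : Matrix ι ι ℝ, U = (hH.eigenvectorUnitary : Matrix ι ι ℝ) := ⟨_, rfl⟩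
  obtain ⟨lam, hlam⟩ : ∃ lam : ι → ℝ, lam = hH.eigenvalues := ⟨_, rfl⟩
  have hUs : star U = Uᵀ := by
    rw [Matrix.star_eq_conjTranspose, Matrix.conjTranspose_eq_transpose_of_trivial]
  have hUU : U * Uᵀ = 1 := by
    rw [← hUs, hU]
    exact Unitary.coe_mul_star_self _
  have hUU' : Uᵀ * U = 1 := mul_eq_one_comm.mp hUU
  have hspec : S = U * Matrix.diagonal lam * Uᵀ := by
    have h1 := hH.spectral_theorem
    rw [Unitary.conjStarAlgAut_apply] at h1
    have h2 : ((RCLike.ofReal : ℝ → ℝ) ∘ hH.eigenvalues) = lam := by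
      rw [hlam]; funext i; simp
    rw [h2, ← hU] at h1
    rw [← hUs]
    exact h1
  have hd : ∀ (w : ι → ℝ) (v : ι → ℝ), v ⬝ᵥ ((U * Matrix.diagonal w * Uᵀ) *ᵥ v)
      = ∑ i, w i * (∑ j, U j i * v j) ^ 2 := by
    intro w v
    rw [← Matrix.mulVec_mulVec, ← Matrix.mulVec_mulVec, Matrix.dotProduct_mulVec,
      ← Matrix.mulVec_transpose]
    simp only [dotProduct, Matrix.mulVec_diagonal]
    refine Finset.sum_congr rfl fun i _ => ?_
    have e : (Uᵀ *ᵥ v) i = ∑ j, U j i * v j := by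
      simp [Matrix.mulVec, dotProduct, Matrix.transpose_apply]
    rw [e]; ring
  have h2 : ∀ v : ι → ℝ, qf b v = ∑ i, lam i * (∑ j, U j i * v j) ^ 2 := by
    intro v
    rw [← hd, ← hspec, hS, qf_gram]
    exact qv_dot _ v
  have hnn : ∀ i, 0 ≤ lam i := by
    intro i
    have h3 := h2 (fun j => U j i)
    have h4 : ∀ i', (∑ j, U j i' * U j i) = if i' = i then 1 else 0 := by
      intro i'
      have := congrFun (congrFun hUU' i') i
      rw [Matrix.mul_apply, Matrix.one_apply] at this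
      simpa [Matrix.transpose_apply] using this
    simp only [h4] at h3
    have h5 : ∑ i', lam i' * (if i' = i then (1 : ℝ) else 0) ^ 2 = lam i := by
      rw [Finset.sum_eq_single i]
      · simp
      · intro j _ hj; simp [hj]
      · intro h; exact absurd (Finset.mem_univ i) h
    rw [h5] at h3
    rw [← h3]
    exact qf_nonneg _ _
  refine ⟨lam, fun i j => U j i, hnn, ?_, h2, ?_⟩
  · intro v
    have h3 := hd (fun _ => 1) v
    rw [Matrix.diagonal_one, Matrix.mul_one, hUU, Matrix.one_mulVec, ← nsq_dot] at h3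
    simpa using h3
  · intro v
    have e1 : qf (gramM b) v = (S *ᵥ v) ⬝ᵥ (S *ᵥ v) := by
      rw [hS]
      simp only [qf, dotProduct, Matrix.mulVec, sq, Matrix.of_apply]
    have e2 : (S *ᵥ v) ⬝ᵥ (S *ᵥ v) = v ⬝ᵥ ((S * S) *ᵥ v) := by
      rw [← Matrix.mulVec_mulVec, Matrix.dotProduct_mulVec v, ← Matrix.mulVec_transpose, hSt]
    have e3 : S * S = U * Matrix.diagonal (fun i => lam i ^ 2) * Uᵀ := by
      rw [hspec]
      calc U * Matrix.diagonal lam * Uᵀ * (U * Matrix.diagonal lam * Uᵀ)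
          = U * Matrix.diagonal lam * (Uᵀ * U) * Matrix.diagonal lam * Uᵀ := by
            simp only [Matrix.mul_assoc]
        _ = U * (Matrix.diagonal lam * Matrix.diagonal lam) * Uᵀ := by
            rw [hUU', Matrix.mul_one]
            simp only [Matrix.mul_assoc]
        _ = _ := by
            rw [Matrix.diagonal_mul_diagonal]
            congr 3
            funext i
            ring
    rw [e1, e2, e3, hd]

/-- Truncation of the spectrum at level `Λ`. -/
lemma exists_trunc {R ι : Type} [Fintype R] [Fintype ι] (b : R → ι → ℝ) {Λ : ℝ} (hΛ : 0 < Λ) :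
    ∃ β : ι → ι → ℝ, (∀ v, qf β v ≤ qf b v) ∧ (∀ v, qf β v ≤ Λ * nsq v) ∧
      ∀ (K : Type) (_ : Fintype K) (c : K → ℝ) (x : K → ι → ℝ),
        (∀ Q : ι → ι → ℝ, 0 ≤ ∑ k, c k * (∑ i, ∑ j, Q i j * x k i * x k j) ^ 2) →
        ∑ k, c k * qf b (x k) ^ 2 - 2 / Λ * ∑ k, c k * (qf b (x k) * qf (gramM b) (x k))
          ≤ ∑ k, c k * qf β (x k) ^ 2 := by
  classical
  obtain ⟨lam, u, hlam, hn, hb, hg⟩ := exists_diag b
  obtain ⟨f, hf⟩ : ∃ f : ι → ℝ, f = fun i => if lam i ≤ Λ then lam i else 0 := ⟨_, rfl⟩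
  have hf0 : ∀ i, 0 ≤ f i := fun i => by
    rw [hf]; dsimp only; split_ifs; exacts [hlam i, le_rfl]
  have hf1 : ∀ i, f i ≤ lam i := fun i => by
    rw [hf]; dsimp only; split_ifs; exacts [le_rfl, hlam i]
  have hf2 : ∀ i, f i ≤ Λ := fun i => by
    rw [hf]; dsimp only; split_ifs with h; exacts [h, hΛ.le]
  have hβ : ∀ v : ι → ℝ, qf (fun i j => Real.sqrt (f i) * u i j) v
      = ∑ i, f i * (∑ j, u i j * v j) ^ 2 := by
    intro v
    unfold qf
    refine Finset.sum_congr rfl fun i _ => ?_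
    have : ∑ j, Real.sqrt (f i) * u i j * v j = Real.sqrt (f i) * ∑ j, u i j * v j := by
      rw [Finset.mul_sum]
      exact Finset.sum_congr rfl fun j _ => by ring
    rw [this, mul_pow, Real.sq_sqrt (hf0 i)]
  refine ⟨fun i j => Real.sqrt (f i) * u i j, ?_, ?_, ?_⟩
  · intro v
    rw [hβ, hb]
    exact Finset.sum_le_sum fun i _ => mul_le_mul_of_nonneg_right (hf1 i) (sq_nonneg _)
  · intro v
    rw [hβ, hn, Finset.mul_sum]
    exact Finset.sum_le_sum fun i _ => mul_le_mul_of_nonneg_right (hf2 i) (sq_nonneg _)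
  · intro K _ c x hpe
    -- the matrix of pseudo-values
    obtain ⟨L, hL⟩ : ∃ L : ι → ι → ℝ, L = fun i j =>
      ∑ k, c k * ((∑ l, u i l * x k l) ^ 2 * (∑ l, u j l * x k l) ^ 2) := ⟨_, rfl⟩
    have hLs : ∀ i j, L i j = L j i := fun i j => by
      rw [hL]; dsimp only
      exact Finset.sum_congr rfl fun k _ => by ring
    have hL0 : ∀ i j, 0 ≤ L i j := fun i j => by
      have h1 := hpe fun a b => u i a * u j b
      have e : ∑ k, c k * (∑ a, ∑ b, u i a * u j b * x k a * x k b) ^ 2 = L i j := by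
        rw [hL]; dsimp only
        refine Finset.sum_congr rfl fun k _ => ?_
        have s2 : (∑ a, ∑ b, (u i a * u j b) * x k a * x k b)
            = (∑ a, u i a * x k a) * (∑ b, u j b * x k b) := by
          rw [Finset.sum_mul_sum]
          refine Finset.sum_congr rfl fun a _ => Finset.sum_congr rfl fun b _ => ?_
          ring
        rw [s2, mul_pow]
      rw [← e]; exact h1
    have hprod : ∀ (α γ : ι → ℝ), ∑ k, c k * ((∑ i, α i * (∑ l, u i l * x k l) ^ 2)
        * (∑ j, γ j * (∑ l, u j l * x k l) ^ 2)) = ∑ i, ∑ j, α i * γ j * L i j := by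
      intro α γ
      calc ∑ k, c k * ((∑ i, α i * (∑ l, u i l * x k l) ^ 2)
            * (∑ j, γ j * (∑ l, u j l * x k l) ^ 2))
          = ∑ k, ∑ i, ∑ j, c k * (α i * (∑ l, u i l * x k l) ^ 2
            * (γ j * (∑ l, u j l * x k l) ^ 2)) := by
            refine Finset.sum_congr rfl fun k _ => ?_
            rw [Finset.sum_mul_sum, Finset.mul_sum]
            refine Finset.sum_congr rfl fun i _ => ?_
            rw [Finset.mul_sum]
        _ = ∑ i, ∑ k, ∑ j, c k * (α i * (∑ l, u i l * x k l) ^ 2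
            * (γ j * (∑ l, u j l * x k l) ^ 2)) := Finset.sum_comm
        _ = ∑ i, ∑ j, ∑ k, c k * (α i * (∑ l, u i l * x k l) ^ 2
            * (γ j * (∑ l, u j l * x k l) ^ 2)) :=
            Finset.sum_congr rfl fun i _ => Finset.sum_comm
        _ = _ := by
            rw [hL]
            refine Finset.sum_congr rfl fun i _ => Finset.sum_congr rfl fun j _ => ?_
            dsimp only
            rw [Finset.mul_sum]
            refine Finset.sum_congr rfl fun k _ => ?_
            ring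
    have e1 : ∑ k, c k * qf b (x k) ^ 2 = ∑ i, ∑ j, lam i * lam j * L i j := by
      rw [← hprod]
      exact Finset.sum_congr rfl fun k _ => by rw [hb, sq]
    have e2 : ∑ k, c k * (qf b (x k) * qf (gramM b) (x k))
        = ∑ i, ∑ j, lam i * lam j ^ 2 * L i j := by
      rw [← hprod]
      exact Finset.sum_congr rfl fun k _ => by rw [hb, hg]
    have e3 : ∑ k, c k * qf (fun i j => Real.sqrt (f i) * u i j) (x k) ^ 2
        = ∑ i, ∑ j, f i * f j * L i j := by
      rw [← hprod]
      exact Finset.sum_congr rfl fun k _ => by rw [hβ, sq]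
    have e4 : ∑ i, ∑ j, lam i * lam j ^ 2 * L i j = ∑ i, ∑ j, lam i ^ 2 * lam j * L i j := by
      rw [Finset.sum_comm]
      refine Finset.sum_congr rfl fun i _ => Finset.sum_congr rfl fun j _ => ?_
      rw [hLs]; ring
    rw [e1, e2, e3]
    have key : ∀ i j, lam i * lam j * L i j ≤ 1 / Λ * (lam i * lam j ^ 2 * L i j)
        + 1 / Λ * (lam i ^ 2 * lam j * L i j) + f i * f j * L i j := by
      intro i j
      have hk : lam i * lam j ≤ 1 / Λ * (lam i * lam j ^ 2) + 1 / Λ * (lam i ^ 2 * lam j)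
          + f i * f j := by
        have p1 := hlam i
        have p2 := hlam j
        have q1 : 0 ≤ 1 / Λ * (lam i * lam j ^ 2) := by positivity
        have q2 : 0 ≤ 1 / Λ * (lam i ^ 2 * lam j) := by positivity
        by_cases h1 : lam i ≤ Λ
        · by_cases h2 : lam j ≤ Λ
          · have : f i * f j = lam i * lam j := by rw [hf]; simp [h1, h2]
            linarith
          · have h3 : 0 ≤ f i * f j := mul_nonneg (hf0 i) (hf0 j)
            have h4 : lam i * lam j ≤ 1 / Λ * (lam i * lam j ^ 2) := by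
              rw [one_div_mul_eq_div, le_div_iff₀ hΛ]
              have : 0 ≤ lam i * lam j := mul_nonneg p1 p2
              nlinarith [not_le.mp h2]
            linarith
        · have h3 : 0 ≤ f i * f j := mul_nonneg (hf0 i) (hf0 j)
          have h4 : lam i * lam j ≤ 1 / Λ * (lam i ^ 2 * lam j) := by
            rw [one_div_mul_eq_div, le_div_iff₀ hΛ]
            have : 0 ≤ lam i * lam j := mul_nonneg p1 p2
            nlinarith [not_le.mp h1]
          linarith
      have := mul_le_mul_of_nonneg_right hk (hL0 i j)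
      linarith
    have h5 : ∑ i, ∑ j, lam i * lam j * L i j ≤ ∑ i, ∑ j, (1 / Λ * (lam i * lam j ^ 2 * L i j)
        + 1 / Λ * (lam i ^ 2 * lam j * L i j) + f i * f j * L i j) :=
      Finset.sum_le_sum fun i _ => Finset.sum_le_sum fun j _ => key i j
    have h6 : ∑ i, ∑ j, (1 / Λ * (lam i * lam j ^ 2 * L i j)
        + 1 / Λ * (lam i ^ 2 * lam j * L i j) + f i * f j * L i j)
        = 1 / Λ * ∑ i, ∑ j, lam i * lam j ^ 2 * L i j
          + 1 / Λ * ∑ i, ∑ j, lam i ^ 2 * lam j * L i j + ∑ i, ∑ j, f i * f j * L i j := by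
      simp only [Finset.sum_add_distrib, Finset.mul_sum]
    rw [h6, ← e4] at h5
    have h7 : 2 / Λ * ∑ i, ∑ j, lam i * lam j ^ 2 * L i j
        = 1 / Λ * ∑ i, ∑ j, lam i * lam j ^ 2 * L i j
          + 1 / Λ * ∑ i, ∑ j, lam i * lam j ^ 2 * L i j := by ring
    linarith

end Pool.Agent.Lib.MP_06963d_lc
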